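import Pool.Agent.helper35.GS.Sob

set_option autoImplicit false

open MeasureTheory Filter Topology
open scoped ENNReal NNReal ContDiff Gradient InnerProductSpace

noncomputable section

namespace Pool.Agent.GroundState

variable {N : ℕ}

/-- normalised Lebesgue measure on the ball of radius `ε`. -/
def kap (N : ℕ) (ε : ℝ) : Measure (E N) :=
  (volume (Metric.ball (0 : E N) ε))⁻¹ • volume.restrict (Metric.ball (0 : E N) ε)

lemma vol_ball_pos {ε : ℝ} (hε : 0 < ε) : volume (Metric.ball (0 : E N) ε) ≠ 0 :=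
  (Metric.measure_ball_pos volume _ hε).ne'

lemma vol_ball_fin (ε : ℝ) : volume (Metric.ball (0 : E N) ε) ≠ ⊤ := measure_ball_lt_top.ne

lemma kap_prob {ε : ℝ} (hε : 0 < ε) : IsProbabilityMeasure (kap N ε) := by
  constructor
  unfold kap
  rw [Measure.smul_apply, Measure.restrict_apply MeasurableSet.univ, Set.univ_inter, smul_eq_mul]
  exact ENNReal.inv_mul_cancel (vol_ball_pos hε) (vol_ball_fin ε)

instance kap_sfin (ε : ℝ) : SFinite (kap N ε) := by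
  unfold kap; infer_instance

lemma kap_ac (ε : ℝ) : kap N ε ≪ volume := by
  unfold kap
  exact (Measure.absolutelyContinuous_of_le Measure.restrict_le_self).smul_left _

lemma kap_le (ε : ℝ) (f : E N → ℝ≥0∞) :
    ∫⁻ h, f h ∂(kap N ε) ≤ (volume (Metric.ball (0 : E N) ε))⁻¹ * ∫⁻ h, f h := by
  unfold kap
  rw [lintegral_smul_measure, smul_eq_mul]
  gcongr
  exact Measure.restrict_le_self

/-- Jensen's inequality for powers. -/
lemma jensen_enn {Ω : Type*} [MeasurableSpace Ω] {P : Measure Ω} [IsProbabilityMeasure P]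
    {f : Ω → ℝ} (hf : AEStronglyMeasurable f P) {s : ℝ} (hs : 1 ≤ s) :
    (∫⁻ a, ‖f a‖ₑ ∂P) ^ s ≤ ∫⁻ a, ‖f a‖ₑ ^ s ∂P := by
  have hs0 : 0 < s := by linarith
  have h := eLpNorm_le_eLpNorm_of_exponent_le (μ := P) (p := 1) (q := ENNReal.ofReal s)
    (by rw [← ENNReal.ofReal_one]; exact ENNReal.ofReal_le_ofReal hs) hf
  rw [eLpNorm_one_eq_lintegral_enorm, eLpNorm_eq_lintegral_rpow_enorm_toReal (by simpa using hs0)
    ENNReal.ofReal_ne_top, ENNReal.toReal_ofReal hs0.le] at h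
  calc (∫⁻ a, ‖f a‖ₑ ∂P) ^ s ≤ ((∫⁻ a, ‖f a‖ₑ ^ s ∂P) ^ (1 / s)) ^ s :=
        ENNReal.rpow_le_rpow h hs0.le
    _ = ∫⁻ a, ‖f a‖ₑ ^ s ∂P := by
        rw [← ENNReal.rpow_mul, one_div, inv_mul_cancel₀ hs0.ne', ENNReal.rpow_one]

/-- the average of `f` over the ball `B(x, ε)`. -/
def av (ε : ℝ) (f : E N → ℝ) (x : E N) : ℝ := ∫ h, f (x + h) ∂(kap N ε)

lemma enorm_av_rpow_le {ε : ℝ} (hε : 0 < ε) {f : E N → ℝ} (hf : StronglyMeasurable f) {s : ℝ}
    (hs : 1 ≤ s) (x : E N) : ‖av ε f x‖ₑ ^ s ≤ ∫⁻ h, ‖f (x + h)‖ₑ ^ s ∂(kap N ε) := by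
  have := kap_prob (N := N) hε
  refine (ENNReal.rpow_le_rpow (enorm_integral_le_lintegral_enorm _) (by linarith)).trans ?_
  exact jensen_enn (hf.comp_measurable (measurable_const_add x)).aestronglyMeasurable hs

lemma av_measurable {ε : ℝ} {f : E N → ℝ} (hf : StronglyMeasurable f) :
    StronglyMeasurable (av ε f) := by
  unfold av
  have h : StronglyMeasurable (Function.uncurry fun (x : E N) (h : E N) => f (x + h)) :=
    hf.comp_measurable (measurable_fst.add measurable_snd)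
  exact h.integral_prod_right

lemma lintegral_shift (f : E N → ℝ≥0∞) (h : E N) : ∫⁻ x, f (x + h) = ∫⁻ x, f x :=
  lintegral_add_right_eq_self f h

lemma lintegral_av_le {ε : ℝ} (hε : 0 < ε) {f : E N → ℝ} (hf : StronglyMeasurable f) {s : ℝ}
    (hs : 1 ≤ s) : ∫⁻ x, ‖av ε f x‖ₑ ^ s ≤ ∫⁻ x, ‖f x‖ₑ ^ s := by
  have := kap_prob (N := N) hε
  calc ∫⁻ x, ‖av ε f x‖ₑ ^ s ≤ ∫⁻ x, ∫⁻ h, ‖f (x + h)‖ₑ ^ s ∂(kap N ε) :=
        lintegral_mono fun x => enorm_av_rpow_le hε hf hs x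
    _ = ∫⁻ h, (∫⁻ x, ‖f (x + h)‖ₑ ^ s) ∂(kap N ε) := by
        apply lintegral_lintegral_swap
        apply Measurable.aemeasurable
        exact ((hf.comp_measurable (measurable_fst.add measurable_snd)).enorm.pow_const s)
    _ = ∫⁻ h, (∫⁻ x, ‖f x‖ₑ ^ s) ∂(kap N ε) := by
        congr 1
        funext h
        exact lintegral_shift (fun x => ‖f x‖ₑ ^ s) h
    _ = ∫⁻ x, ‖f x‖ₑ ^ s := by simp

lemma sm_fn (w : H1 N) : StronglyMeasurable (fn w) := Lp.stronglyMeasurable _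

lemma lintegral_fn_sq (w : H1 N) : ∫⁻ x, ‖fn w x‖ₑ ^ (2 : ℝ) = ENNReal.ofReal (‖fstL w‖ ^ 2) := by
  have h := eLpNorm_fn w
  rw [eLpNorm_eq_lintegral_rpow_enorm_toReal (by norm_num) (by norm_num)] at h
  have h2 : ((2 : ℝ≥0∞).toReal) = 2 := by norm_num
  rw [h2] at h
  have : (∫⁻ x, ‖fn w x‖ₑ ^ (2 : ℝ)) = ((∫⁻ x, ‖fn w x‖ₑ ^ (2 : ℝ)) ^ (1 / (2 : ℝ))) ^ (2 : ℝ) := by
    rw [← ENNReal.rpow_mul]; norm_num
  rw [this, h, ENNReal.ofReal_rpow_of_nonneg (norm_nonneg _) (by norm_num)]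
  norm_num

lemma lintegral_gr_sq (w : H1 N) : ∫⁻ x, ‖gr w x‖ₑ ^ (2 : ℝ) = ENNReal.ofReal (‖sndL w‖ ^ 2) := by
  have h := eLpNorm_gr w
  rw [eLpNorm_eq_lintegral_rpow_enorm_toReal (by norm_num) (by norm_num)] at h
  have h2 : ((2 : ℝ≥0∞).toReal) = 2 := by norm_num
  rw [h2] at h
  have : (∫⁻ x, ‖gr w x‖ₑ ^ (2 : ℝ)) = ((∫⁻ x, ‖gr w x‖ₑ ^ (2 : ℝ)) ^ (1 / (2 : ℝ))) ^ (2 : ℝ) := by
    rw [← ENNReal.rpow_mul]; norm_num
  rw [this, h, ENNReal.ofReal_rpow_of_nonneg (norm_nonneg _) (by norm_num)]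
  norm_num

/-- the constant bounding averages. -/
def avK (N : ℕ) (ε : ℝ) : ℝ := √((volume (Metric.ball (0 : E N) ε))⁻¹.toReal)

lemma abs_av_le {ε : ℝ} (hε : 0 < ε) (w : H1 N) (x : E N) :
    |av ε (fn w) x| ≤ avK N ε * ‖fstL w‖ := by
  have h1 := enorm_av_rpow_le hε (sm_fn w) (one_le_two (α := ℝ)) x
  have h2 := h1.trans (kap_le ε _)
  have h3 : ∫⁻ h, ‖fn w (x + h)‖ₑ ^ (2 : ℝ) = ∫⁻ h, ‖fn w h‖ₑ ^ (2 : ℝ) :=
    lintegral_add_left_eq_self (fun h => ‖fn w h‖ₑ ^ (2 : ℝ)) x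
  rw [h3, lintegral_fn_sq] at h2
  have hv : (volume (Metric.ball (0 : E N) ε))⁻¹ ≠ ⊤ := ENNReal.inv_ne_top.2 (vol_ball_pos hε)
  have h4 := ENNReal.toReal_mono (ENNReal.mul_ne_top hv ENNReal.ofReal_ne_top) h2
  rw [ENNReal.toReal_mul, ENNReal.toReal_ofReal (by positivity), ← ENNReal.toReal_rpow,
    toReal_enorm, Real.norm_eq_abs, Real.rpow_two] at h4
  have h5 : (avK N ε * ‖fstL w‖) ^ 2
      = (volume (Metric.ball (0 : E N) ε))⁻¹.toReal * ‖fstL w‖ ^ 2 := by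
    unfold avK
    rw [mul_pow, Real.sq_sqrt ENNReal.toReal_nonneg]
  rw [← h5] at h4
  exact (pow_le_pow_iff_left₀ (abs_nonneg _) (by unfold avK; positivity) two_ne_zero).1 h4

lemma integrable_shift {ε : ℝ} (hε : 0 < ε) (w : H1 N) (x : E N) :
    Integrable (fun h => fn w (x + h)) (kap N ε) := by
  have := kap_prob (N := N) hε
  have h1 : MemLp (fun h => fn w (x + h)) 2 (volume : Measure (E N)) :=
    (memLp_fn w).comp_measurePreserving (measurePreserving_add_left volume x)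
  have h2 : MemLp (fun h => fn w (x + h)) 2 (kap N ε) := by
    unfold kap
    refine (h1.restrict _).smul_measure ?_
    exact ENNReal.inv_ne_top.2 (vol_ball_pos hε)
  exact h2.integrable (by norm_num)

lemma ae_shift {f g : E N → ℝ} (h : f =ᵐ[volume] g) (ε : ℝ) (x : E N) :
    (fun h => f (x + h)) =ᵐ[kap N ε] fun h => g (x + h) := by
  apply (kap_ac ε).ae_eq
  exact (measurePreserving_add_left volume x).quasiMeasurePreserving.ae_eq_comp h

lemma av_congr {f g : E N → ℝ} (h : f =ᵐ[volume] g) (ε : ℝ) (x : E N) : av ε f x = av ε g x :=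
  integral_congr_ae (ae_shift h ε x)

/-- averages as continuous linear functionals on `H¹`. -/
def avL {ε : ℝ} (hε : 0 < ε) (x : E N) : H1 N →L[ℝ] ℝ :=
  LinearMap.mkContinuous
    { toFun := fun w => av ε (fn w) x
      map_add' := fun u v => by
        rw [av_congr (fn_add u v)]
        exact integral_add (integrable_shift hε u x) (integrable_shift hε v x)
      map_smul' := fun c u => by
        rw [av_congr (fn_smul c u)]
        exact integral_const_mul _ _ }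
    (avK N ε) (fun w => by
      refine (abs_av_le hε w x).trans ?_
      have := norm_fst_le w
      have h0 : 0 ≤ avK N ε := by unfold avK; positivity
      exact mul_le_mul_of_nonneg_left this h0)

lemma avL_apply {ε : ℝ} (hε : 0 < ε) (x : E N) (w : H1 N) : avL hε x w = av ε (fn w) x := rfl

/-- translation estimate for test functions. -/
lemma shift_test {φ : E N → ℝ} (hφ : IsTest φ) (h : E N) :
    ∫⁻ x, ‖φ (x + h) - φ x‖ₑ ^ (2 : ℝ) ≤ ‖h‖ₑ ^ (2 : ℝ) * ∫⁻ x, ‖∇ φ x‖ₑ ^ (2 : ℝ) := by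
  let P : Measure ℝ := volume.restrict (Set.Ioc (0 : ℝ) 1)
  have hP : IsProbabilityMeasure P := ⟨by simp [P]⟩
  have hcont : Continuous (fun z : E N × ℝ => fderiv ℝ φ (z.1 + z.2 • h)) :=
    (hφ.1.continuous_fderiv (by simp)).comp (by fun_prop)
  have hpt : ∀ x, ‖φ (x + h) - φ x‖ₑ ^ (2 : ℝ)
      ≤ ‖h‖ₑ ^ (2 : ℝ) * ∫⁻ t, ‖∇ φ (x + t • h)‖ₑ ^ (2 : ℝ) ∂P := by
    intro x
    have e1 : φ (x + h) - φ x = ∫ t in (0 : ℝ)..1, fderiv ℝ φ (x + t • h) h := by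
      have hd : ∀ t ∈ Set.uIcc (0 : ℝ) 1, HasDerivAt (fun t : ℝ => φ (x + t • h))
          (fderiv ℝ φ (x + t • h) h) t := by
        intro t _
        have h1 : HasFDerivAt φ (fderiv ℝ φ (x + t • h)) (x + t • h) :=
          (hφ.1.differentiable (by simp) _).hasFDerivAt
        have h2 : HasDerivAt (fun t : ℝ => x + t • h) h t := by
          simpa using ((hasDerivAt_id t).smul_const h).const_add x
        exact h1.comp_hasDerivAt t h2
      have hc : Continuous (fun t : ℝ => fderiv ℝ φ (x + t • h) h) := by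
        have : Continuous (fun t : ℝ => fderiv ℝ φ (x + t • h)) :=
          hcont.comp (by fun_prop : Continuous fun t : ℝ => ((x, t) : E N × ℝ))
        exact this.clm_apply continuous_const
      rw [intervalIntegral.integral_eq_sub_of_hasDerivAt hd (hc.intervalIntegrable _ _)]
      simp
    have hc : Continuous (fun t : ℝ => fderiv ℝ φ (x + t • h) h) := by
      have : Continuous (fun t : ℝ => fderiv ℝ φ (x + t • h)) :=
        hcont.comp (by fun_prop : Continuous fun t : ℝ => ((x, t) : E N × ℝ))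
      exact this.clm_apply continuous_const
    rw [e1, intervalIntegral.integral_of_le zero_le_one]
    calc ‖∫ t in Set.Ioc (0 : ℝ) 1, fderiv ℝ φ (x + t • h) h‖ₑ ^ (2 : ℝ)
        ≤ (∫⁻ t, ‖fderiv ℝ φ (x + t • h) h‖ₑ ∂P) ^ (2 : ℝ) :=
          ENNReal.rpow_le_rpow (enorm_integral_le_lintegral_enorm _) (by norm_num)
      _ ≤ ∫⁻ t, ‖fderiv ℝ φ (x + t • h) h‖ₑ ^ (2 : ℝ) ∂P :=
          jensen_enn hc.aestronglyMeasurable one_le_two
      _ ≤ ∫⁻ t, ‖h‖ₑ ^ (2 : ℝ) * ‖∇ φ (x + t • h)‖ₑ ^ (2 : ℝ) ∂P := by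
          refine lintegral_mono fun t => ?_
          rw [← ENNReal.mul_rpow_of_nonneg _ _ (by norm_num : (0 : ℝ) ≤ 2)]
          apply ENNReal.rpow_le_rpow _ (by norm_num)
          have h1 : ‖fderiv ℝ φ (x + t • h) h‖ ≤ ‖fderiv ℝ φ (x + t • h)‖ * ‖h‖ :=
            ContinuousLinearMap.le_opNorm _ _
          rw [← norm_gradient, mul_comm] at h1
          rw [← ofReal_norm, ← ofReal_norm, ← ofReal_norm,
            ← ENNReal.ofReal_mul (norm_nonneg _)]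
          exact ENNReal.ofReal_le_ofReal h1
      _ = ‖h‖ₑ ^ (2 : ℝ) * ∫⁻ t, ‖∇ φ (x + t • h)‖ₑ ^ (2 : ℝ) ∂P := by
          rw [lintegral_const_mul']
          exact ENNReal.rpow_ne_top_of_nonneg (by norm_num) enorm_ne_top
  calc ∫⁻ x, ‖φ (x + h) - φ x‖ₑ ^ (2 : ℝ)
      ≤ ∫⁻ x, ‖h‖ₑ ^ (2 : ℝ) * ∫⁻ t, ‖∇ φ (x + t • h)‖ₑ ^ (2 : ℝ) ∂P := lintegral_mono hpt
    _ = ‖h‖ₑ ^ (2 : ℝ) * ∫⁻ x, ∫⁻ t, ‖∇ φ (x + t • h)‖ₑ ^ (2 : ℝ) ∂P := by
        rw [lintegral_const_mul']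
        exact ENNReal.rpow_ne_top_of_nonneg (by norm_num) enorm_ne_top
    _ = ‖h‖ₑ ^ (2 : ℝ) * ∫⁻ t, (∫⁻ x, ‖∇ φ (x + t • h)‖ₑ ^ (2 : ℝ)) ∂P := by
        congr 1
        apply lintegral_lintegral_swap
        apply Measurable.aemeasurable
        have : Continuous (fun z : E N × ℝ => ∇ φ (z.1 + z.2 • h)) :=
          hφ.continuous_gradient.comp (by fun_prop)
        exact (this.measurable.enorm.pow_const _)
    _ = ‖h‖ₑ ^ (2 : ℝ) * ∫⁻ t, (∫⁻ x, ‖∇ φ x‖ₑ ^ (2 : ℝ)) ∂P := by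
        congr 2
        funext t
        exact lintegral_shift (fun x => ‖∇ φ x‖ₑ ^ (2 : ℝ)) (t • h)
    _ = ‖h‖ₑ ^ (2 : ℝ) * ∫⁻ x, ‖∇ φ x‖ₑ ^ (2 : ℝ) := by simp

/-- translation operator on `L²`. -/
def shiftL (h : E N) : Lp ℝ 2 (volume : Measure (E N)) →ₗᵢ[ℝ] Lp ℝ 2 (volume : Measure (E N)) :=
  Lp.compMeasurePreservingₗᵢ ℝ (fun x => x + h) (measurePreserving_add_right volume h)

lemma shiftL_coe (h : E N) (u : Lp ℝ 2 (volume : Measure (E N))) :
    (shiftL h u : E N → ℝ) =ᵐ[volume] fun x => u (x + h) :=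
  Lp.coeFn_compMeasurePreserving u (measurePreserving_add_right volume h)

lemma lintegral_sq_eq_norm (u : Lp ℝ 2 (volume : Measure (E N))) :
    ∫⁻ x, ‖u x‖ₑ ^ (2 : ℝ) = ENNReal.ofReal (‖u‖ ^ 2) := by
  have h : eLpNorm u 2 volume = ENNReal.ofReal ‖u‖ := by
    rw [Lp.norm_def, ENNReal.ofReal_toReal (Lp.eLpNorm_ne_top _)]
  rw [eLpNorm_eq_lintegral_rpow_enorm_toReal (by norm_num) (by norm_num)] at h
  have h2 : ((2 : ℝ≥0∞).toReal) = 2 := by norm_num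
  rw [h2] at h
  have : (∫⁻ x, ‖u x‖ₑ ^ (2 : ℝ)) = ((∫⁻ x, ‖u x‖ₑ ^ (2 : ℝ)) ^ (1 / (2 : ℝ))) ^ (2 : ℝ) := by
    rw [← ENNReal.rpow_mul]; norm_num
  rw [this, h, ENNReal.ofReal_rpow_of_nonneg (norm_nonneg _) (by norm_num)]
  norm_num

lemma lintegral_shift_sub (h : E N) (w : H1 N) :
    ∫⁻ x, ‖fn w (x + h) - fn w x‖ₑ ^ (2 : ℝ) = ENNReal.ofReal (‖shiftL h (fstL w) - fstL w‖ ^ 2) := by
  rw [← lintegral_sq_eq_norm]
  refine lintegral_congr_ae ?_
  filter_upwards [Lp.coeFn_sub (shiftL h (fstL w)) (fstL w), shiftL_coe h (fstL w)] with x h1 h2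
  rw [h1, Pi.sub_apply, h2]
  rfl

lemma norm_shift_sub_le (h : E N) (w : H1 N) :
    ‖shiftL h (fstL w) - fstL w‖ ≤ ‖h‖ * ‖sndL w‖ := by
  obtain ⟨φ, ws, hφ, hp, hl⟩ := exists_seq w
  have key : ∀ n, ‖shiftL h (fstL (ws n)) - fstL (ws n)‖ ≤ ‖h‖ * ‖sndL (ws n)‖ := by
    intro n
    have h1 := shift_test (hφ n) h
    have e1 : ∫⁻ x, ‖φ n (x + h) - φ n x‖ₑ ^ (2 : ℝ)
        = ∫⁻ x, ‖fn (ws n) (x + h) - fn (ws n) x‖ₑ ^ (2 : ℝ) := by
      refine lintegral_congr_ae ?_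
      have h2 : (fun x => fn (ws n) (x + h)) =ᵐ[volume] fun x => φ n (x + h) :=
        (measurePreserving_add_right volume h).quasiMeasurePreserving.ae_eq_comp (hp n).1
      filter_upwards [h2, (hp n).1] with x h3 h4
      rw [h3]
      congr 3
      exact h4.symm
    have e2 : ∫⁻ x, ‖∇ (φ n) x‖ₑ ^ (2 : ℝ) = ENNReal.ofReal (‖sndL (ws n)‖ ^ 2) := by
      rw [← lintegral_gr_sq]
      refine lintegral_congr_ae ?_
      filter_upwards [(hp n).2] with x h3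
      rw [show gr (ws n) x = ∇ (φ n) x from h3]
    rw [e1, lintegral_shift_sub, e2] at h1
    have h5 : ‖h‖ₑ ^ (2 : ℝ) * ENNReal.ofReal (‖sndL (ws n)‖ ^ 2)
        = ENNReal.ofReal ((‖h‖ * ‖sndL (ws n)‖) ^ 2) := by
      rw [← ofReal_norm, ENNReal.ofReal_rpow_of_nonneg (norm_nonneg _) (by norm_num),
        ← ENNReal.ofReal_mul (by positivity), mul_pow]
      norm_num
    rw [h5, ENNReal.ofReal_le_ofReal_iff (by positivity)] at h1
    exact (pow_le_pow_iff_left₀ (norm_nonneg _) (by positivity) two_ne_zero).1 h1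
  have c1 : Tendsto (fun n => ‖shiftL h (fstL (ws n)) - fstL (ws n)‖) atTop
      (𝓝 ‖shiftL h (fstL w) - fstL w‖) := by
    have hc : Continuous fun w : H1 N => ‖shiftL h (fstL w) - fstL w‖ := by
      have := (shiftL h).continuous
      fun_prop
    exact (hc.tendsto w).comp hl
  have c2 : Tendsto (fun n => ‖h‖ * ‖sndL (ws n)‖) atTop (𝓝 (‖h‖ * ‖sndL w‖)) := by
    have hc : Continuous fun w : H1 N => ‖h‖ * ‖sndL w‖ := by fun_prop
    exact (hc.tendsto w).comp hl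
  exact le_of_tendsto_of_tendsto' c1 c2 key

/-- `∫ |A_ε u - u|² ≤ ε² ∫ |∇u|²`. -/
lemma lintegral_av_sub_le {ε : ℝ} (hε : 0 < ε) (w : H1 N) :
    ∫⁻ x, ‖av ε (fn w) x - fn w x‖ₑ ^ (2 : ℝ) ≤ ENNReal.ofReal ((ε * ‖sndL w‖) ^ 2) := by
  have hP := kap_prob (N := N) hε
  have hpt : ∀ x, ‖av ε (fn w) x - fn w x‖ₑ ^ (2 : ℝ)
      ≤ ∫⁻ h, ‖fn w (x + h) - fn w x‖ₑ ^ (2 : ℝ) ∂(kap N ε) := by
    intro x
    have e : av ε (fn w) x - fn w x = ∫ h, (fn w (x + h) - fn w x) ∂(kap N ε) := by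
      rw [integral_sub (integrable_shift hε w x) (integrable_const _)]
      simp [av]
    rw [e]
    refine (ENNReal.rpow_le_rpow (enorm_integral_le_lintegral_enorm _) (by norm_num)).trans ?_
    exact jensen_enn ((((sm_fn w).comp_measurable (measurable_const_add x)).sub
      stronglyMeasurable_const).aestronglyMeasurable) one_le_two
  calc ∫⁻ x, ‖av ε (fn w) x - fn w x‖ₑ ^ (2 : ℝ)
      ≤ ∫⁻ x, ∫⁻ h, ‖fn w (x + h) - fn w x‖ₑ ^ (2 : ℝ) ∂(kap N ε) := lintegral_mono hpt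
    _ = ∫⁻ h, (∫⁻ x, ‖fn w (x + h) - fn w x‖ₑ ^ (2 : ℝ)) ∂(kap N ε) := by
        apply lintegral_lintegral_swap
        apply Measurable.aemeasurable
        have h1 : StronglyMeasurable (fun z : E N × E N => fn w (z.1 + z.2)) :=
          (sm_fn w).comp_measurable (measurable_fst.add measurable_snd)
        have h2 : StronglyMeasurable (fun z : E N × E N => fn w z.1) :=
          (sm_fn w).comp_measurable measurable_fst
        exact ((h1.sub h2).enorm.pow_const _)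
    _ ≤ ∫⁻ h, ENNReal.ofReal ((ε * ‖sndL w‖) ^ 2) ∂(kap N ε) := by
        have hball : ∀ᵐ h ∂(kap N ε), h ∈ Metric.ball (0 : E N) ε := by
          unfold kap
          apply Measure.ae_smul_measure
          exact ae_restrict_mem measurableSet_ball
        refine lintegral_mono_ae ?_
        filter_upwards [hball] with h hh
        rw [lintegral_shift_sub]
        apply ENNReal.ofReal_le_ofReal
        apply pow_le_pow_left₀ (norm_nonneg _)
        refine (norm_shift_sub_le h w).trans ?_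
        have : ‖h‖ < ε := by simpa using hh
        exact mul_le_mul_of_nonneg_right this.le (norm_nonneg _)
    _ = ENNReal.ofReal ((ε * ‖sndL w‖) ^ 2) := by simp

end Pool.Agent.GroundState
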