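import Mathlib

/-! Brezis–Lieb lemma. -/

set_option autoImplicit false

open MeasureTheory Filter Topology
open scoped ENNReal NNReal

noncomputable section

namespace Pool.Agent.GroundState

lemma bl_elem {q : ℝ} (hq : 1 < q) {ε : ℝ} (hε : 0 < ε) : ∃ C : ℝ, 0 ≤ C ∧ ∀ a b : ℝ,
    |(|a + b| ^ q - |a| ^ q)| ≤ ε * |a| ^ q + C * |b| ^ q := by
  have hq0 : 0 < q := by linarith
  have hc : Tendsto (fun δ : ℝ => (1 + δ) ^ q) (𝓝 0) (𝓝 1) := by
    have : ContinuousAt (fun δ : ℝ => (1 + δ) ^ q) 0 := by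
      apply ContinuousAt.rpow_const (by fun_prop) (Or.inr hq0.le)
    simpa using this.tendsto
  have hc' : Tendsto (fun δ : ℝ => (1 - δ) ^ q) (𝓝 0) (𝓝 1) := by
    have : ContinuousAt (fun δ : ℝ => (1 - δ) ^ q) 0 := by
      apply ContinuousAt.rpow_const (by fun_prop) (Or.inr hq0.le)
    simpa using this.tendsto
  have h1 : ∀ᶠ δ in 𝓝[>] (0 : ℝ), (1 + δ) ^ q < 1 + ε :=
    (hc.eventually (gt_mem_nhds (by linarith))).filter_mono nhdsWithin_le_nhds
  have h2 : ∀ᶠ δ in 𝓝[>] (0 : ℝ), 1 - ε < (1 - δ) ^ q :=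
    (hc'.eventually (lt_mem_nhds (by linarith))).filter_mono nhdsWithin_le_nhds
  have h3 : ∀ᶠ δ in 𝓝[>] (0 : ℝ), δ < 1 :=
    (gt_mem_nhds (by norm_num : (0 : ℝ) < 1)).filter_mono nhdsWithin_le_nhds
  have h4 : ∀ᶠ δ in 𝓝[>] (0 : ℝ), 0 < δ := self_mem_nhdsWithin
  obtain ⟨δ, ⟨⟨hd1, hd2⟩, hd3⟩, hd4⟩ := (((h1.and h2).and h3).and h4).exists
  refine ⟨(1 / δ + 1) ^ q, Real.rpow_nonneg (by positivity) _, fun a b => ?_⟩
  have ha : 0 ≤ |a| ^ q := Real.rpow_nonneg (abs_nonneg _) _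
  have hb : 0 ≤ |b| ^ q := Real.rpow_nonneg (abs_nonneg _) _
  have hC : 0 ≤ (1 / δ + 1) ^ q := Real.rpow_nonneg (by positivity) _
  have hCb : 0 ≤ (1 / δ + 1) ^ q * |b| ^ q := mul_nonneg hC hb
  rcases le_total |b| (δ * |a|) with h | h
  · have u1 : |a + b| ≤ (1 + δ) * |a| := by
      have := abs_add_le a b
      linarith
    have u2 : (1 - δ) * |a| ≤ |a + b| := by
      have := abs_sub_abs_le_abs_sub a (-b)
      rw [abs_neg, sub_neg_eq_add] at this
      linarith
    have v1 : |a + b| ^ q ≤ (1 + ε) * |a| ^ q := by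
      calc |a + b| ^ q ≤ ((1 + δ) * |a|) ^ q := Real.rpow_le_rpow (abs_nonneg _) u1 hq0.le
        _ = (1 + δ) ^ q * |a| ^ q := Real.mul_rpow (by linarith) (abs_nonneg _)
        _ ≤ (1 + ε) * |a| ^ q := mul_le_mul_of_nonneg_right hd1.le ha
    have v2 : (1 - ε) * |a| ^ q ≤ |a + b| ^ q := by
      calc (1 - ε) * |a| ^ q ≤ (1 - δ) ^ q * |a| ^ q := mul_le_mul_of_nonneg_right hd2.le ha
        _ = ((1 - δ) * |a|) ^ q := (Real.mul_rpow (by linarith) (abs_nonneg _)).symm
        _ ≤ |a + b| ^ q :=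
          Real.rpow_le_rpow (mul_nonneg (by linarith) (abs_nonneg _)) u2 hq0.le
    rw [abs_le]
    constructor <;> nlinarith
  · have u0 : |a| ≤ 1 / δ * |b| := by
      rw [div_mul_eq_mul_div, one_mul, le_div_iff₀ hd4]
      linarith
    have u1 : |a + b| ≤ (1 / δ + 1) * |b| := by
      have := abs_add_le a b
      linarith
    have v1 : |a + b| ^ q ≤ (1 / δ + 1) ^ q * |b| ^ q := by
      rw [← Real.mul_rpow (by positivity) (abs_nonneg _)]
      exact Real.rpow_le_rpow (abs_nonneg _) u1 hq0.le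
    have v2 : |a| ^ q ≤ (1 / δ + 1) ^ q * |b| ^ q := by
      rw [← Real.mul_rpow (by positivity) (abs_nonneg _)]
      refine Real.rpow_le_rpow (abs_nonneg _) (u0.trans ?_) hq0.le
      have := abs_nonneg b
      nlinarith
    have v3 : 0 ≤ |a + b| ^ q := Real.rpow_nonneg (abs_nonneg _) _
    have v4 : 0 ≤ ε * |a| ^ q := mul_nonneg hε.le ha
    rw [abs_le]
    constructor <;> linarith

lemma abs_sub_rpow_le {q : ℝ} (hq : 1 < q) (a b : ℝ) :
    |a - b| ^ q ≤ 2 ^ q * (|a| ^ q + |b| ^ q) := by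
  have hq0 : 0 < q := by linarith
  have ha : 0 ≤ |a| ^ q := Real.rpow_nonneg (abs_nonneg _) _
  have hb : 0 ≤ |b| ^ q := Real.rpow_nonneg (abs_nonneg _) _
  have h2 : (0 : ℝ) ≤ 2 ^ q := Real.rpow_nonneg (by norm_num) _
  have h1 : |a - b| ≤ |a| + |b| := abs_sub a b
  rcases le_total |a| |b| with h | h
  · calc |a - b| ^ q ≤ (2 * |b|) ^ q := Real.rpow_le_rpow (abs_nonneg _) (by linarith) hq0.le
      _ = 2 ^ q * |b| ^ q := Real.mul_rpow (by norm_num) (abs_nonneg _)
      _ ≤ _ := by nlinarith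
  · calc |a - b| ^ q ≤ (2 * |a|) ^ q := Real.rpow_le_rpow (abs_nonneg _) (by linarith) hq0.le
      _ = 2 ^ q * |a| ^ q := Real.mul_rpow (by norm_num) (abs_nonneg _)
      _ ≤ _ := by nlinarith

theorem brezis_lieb {α : Type*} [MeasurableSpace α] {μ : Measure α} {q : ℝ} (hq : 1 < q)
    {f : ℕ → α → ℝ} {g : α → ℝ} (hf : ∀ n, AEStronglyMeasurable (f n) μ)
    (hg : AEStronglyMeasurable g μ) (hfi : ∀ n, Integrable (fun x => |f n x| ^ q) μ)
    (hgi : Integrable (fun x => |g x| ^ q) μ) {M : ℝ} (hM : ∀ n, ∫ x, |f n x| ^ q ∂μ ≤ M)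
    (hae : ∀ᵐ x ∂μ, Tendsto (fun n => f n x) atTop (𝓝 (g x))) :
    Tendsto (fun n => (∫ x, |f n x| ^ q ∂μ) - ∫ x, |f n x - g x| ^ q ∂μ) atTop
      (𝓝 (∫ x, |g x| ^ q ∂μ)) := by
  have hq0 : 0 < q := by linarith
  have mf : ∀ n, AEStronglyMeasurable (fun x => |f n x| ^ q) μ := fun n => (hfi n).1
  have md : ∀ n, AEStronglyMeasurable (fun x => |f n x - g x| ^ q) μ := fun n =>
    (((hf n).sub hg).norm.aemeasurable.pow_const q).aestronglyMeasurable
  have hdi : ∀ n, Integrable (fun x => |f n x - g x| ^ q) μ := by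
    intro n
    refine (((hfi n).add hgi).const_mul (2 ^ q)).mono (md n) (Eventually.of_forall fun x => ?_)
    rw [Real.norm_of_nonneg (Real.rpow_nonneg (abs_nonneg _) _)]
    exact (abs_sub_rpow_le hq _ _).trans (le_abs_self _)
  set B : ℝ := 2 ^ q * (M + ∫ x, |g x| ^ q ∂μ) with hB
  have hdB : ∀ n, ∫ x, |f n x - g x| ^ q ∂μ ≤ B := by
    intro n
    calc ∫ x, |f n x - g x| ^ q ∂μ ≤ ∫ x, 2 ^ q * (|f n x| ^ q + |g x| ^ q) ∂μ :=
          integral_mono (hdi n) (((hfi n).add hgi).const_mul (2 ^ q)) fun x =>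
            abs_sub_rpow_le hq _ _
      _ = 2 ^ q * ((∫ x, |f n x| ^ q ∂μ) + ∫ x, |g x| ^ q ∂μ) := by
          rw [integral_const_mul, integral_add (hfi n) hgi]
      _ ≤ B := by
          rw [hB]
          have h2 : (0 : ℝ) ≤ 2 ^ q := Real.rpow_nonneg (by norm_num) _
          have := hM n
          exact mul_le_mul_of_nonneg_left (by linarith) h2
  have hB0 : 0 ≤ B := (integral_nonneg fun x => Real.rpow_nonneg (abs_nonneg _) _).trans (hdB 0)
  let F : ℕ → α → ℝ := fun n x => |f n x| ^ q - |f n x - g x| ^ q - |g x| ^ q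
  have hFi : ∀ n, Integrable (F n) μ := fun n => ((hfi n).sub (hdi n)).sub hgi
  have hFint : ∀ n, ∫ x, F n x ∂μ
      = (∫ x, |f n x| ^ q ∂μ) - (∫ x, |f n x - g x| ^ q ∂μ) - ∫ x, |g x| ^ q ∂μ := by
    intro n
    have i1 : Integrable (fun x => |f n x| ^ q - |f n x - g x| ^ q) μ := (hfi n).sub (hdi n)
    simp only [F]
    rw [integral_sub i1 hgi, integral_sub (hfi n) (hdi n)]
  have hF0 : Tendsto (fun n => ∫ x, F n x ∂μ) atTop (𝓝 0) := by
    rw [Metric.tendsto_atTop]
    intro η hη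
    obtain ⟨C, hC0, hC⟩ := bl_elem hq (show 0 < η / (2 * (B + 1)) by positivity)
    set e := η / (2 * (B + 1)) with he
    let Wn : ℕ → α → ℝ := fun n x => max (|F n x| - e * |f n x - g x| ^ q) 0
    have hWb : ∀ n x, ‖Wn n x‖ ≤ (C + 1) * |g x| ^ q := by
      intro n x
      have hg0 : 0 ≤ |g x| ^ q := Real.rpow_nonneg (abs_nonneg _) _
      have h1 := hC (f n x - g x) (g x)
      rw [sub_add_cancel] at h1
      have h2 : |F n x| ≤ |(|f n x| ^ q - |f n x - g x| ^ q)| + |g x| ^ q := by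
        have := abs_sub (|f n x| ^ q - |f n x - g x| ^ q) (|g x| ^ q)
        rwa [abs_of_nonneg hg0] at this
      have h3 : |F n x| - e * |f n x - g x| ^ q ≤ (C + 1) * |g x| ^ q := by linarith
      simp only [Wn]
      rw [Real.norm_of_nonneg (le_max_right _ _)]
      exact max_le h3 (by positivity)
    have hWm : ∀ n, AEStronglyMeasurable (Wn n) μ := fun n => by
      have h1 := (hFi n).1.norm.sub ((md n).const_mul e)
      exact h1.sup aestronglyMeasurable_const
    have hWae : ∀ᵐ x ∂μ, Tendsto (fun n => Wn n x) atTop (𝓝 0) := by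
      filter_upwards [hae] with x hx
      have t1 : Tendsto (fun n => |f n x| ^ q) atTop (𝓝 (|g x| ^ q)) :=
        (hx.abs).rpow_const (Or.inr hq0.le)
      have t2 : Tendsto (fun n => |f n x - g x| ^ q) atTop (𝓝 0) := by
        have := ((hx.sub_const (g x)).abs).rpow_const (p := q) (Or.inr hq0.le)
        simpa [Real.zero_rpow hq0.ne'] using this
      have t3 : Tendsto (fun n => F n x) atTop (𝓝 0) := by
        have := (t1.sub t2).sub_const (|g x| ^ q)
        simpa using this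
      have t4 := (t3.abs.sub (t2.const_mul e)).max (tendsto_const_nhds (x := (0 : ℝ)))
      simpa using t4
    have hW : Tendsto (fun n => ∫ x, Wn n x ∂μ) atTop (𝓝 0) := by
      have := tendsto_integral_of_dominated_convergence (fun x => (C + 1) * |g x| ^ q) hWm
        (hgi.const_mul (C + 1)) (fun n => Eventually.of_forall (hWb n)) hWae
      simpa using this
    rw [Metric.tendsto_atTop] at hW
    obtain ⟨n0, hn0⟩ := hW (η / 2) (by linarith)
    refine ⟨n0, fun n hn => ?_⟩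
    have h1 := hn0 n hn
    rw [dist_zero_right, Real.norm_eq_abs] at h1
    rw [dist_zero_right]
    have hWi : Integrable (Wn n) μ :=
      (hgi.const_mul (C + 1)).mono (hWm n) (Eventually.of_forall fun x => by
        refine (hWb n x).trans (le_abs_self _))
    calc ‖∫ x, F n x ∂μ‖ ≤ ∫ x, ‖F n x‖ ∂μ := norm_integral_le_integral_norm _
      _ ≤ ∫ x, (Wn n x + e * |f n x - g x| ^ q) ∂μ := by
          refine integral_mono (hFi n).norm (hWi.add ((hdi n).const_mul e)) fun x => ?_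
          simp only [Wn, Real.norm_eq_abs]
          have := le_max_left (|F n x| - e * |f n x - g x| ^ q) 0
          linarith
      _ = (∫ x, Wn n x ∂μ) + e * ∫ x, |f n x - g x| ^ q ∂μ := by
          rw [integral_add hWi ((hdi n).const_mul e), integral_const_mul]
      _ ≤ (∫ x, Wn n x ∂μ) + e * B := by
          have : 0 ≤ e := by rw [he]; positivity
          have := mul_le_mul_of_nonneg_left (hdB n) this
          linarith
      _ < η := by
          have h2 : (∫ x, Wn n x ∂μ) < η / 2 := (le_abs_self _).trans_lt h1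
          have h3 : e * B ≤ η / 2 := by
            rw [he, div_mul_eq_mul_div, div_le_div_iff₀ (by positivity) (by norm_num)]
            nlinarith
          linarith
  have := hF0.add_const (∫ x, |g x| ^ q ∂μ)
  rw [zero_add] at this
  refine this.congr fun n => ?_
  rw [hFint]
  ring

end Pool.Agent.GroundState
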