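import Pool.Agent.helper35.GS.Defs

set_option autoImplicit false

open MeasureTheory Filter Topology
open scoped ENNReal NNReal ContDiff Gradient InnerProductSpace

noncomputable section

namespace Pool.Agent.GroundState

variable {N : ℕ}

instance : CompleteSpace (H1 N) := by
  unfold H1; infer_instance

instance : SecondCountableTopology (H1 N) := by
  have hf : Fact ((2 : ℝ≥0∞) ≠ ⊤) := ⟨by norm_num⟩
  have h1 : SecondCountableTopology (Lp ℝ 2 (volume : Measure (E N))) := inferInstance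
  have h2 : SecondCountableTopology (Lp (E N) 2 (volume : Measure (E N))) := inferInstance
  have h3 : SecondCountableTopology (W N) :=
    (WithLp.homeomorphProd 2 _ _).secondCountableTopology
  infer_instance

lemma IsTest.memLp {φ : E N → ℝ} (h : IsTest φ) (q : ℝ≥0∞) : MemLp φ q volume :=
  h.1.continuous.memLp_of_hasCompactSupport h.2

lemma norm_gradient {φ : E N → ℝ} (x : E N) : ‖∇ φ x‖ = ‖fderiv ℝ φ x‖ := by
  unfold gradient
  simp

lemma IsTest.continuous_gradient {φ : E N → ℝ} (h : IsTest φ) : Continuous (fun x => ∇ φ x) := by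
  unfold gradient
  exact (LinearIsometryEquiv.continuous _).comp (h.1.continuous_fderiv (by simp))

lemma IsTest.compactSupport_gradient {φ : E N → ℝ} (h : IsTest φ) :
    HasCompactSupport (fun x => ∇ φ x) := by
  have := h.2.fderiv ℝ
  unfold gradient
  exact this.comp_left (g := fun L => (InnerProductSpace.toDual ℝ (E N)).symm L) (by simp)

lemma IsTest.memLp_gradient {φ : E N → ℝ} (h : IsTest φ) (q : ℝ≥0∞) :
    MemLp (fun x => ∇ φ x) q volume :=
  h.continuous_gradient.memLp_of_hasCompactSupport h.compactSupport_gradient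

lemma exists_pair {φ : E N → ℝ} (h : IsTest φ) : ∃ w : H1 N, IsPairOf (w : W N) φ := by
  let w : W N := WithLp.toLp 2 ((h.memLp 2).toLp φ, (h.memLp_gradient 2).toLp _)
  have hw : IsPairOf w φ := ⟨(h.memLp 2).coeFn_toLp, (h.memLp_gradient 2).coeFn_toLp⟩
  have : w ∈ H1 N := (testPairs N).le_topologicalClosure ⟨φ, h, hw⟩
  exact ⟨⟨w, this⟩, hw⟩

lemma exists_seq (w : H1 N) : ∃ (φ : ℕ → E N → ℝ) (ws : ℕ → H1 N), (∀ n, IsTest (φ n)) ∧
    (∀ n, IsPairOf (ws n : W N) (φ n)) ∧ Tendsto ws atTop (𝓝 w) := by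
  have h : (w : W N) ∈ closure (testPairs N : Set (W N)) := w.2
  obtain ⟨x, hx, hl⟩ := mem_closure_iff_seq_limit.1 h
  choose φ hφ hp using hx
  refine ⟨φ, fun n => ⟨x n, (testPairs N).le_topologicalClosure ⟨φ n, hφ n, hp n⟩⟩, hφ, hp, ?_⟩
  exact tendsto_subtype_rng.2 hl

/-- the coordinate maps -/
def fstL : H1 N →L[ℝ] Lp ℝ 2 (volume : Measure (E N)) :=
  (WithLp.fstL 2 ℝ _ _).comp (H1 N).subtypeL

def sndL : H1 N →L[ℝ] Lp (E N) 2 (volume : Measure (E N)) :=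
  (WithLp.sndL 2 ℝ _ _).comp (H1 N).subtypeL

lemma fn_eq (w : H1 N) : fn w = (fstL w : E N → ℝ) := rfl

lemma gr_eq (w : H1 N) : gr w = (sndL w : E N → E N) := rfl

lemma memLp_fn (w : H1 N) : MemLp (fn w) 2 volume := Lp.memLp _

lemma memLp_gr (w : H1 N) : MemLp (gr w) 2 volume := Lp.memLp _

lemma aesm_fn (w : H1 N) : AEStronglyMeasurable (fn w) volume := (memLp_fn w).1

lemma aesm_gr (w : H1 N) : AEStronglyMeasurable (gr w) volume := (memLp_gr w).1

lemma fn_add (u v : H1 N) : fn (u + v) =ᵐ[volume] fun x => fn u x + fn v x := by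
  rw [fn_eq, map_add]
  exact Lp.coeFn_add _ _

lemma gr_add (u v : H1 N) : gr (u + v) =ᵐ[volume] fun x => gr u x + gr v x := by
  rw [gr_eq, map_add]
  exact Lp.coeFn_add _ _

lemma fn_sub (u v : H1 N) : fn (u - v) =ᵐ[volume] fun x => fn u x - fn v x := by
  rw [fn_eq, map_sub]
  exact Lp.coeFn_sub _ _

lemma gr_sub (u v : H1 N) : gr (u - v) =ᵐ[volume] fun x => gr u x - gr v x := by
  rw [gr_eq, map_sub]
  exact Lp.coeFn_sub _ _

lemma fn_smul (c : ℝ) (u : H1 N) : fn (c • u) =ᵐ[volume] fun x => c * fn u x := by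
  rw [fn_eq, map_smul]
  exact Lp.coeFn_smul _ _

lemma gr_smul (c : ℝ) (u : H1 N) : gr (c • u) =ᵐ[volume] fun x => c • gr u x := by
  rw [gr_eq, map_smul]
  exact Lp.coeFn_smul _ _

lemma fn_zero : fn (0 : H1 N) =ᵐ[volume] fun _ => 0 := by
  rw [fn_eq, map_zero]
  exact Lp.coeFn_zero _ _ _

lemma inner_H1 (u v : H1 N) : ⟪u, v⟫_ℝ = ⟪fstL u, fstL v⟫_ℝ + ⟪sndL u, sndL v⟫_ℝ := rfl

lemma inner_fst (u v : H1 N) : ⟪fstL u, fstL v⟫_ℝ = ∫ x, fn u x * fn v x := by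
  rw [L2.inner_def]
  refine integral_congr_ae (Eventually.of_forall fun x => ?_)
  exact Real.inner_apply _ _

lemma inner_snd (u v : H1 N) : ⟪sndL u, sndL v⟫_ℝ = ∫ x, ⟪gr u x, gr v x⟫_ℝ := by
  rw [L2.inner_def]
  rfl

lemma norm_sq_fst (u : H1 N) : ‖fstL u‖ ^ 2 = ∫ x, fn u x ^ 2 := by
  rw [← real_inner_self_eq_norm_sq, inner_fst]
  simp [pow_two]

lemma norm_sq_snd (u : H1 N) : ‖sndL u‖ ^ 2 = ∫ x, ‖gr u x‖ ^ 2 := by
  rw [← real_inner_self_eq_norm_sq, inner_snd]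
  simp

lemma norm_sq_H1 (u : H1 N) : ‖u‖ ^ 2 = ‖fstL u‖ ^ 2 + ‖sndL u‖ ^ 2 := by
  rw [← real_inner_self_eq_norm_sq, inner_H1, real_inner_self_eq_norm_sq,
    real_inner_self_eq_norm_sq]

lemma norm_fst_le (u : H1 N) : ‖fstL u‖ ≤ ‖u‖ := by
  have := norm_sq_H1 u
  apply le_of_sq_le_sq _ (norm_nonneg _)
  nlinarith [sq_nonneg ‖sndL u‖]

lemma norm_snd_le (u : H1 N) : ‖sndL u‖ ≤ ‖u‖ := by
  have := norm_sq_H1 u
  apply le_of_sq_le_sq _ (norm_nonneg _)
  nlinarith [sq_nonneg ‖fstL u‖]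

lemma integrable_sq_fn (u : H1 N) : Integrable (fun x => fn u x ^ 2) :=
  (memLp_fn u).integrable_sq

lemma integrable_sq_gr (u : H1 N) : Integrable (fun x => ‖gr u x‖ ^ 2) :=
  (memLp_gr u).integrable_norm_pow (by norm_num)

lemma integrable_fn_mul (u v : H1 N) : Integrable (fun x => fn u x * fn v x) :=
  (memLp_fn u).integrable_mul (memLp_fn v)

lemma eLpNorm_fn (u : H1 N) : eLpNorm (fn u) 2 volume = ENNReal.ofReal ‖fstL u‖ := by
  rw [Lp.norm_def, ENNReal.ofReal_toReal (Lp.eLpNorm_ne_top _)]; rfl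

lemma eLpNorm_gr (u : H1 N) : eLpNorm (gr u) 2 volume = ENNReal.ofReal ‖sndL u‖ := by
  rw [Lp.norm_def, ENNReal.ofReal_toReal (Lp.eLpNorm_ne_top _)]; rfl

lemma exists_ae_subseq {ws : ℕ → H1 N} {w : H1 N} (h : Tendsto ws atTop (𝓝 w)) :
    ∃ ns : ℕ → ℕ, StrictMono ns ∧
      ∀ᵐ x, Tendsto (fun k => fn (ws (ns k)) x) atTop (𝓝 (fn w x)) := by
  have h1 : Tendsto (fun n => fstL (ws n)) atTop (𝓝 (fstL w)) := (fstL.continuous.tendsto w).comp h
  exact (tendstoInMeasure_of_tendsto_Lp h1).exists_seq_tendsto_ae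

end Pool.Agent.GroundState
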