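import Pool.Agent.helper35.GS.Avg
import Pool.Agent.helper35.GS.BL

set_option autoImplicit false

open MeasureTheory Filter Topology
open scoped ENNReal NNReal ContDiff Gradient InnerProductSpace

noncomputable section

namespace Pool.Agent.GroundState

variable {N : ℕ}

/-- weak convergence in `H¹`. -/
def WT (ws : ℕ → H1 N) (w : H1 N) : Prop :=
  ∀ z : H1 N, Tendsto (fun n => ⟪ws n, z⟫_ℝ) atTop (𝓝 ⟪w, z⟫_ℝ)

lemma weak_compact_gen {H : Type*} [NormedAddCommGroup H] [InnerProductSpace ℝ H]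
    [CompleteSpace H] [SecondCountableTopology H] {ws : ℕ → H} {M : ℝ} (hM : ∀ n, ‖ws n‖ ≤ M) :
    ∃ (w : H) (ns : ℕ → ℕ), StrictMono ns ∧
      ∀ z, Tendsto (fun k => ⟪ws (ns k), z⟫_ℝ) atTop (𝓝 ⟪w, z⟫_ℝ) := by
  let φ : ℕ → WeakDual ℝ H := fun n =>
    StrongDual.toWeakDual (InnerProductSpace.toDual ℝ H (ws n))
  have hφ : ∀ n, φ n ∈ WeakDual.toStrongDual ⁻¹' Metric.closedBall (0 : StrongDual ℝ H) M := by
    intro n
    simp only [φ, Set.mem_preimage]
    have : WeakDual.toStrongDual (StrongDual.toWeakDual (InnerProductSpace.toDual ℝ H (ws n)))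
        = InnerProductSpace.toDual ℝ H (ws n) := rfl
    rw [this]
    have h1 : ‖InnerProductSpace.toDual ℝ H (ws n)‖ ≤ M := by
      rw [LinearIsometryEquiv.norm_map]
      exact hM n
    exact mem_closedBall_zero_iff.2 h1
  obtain ⟨ψ, -, ns, hns, hl⟩ := WeakDual.isSeqCompact_closedBall ℝ H 0 M hφ
  refine ⟨(InnerProductSpace.toDual ℝ H).symm (WeakDual.toStrongDual ψ), ns, hns, fun z => ?_⟩
  have h1 := ((WeakDual.eval_continuous (𝕜 := ℝ) (E := H) z).tendsto ψ).comp hl
  have e1 : ⟪(InnerProductSpace.toDual ℝ H).symm (WeakDual.toStrongDual ψ), z⟫_ℝ = ψ z := by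
    rw [InnerProductSpace.toDual_symm_apply]
    rfl
  rw [e1]
  exact h1

lemma weak_compact {ws : ℕ → H1 N} {M : ℝ} (hM : ∀ n, ‖ws n‖ ≤ M) :
    ∃ (w : H1 N) (ns : ℕ → ℕ), StrictMono ns ∧ WT (fun k => ws (ns k)) w :=
  weak_compact_gen hM

lemma WT.subseq {ws : ℕ → H1 N} {w : H1 N} (h : WT ws w) {ns : ℕ → ℕ} (hns : StrictMono ns) :
    WT (fun k => ws (ns k)) w := fun z => (h z).comp hns.tendsto_atTop

lemma WT.tendsto_av {ws : ℕ → H1 N} {w : H1 N} (h : WT ws w) {ε : ℝ} (hε : 0 < ε) (x : E N) :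
    Tendsto (fun n => av ε (fn (ws n)) x) atTop (𝓝 (av ε (fn w) x)) := by
  have key : ∀ u : H1 N, av ε (fn u) x
      = ⟪u, (InnerProductSpace.toDual ℝ (H1 N)).symm (avL hε x)⟫_ℝ := by
    intro u
    rw [real_inner_comm, InnerProductSpace.toDual_symm_apply, avL_apply]
  simp only [key]
  exact h _

/-- the weight. -/
def wt (N : ℕ) : E N → ℝ≥0∞ := fun x => ENNReal.ofReal ((1 + ‖x‖) ^ (-((N : ℝ) + 1)))

/-- a finite measure with the same null sets as Lebesgue measure. -/
def fin (N : ℕ) : Measure (E N) := volume.withDensity (wt N)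

lemma wt_meas : Measurable (wt N) := by
  unfold wt
  fun_prop

lemma wt_le (x : E N) : wt N x ≤ 1 := by
  unfold wt
  rw [← ENNReal.ofReal_one]
  apply ENNReal.ofReal_le_ofReal
  apply Real.rpow_le_one_of_one_le_of_nonpos
  · have := norm_nonneg x; linarith
  · have : (0 : ℝ) ≤ N := by positivity
    linarith

lemma wt_pos (x : E N) : wt N x ≠ 0 := by
  unfold wt
  have : 0 < (1 + ‖x‖) ^ (-((N : ℝ) + 1)) := Real.rpow_pos_of_pos (by positivity) _
  simpa using this

instance : IsFiniteMeasure (fin N) := by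
  constructor
  unfold fin
  rw [withDensity_apply _ MeasurableSet.univ, Measure.restrict_univ]
  have h : (Module.finrank ℝ (E N) : ℝ) < (N : ℝ) + 1 := by simp
  exact finite_integral_one_add_norm (μ := (volume : Measure (E N))) h

lemma fin_le : (fin N) ≤ volume := by
  unfold fin
  calc volume.withDensity (wt N) ≤ volume.withDensity (fun _ => 1) :=
        withDensity_mono (Eventually.of_forall wt_le)
    _ = volume := by simp

lemma vol_ac : (volume : Measure (E N)) ≪ fin N :=
  withDensity_absolutelyContinuous' wt_meas.aemeasurable (Eventually.of_forall wt_pos)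

lemma exists_ae_subseq_weak {ws : ℕ → H1 N} {w : H1 N} (h : WT ws w) {M : ℝ}
    (hM : ∀ n, ‖ws n‖ ≤ M) :
    ∃ ns : ℕ → ℕ, StrictMono ns ∧
      ∀ᵐ x, Tendsto (fun k => fn (ws (ns k)) x) atTop (𝓝 (fn w x)) := by
  set d : ℕ → H1 N := fun n => ws n - w with hd
  have hdM : ∀ n, ‖d n‖ ≤ M + ‖w‖ := fun n => (norm_sub_le _ _).trans (by linarith [hM n])
  have hM0 : 0 ≤ M + ‖w‖ := (norm_nonneg _).trans (hdM 0)
  have hdw : WT d 0 := by
    intro z
    have := (h z).sub_const ⟪w, z⟫_ℝ
    simp only [sub_self] at this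
    simpa [hd, inner_sub_left] using this
  have key : Tendsto (fun n => eLpNorm (fn (d n)) 2 (fin N)) atTop (𝓝 0) := by
    rw [ENNReal.tendsto_nhds_zero]
    intro δ hδ
    rcases eq_or_ne δ ⊤ with rfl | hδt
    · simp
    have hδr : 0 < δ.toReal := ENNReal.toReal_pos hδ.ne' hδt
    set ε : ℝ := δ.toReal / (2 * (M + ‖w‖ + 1)) with hε
    have hε0 : 0 < ε := by rw [hε]; positivity
    -- first part
    have p1 : Tendsto (fun n => ∫⁻ x, ‖av ε (fn (d n)) x‖ₑ ^ (2 : ℝ) ∂(fin N)) atTop (𝓝 0) := by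
      have := tendsto_lintegral_of_dominated_convergence (μ := fin N)
        (F := fun n x => ‖av ε (fn (d n)) x‖ₑ ^ (2 : ℝ)) (f := fun _ => 0)
        (fun _ => ENNReal.ofReal (avK N ε * (M + ‖w‖)) ^ (2 : ℝ))
        (fun n => ((av_measurable (sm_fn _)).enorm.pow_const _))
        (fun n => Eventually.of_forall fun x => by
          apply ENNReal.rpow_le_rpow _ (by norm_num)
          rw [← ofReal_norm, Real.norm_eq_abs]
          apply ENNReal.ofReal_le_ofReal
          refine (abs_av_le hε0 _ x).trans ?_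
          have h0 : 0 ≤ avK N ε := by unfold avK; positivity
          exact mul_le_mul_of_nonneg_left ((norm_fst_le _).trans (hdM n)) h0)
        (by
          rw [lintegral_const]
          exact ENNReal.mul_ne_top (ENNReal.rpow_ne_top_of_nonneg (by norm_num)
            ENNReal.ofReal_ne_top) (measure_ne_top _ _))
        (Eventually.of_forall fun x => by
          have h1 := (hdw.tendsto_av hε0 x).enorm
          have h2 : av ε (fn (0 : H1 N)) x = 0 := by
            have := (avL hε0 x).map_zero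
            rwa [avL_apply] at this
          rw [h2, enorm_zero] at h1
          have h3 : Tendsto (fun n => ‖av ε (fn (d n)) x‖ₑ ^ (2 : ℝ)) atTop (𝓝 (0 ^ (2 : ℝ))) :=
            ((ENNReal.continuous_rpow_const (y := (2 : ℝ))).tendsto 0).comp h1
          rwa [ENNReal.zero_rpow_of_pos (by norm_num)] at h3)
      simpa using this
    have p1' : ∀ᶠ n in atTop, eLpNorm (av ε (fn (d n))) 2 (fin N) ≤ δ / 2 := by
      have hpos : 0 < (δ / 2) ^ (2 : ℝ) := by
        apply ENNReal.rpow_pos (ENNReal.half_pos hδ.ne')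
        exact (ENNReal.div_lt_top hδt (by norm_num)).ne
      filter_upwards [(ENNReal.tendsto_nhds_zero.1 p1) _ hpos] with n hn
      rw [eLpNorm_eq_lintegral_rpow_enorm_toReal (by norm_num) (by norm_num)]
      have h2 : ((2 : ℝ≥0∞).toReal) = 2 := by norm_num
      rw [h2]
      calc (∫⁻ x, ‖av ε (fn (d n)) x‖ₑ ^ (2 : ℝ) ∂(fin N)) ^ (1 / (2 : ℝ))
          ≤ ((δ / 2) ^ (2 : ℝ)) ^ (1 / (2 : ℝ)) := ENNReal.rpow_le_rpow hn (by norm_num)
        _ = δ / 2 := by rw [← ENNReal.rpow_mul]; norm_num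
    have p2 : ∀ n, eLpNorm (fun x => av ε (fn (d n)) x - fn (d n) x) 2 (fin N) ≤ δ / 2 := by
      intro n
      refine (eLpNorm_mono_measure _ fin_le).trans ?_
      rw [eLpNorm_eq_lintegral_rpow_enorm_toReal (by norm_num) (by norm_num)]
      have h2 : ((2 : ℝ≥0∞).toReal) = 2 := by norm_num
      rw [h2]
      have h3 := lintegral_av_sub_le hε0 (d n)
      have h4 : ε * ‖sndL (d n)‖ ≤ δ.toReal / 2 := by
        have h5 := (norm_snd_le (d n)).trans (hdM n)
        rw [hε, div_mul_eq_mul_div, div_le_div_iff₀ (by positivity) (by norm_num)]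
        nlinarith
      calc (∫⁻ x, ‖av ε (fn (d n)) x - fn (d n) x‖ₑ ^ (2 : ℝ)) ^ (1 / (2 : ℝ))
          ≤ (ENNReal.ofReal ((ε * ‖sndL (d n)‖) ^ 2)) ^ (1 / (2 : ℝ)) :=
            ENNReal.rpow_le_rpow h3 (by norm_num)
        _ ≤ (ENNReal.ofReal ((δ.toReal / 2) ^ 2)) ^ (1 / (2 : ℝ)) := by
            apply ENNReal.rpow_le_rpow _ (by norm_num)
            apply ENNReal.ofReal_le_ofReal
            exact pow_le_pow_left₀ (by positivity) h4 2
        _ = δ / 2 := by
            rw [ENNReal.ofReal_rpow_of_nonneg (by positivity) (by norm_num), ← Real.sqrt_eq_rpow,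
              Real.sqrt_sq (by positivity), ENNReal.ofReal_div_of_pos (by norm_num),
              ENNReal.ofReal_toReal hδt]
            norm_num
    filter_upwards [p1'] with n hn
    have e : fn (d n) = (av ε (fn (d n))) - (fun x => av ε (fn (d n)) x - fn (d n) x) := by
      funext x; simp
    calc eLpNorm (fn (d n)) 2 (fin N)
        = eLpNorm ((av ε (fn (d n))) - (fun x => av ε (fn (d n)) x - fn (d n) x)) 2 (fin N) := by
          rw [← e]
      _ ≤ eLpNorm (av ε (fn (d n))) 2 (fin N)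
          + eLpNorm (fun x => av ε (fn (d n)) x - fn (d n) x) 2 (fin N) :=
          eLpNorm_sub_le (av_measurable (sm_fn _)).aestronglyMeasurable
            ((av_measurable (sm_fn _)).sub (sm_fn _)).aestronglyMeasurable (by norm_num)
      _ ≤ δ / 2 + δ / 2 := add_le_add hn (p2 n)
      _ = δ := ENNReal.add_halves δ
  have hm : TendstoInMeasure (fin N) (fun n => fn (d n)) atTop (fun _ => (0 : ℝ)) := by
    apply tendstoInMeasure_of_tendsto_eLpNorm (p := 2) (by norm_num)
      (fun n => (sm_fn _).aestronglyMeasurable) aestronglyMeasurable_const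
    refine key.congr fun n => ?_
    congr 1
    funext x
    simp
  obtain ⟨ns, hns, hae⟩ := hm.exists_seq_tendsto_ae
  refine ⟨ns, hns, ?_⟩
  have hae' := vol_ac.ae_le hae
  have hs : ∀ᵐ x, ∀ k, fn (d (ns k)) x = fn (ws (ns k)) x - fn w x :=
    ae_all_iff.2 fun k => fn_sub _ _
  filter_upwards [hae', hs] with x h1 h2
  have h3 := h1.add_const (fn w x)
  rw [zero_add] at h3
  refine h3.congr fun k => ?_
  rw [h2 k]; ring

/-- Brezis–Lieb splitting of `∫|u|^q` along weakly convergent sequences that converge a.e. -/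
lemma bl_pw (hN : 3 ≤ N) {q : ℝ} (h2 : 2 ≤ q) (hs : q ≤ crit N) {ws : ℕ → H1 N} {w : H1 N}
    {M : ℝ} (hM : ∀ n, ‖ws n‖ ≤ M)
    (hae : ∀ᵐ x, Tendsto (fun n => fn (ws n) x) atTop (𝓝 (fn w x))) :
    Tendsto (fun n => pw q (ws n) - pw q (ws n - w)) atTop (𝓝 (pw q w)) := by
  have h := brezis_lieb (μ := (volume : Measure (E N))) (q := q) (by linarith)
    (f := fun n => fn (ws n)) (g := fn w)
    (fun n => aesm_fn _) (aesm_fn _) (fun n => integrable_pw hN h2 hs _) (integrable_pw hN h2 hs _)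
    (M := sobM N ^ q * M ^ q) (fun n => by
      refine (pw_le hN h2 hs (ws n)).trans ?_
      have : ‖ws n‖ ^ q ≤ M ^ q := Real.rpow_le_rpow (norm_nonneg _) (hM n) (by linarith)
      exact mul_le_mul_of_nonneg_left this (Real.rpow_nonneg sobM_pos.le _)) hae
  refine h.congr fun n => ?_
  unfold pw
  congr 1
  refine integral_congr_ae ?_
  filter_upwards [fn_sub (ws n) w] with x hx
  rw [hx]

end Pool.Agent.GroundState
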