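import Pool.Agent.helper35.GS.Thresh

set_option autoImplicit false

open MeasureTheory Filter Topology
open scoped ENNReal NNReal ContDiff Gradient InnerProductSpace

noncomputable section

namespace Pool.Agent.GroundState

variable {N : ℕ}

/-! ### differentiability of `∫|u|^q` along lines -/

lemma fn_line (u φ : H1 N) (s : ℝ) :
    fn (u + s • φ) =ᵐ[volume] fun x => fn u x + s * fn φ x := by
  filter_upwards [fn_add u (s • φ), fn_smul s φ] with x h1 h2
  rw [h1, h2]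

lemma deriv_bound {q a b s : ℝ} (hq : 2 < q) (hs : |s| ≤ 1) :
    |q * |a + s * b| ^ (q - 2) * (a + s * b) * b| ≤ q * (2 ^ q * (|a| ^ q + |b| ^ q)) := by
  have hq0 : 0 < q := by linarith
  set c := |a| + |b| with hc
  have hc0 : 0 ≤ c := by positivity
  have h1 : |a + s * b| ≤ c := by
    refine (abs_add_le _ _).trans ?_
    rw [abs_mul]
    have := mul_le_mul_of_nonneg_right hs (abs_nonneg b)
    linarith
  have hb : |b| ≤ c := by rw [hc]; linarith [abs_nonneg a]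
  have h2 : |q * |a + s * b| ^ (q - 2) * (a + s * b) * b| ≤ q * c ^ q := by
    rw [abs_mul, abs_mul, abs_mul, abs_of_pos hq0,
      abs_of_nonneg (Real.rpow_nonneg (abs_nonneg (a + s * b)) (q - 2))]
    have h3 : |a + s * b| ^ (q - 2) ≤ c ^ (q - 2) :=
      Real.rpow_le_rpow (abs_nonneg _) h1 (by linarith)
    have h4 : |a + s * b| ^ (q - 2) * |a + s * b| ≤ c ^ (q - 2) * c :=
      mul_le_mul h3 h1 (abs_nonneg _) (Real.rpow_nonneg hc0 _)
    have h5 : |a + s * b| ^ (q - 2) * |a + s * b| * |b| ≤ c ^ (q - 2) * c * c :=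
      mul_le_mul h4 hb (abs_nonneg _) (mul_nonneg (Real.rpow_nonneg hc0 _) hc0)
    have h6 : c ^ (q - 2) * c * c = c ^ q := by
      rcases hc0.eq_or_lt with h | h
      · rw [← h, Real.zero_rpow hq0.ne']; ring
      · have : c ^ q = c ^ (q - 2) * c ^ (2 : ℝ) := by
          rw [← Real.rpow_add h]; congr 1; ring
        rw [this, Real.rpow_two]; ring
    rw [h6] at h5
    calc q * |a + s * b| ^ (q - 2) * |a + s * b| * |b|
        = q * (|a + s * b| ^ (q - 2) * |a + s * b| * |b|) := by ring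
      _ ≤ q * c ^ q := mul_le_mul_of_nonneg_left h5 hq0.le
  have h7 : c ^ q ≤ 2 ^ q * (|a| ^ q + |b| ^ q) := by
    have := abs_sub_rpow_le (q := q) (by linarith) |a| (-|b|)
    rw [sub_neg_eq_add, ← hc, abs_of_nonneg hc0, abs_abs, abs_neg, abs_abs] at this
    exact this
  exact h2.trans (mul_le_mul_of_nonneg_left h7 hq0.le)

lemma hasDerivAt_pw (hN : 3 ≤ N) {q : ℝ} (hq : 2 < q) (hs : q ≤ crit N) (u φ : H1 N) :
    HasDerivAt (fun s : ℝ => pw q (u + s • φ))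
      (q * ∫ x, |fn u x| ^ (q - 2) * fn u x * fn φ x) 0 := by
  have e : (fun s : ℝ => pw q (u + s • φ)) = fun s => ∫ x, |fn u x + s * fn φ x| ^ q := by
    funext s
    unfold pw
    refine integral_congr_ae ?_
    filter_upwards [fn_line u φ s] with x hx
    rw [hx]
  rw [e]
  have hm : ∀ s : ℝ, AEStronglyMeasurable (fun x => fn u x + s * fn φ x) volume := fun s =>
    (aesm_fn u).add ((aesm_fn φ).const_mul s)
  have hF : ∀ s : ℝ, AEStronglyMeasurable (fun x => |fn u x + s * fn φ x| ^ q) volume := fun s =>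
    ((hm s).norm.aemeasurable.pow_const q).aestronglyMeasurable
  have key := hasDerivAt_integral_of_dominated_loc_of_deriv_le (𝕜 := ℝ) (x₀ := (0 : ℝ))
    (s := Metric.ball (0 : ℝ) 1) (μ := (volume : Measure (E N)))
    (F := fun s x => |fn u x + s * fn φ x| ^ q)
    (F' := fun s x => q * |fn u x + s * fn φ x| ^ (q - 2) * (fn u x + s * fn φ x) * fn φ x)
    (bound := fun x => q * (2 ^ q * (|fn u x| ^ q + |fn φ x| ^ q)))
    (Metric.ball_mem_nhds _ one_pos)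
    (Eventually.of_forall fun s => hF s)
    (by simpa using integrable_pw hN hq.le hs u)
    (by
      have h1 := ((hm 0).norm.aemeasurable.pow_const (q - 2)).aestronglyMeasurable
      have h2 : AEStronglyMeasurable (fun x => |fn u x + 0 * fn φ x| ^ (q - 2)) volume := h1
      exact ((h2.const_mul q).mul (hm 0)).mul (aesm_fn φ))
    (Eventually.of_forall fun x s hs' => by
      rw [Real.norm_eq_abs]
      apply deriv_bound hq
      have : |s| < 1 := by simpa [Real.dist_eq] using hs'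
      exact this.le)
    ((((integrable_pw hN hq.le hs u).add (integrable_pw hN hq.le hs φ)).const_mul _).const_mul _)
    (Eventually.of_forall fun x s _ => by
      have h1 := hasDerivAt_abs_rpow (fn u x + s * fn φ x) (p := q) (by linarith)
      have h2 : HasDerivAt (fun s : ℝ => fn u x + s * fn φ x) (fn φ x) s := by
        simpa using ((hasDerivAt_id s).mul_const (fn φ x)).const_add (fn u x)
      exact h1.comp s h2)
  have h := key.2
  have e2 : (∫ x, q * |fn u x + 0 * fn φ x| ^ (q - 2) * (fn u x + 0 * fn φ x) * fn φ x)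
      = q * ∫ x, |fn u x| ^ (q - 2) * fn u x * fn φ x := by
    rw [← integral_const_mul]
    congr 1
    funext x
    rw [zero_mul, add_zero]; ring
  rw [e2] at h
  exact h

/-! ### the derivative of the quadratic form -/

lemma hasDerivAt_normsq {F : Type*} [NormedAddCommGroup F] [InnerProductSpace ℝ F] (a b : F) :
    HasDerivAt (fun s : ℝ => ‖a + s • b‖ ^ 2) (2 * ⟪a, b⟫_ℝ) 0 := by
  have e : (fun s : ℝ => ‖a + s • b‖ ^ 2)
      = fun s => ‖a‖ ^ 2 + s * (2 * ⟪a, b⟫_ℝ) + s ^ 2 * ‖b‖ ^ 2 := by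
    funext s
    rw [norm_add_sq_real, real_inner_smul_right, norm_smul, mul_pow, Real.norm_eq_abs, sq_abs]
    ring
  rw [e]
  have h1 : HasDerivAt (fun s : ℝ => s * (2 * ⟪a, b⟫_ℝ)) (2 * ⟪a, b⟫_ℝ) 0 := by
    simpa using (hasDerivAt_id (0 : ℝ)).mul_const (2 * ⟪a, b⟫_ℝ)
  have h2 : HasDerivAt (fun s : ℝ => s ^ 2 * ‖b‖ ^ 2) 0 0 := by
    simpa using (hasDerivAt_pow 2 (0 : ℝ)).mul_const (‖b‖ ^ 2)
  have h := (h1.const_add (‖a‖ ^ 2)).add h2
  rw [add_zero] at h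
  exact h

lemma hasDerivAt_innerLine {F : Type*} [NormedAddCommGroup F] [InnerProductSpace ℝ F]
    (a b c d : F) :
    HasDerivAt (fun s : ℝ => ⟪a + s • b, c + s • d⟫_ℝ) (⟪a, d⟫_ℝ + ⟪b, c⟫_ℝ) 0 := by
  have e : (fun s : ℝ => ⟪a + s • b, c + s • d⟫_ℝ)
      = fun s => ⟪a, c⟫_ℝ + s * (⟪a, d⟫_ℝ + ⟪b, c⟫_ℝ) + s ^ 2 * ⟪b, d⟫_ℝ := by
    funext s
    rw [inner_add_left, inner_add_right, inner_add_right, real_inner_smul_left,
      real_inner_smul_right, real_inner_smul_right, real_inner_smul_left]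
    ring
  rw [e]
  have h1 : HasDerivAt (fun s : ℝ => s * (⟪a, d⟫_ℝ + ⟪b, c⟫_ℝ)) (⟪a, d⟫_ℝ + ⟪b, c⟫_ℝ) 0 := by
    simpa using (hasDerivAt_id (0 : ℝ)).mul_const (⟪a, d⟫_ℝ + ⟪b, c⟫_ℝ)
  have h2 : HasDerivAt (fun s : ℝ => s ^ 2 * ⟪b, d⟫_ℝ) 0 0 := by
    simpa using (hasDerivAt_pow 2 (0 : ℝ)).mul_const ⟪b, d⟫_ℝ
  have h := (h1.const_add ⟪a, c⟫_ℝ).add h2
  rw [add_zero] at h
  exact h

/-- the derivative of the quadratic part. -/
def dQ (μ ν lam : ℝ) (u v φ ψ : H1 N) : ℝ :=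
  ⟪sndL u, sndL φ⟫_ℝ + μ * ⟪fstL u, fstL φ⟫_ℝ + (⟪sndL v, sndL ψ⟫_ℝ + ν * ⟪fstL v, fstL ψ⟫_ℝ)
    - lam * (⟪fstL u, fstL ψ⟫_ℝ + ⟪fstL φ, fstL v⟫_ℝ)

lemma hasDerivAt_Qf (μ ν lam : ℝ) (u v φ ψ : H1 N) :
    HasDerivAt (fun s : ℝ => Qf μ ν lam (u + s • φ) (v + s • ψ)) (2 * dQ μ ν lam u v φ ψ) 0 := by
  unfold Qf dQ
  simp only [map_add, map_smul]
  have h1 := hasDerivAt_normsq (sndL u) (sndL φ)
  have h2 := (hasDerivAt_normsq (fstL u) (fstL φ)).const_mul μ
  have h3 := hasDerivAt_normsq (sndL v) (sndL ψ)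
  have h4 := (hasDerivAt_normsq (fstL v) (fstL ψ)).const_mul ν
  have h5 := (hasDerivAt_innerLine (fstL u) (fstL φ) (fstL v) (fstL ψ)).const_mul (2 * lam)
  have h := ((h1.add h2).add (h3.add h4)).sub h5
  have e : 2 * (⟪sndL u, sndL φ⟫_ℝ + μ * ⟪fstL u, fstL φ⟫_ℝ
      + (⟪sndL v, sndL ψ⟫_ℝ + ν * ⟪fstL v, fstL ψ⟫_ℝ)
      - lam * (⟪fstL u, fstL ψ⟫_ℝ + ⟪fstL φ, fstL v⟫_ℝ))
      = 2 * ⟪sndL u, sndL φ⟫_ℝ + μ * (2 * ⟪fstL u, fstL φ⟫_ℝ)
        + (2 * ⟪sndL v, sndL ψ⟫_ℝ + ν * (2 * ⟪fstL v, fstL ψ⟫_ℝ))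
        - 2 * lam * (⟪fstL u, fstL ψ⟫_ℝ + ⟪fstL φ, fstL v⟫_ℝ) := by ring
  rw [e]
  exact h

lemma denergy_eq {p : ℝ} (μ ν lam : ℝ) (u v φ ψ : H1 N) :
    denergy p μ ν lam u v φ ψ = dQ μ ν lam u v φ ψ
      - (∫ x, |fn u x| ^ (p + 1 - 2) * fn u x * fn φ x)
      - (∫ x, |fn v x| ^ (crit N - 2) * fn v x * fn ψ x) := by
  unfold denergy dQ
  rw [integral_add (integrable_inner_gr u φ) ((integrable_fn_mul u φ).const_mul μ),
    integral_add (integrable_inner_gr v ψ) ((integrable_fn_mul v ψ).const_mul ν),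
    integral_add (integrable_fn_mul u ψ) (integrable_fn_mul v φ),
    integral_const_mul, integral_const_mul, ← inner_fst, ← inner_fst, ← inner_fst, ← inner_fst,
    ← inner_snd, ← inner_snd, real_inner_comm (fstL φ) (fstL v), show p + 1 - 2 = p - 1 by ring]
  ring

lemma denergy_neg {p : ℝ} (μ ν lam : ℝ) (u v φ ψ : H1 N) :
    denergy p μ ν lam u v (-φ) (-ψ) = - denergy p μ ν lam u v φ ψ := by
  rw [denergy_eq, denergy_eq]
  have hn : ∀ w : H1 N, fn (-w) =ᵐ[volume] fun x => - fn w x := by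
    intro w
    have h := fn_smul (-1) w
    rw [neg_one_smul] at h
    filter_upwards [h] with x hx
    rw [hx]; ring
  have e1 : (∫ x, |fn u x| ^ (p + 1 - 2) * fn u x * fn (-φ) x)
      = - ∫ x, |fn u x| ^ (p + 1 - 2) * fn u x * fn φ x := by
    rw [← integral_neg]
    refine integral_congr_ae ?_
    filter_upwards [hn φ] with x hx
    rw [hx]; ring
  have e2 : (∫ x, |fn v x| ^ (crit N - 2) * fn v x * fn (-ψ) x)
      = - ∫ x, |fn v x| ^ (crit N - 2) * fn v x * fn ψ x := by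
    rw [← integral_neg]
    refine integral_congr_ae ?_
    filter_upwards [hn ψ] with x hx
    rw [hx]; ring
  rw [e1, e2]
  unfold dQ
  simp only [map_neg, inner_neg_right, inner_neg_left]
  ring

lemma mem_nehari_smul (hN : 3 ≤ N) {p : ℝ} (hp1 : 1 < p) (hp2 : p + 1 < crit N) {μ ν lam : ℝ}
    {u v : H1 N} (h0 : (u, v) ≠ 0) {t : ℝ} (ht : 0 < t)
    (hroot : Qf μ ν lam u v = t ^ (p + 1 - 2) * pw (p + 1) u + t ^ (crit N - 2) * pw (crit N) v) :
    (t • u, t • v) ∈ nehari N p μ ν lam := by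
  have hc := crit_gt hN
  rw [mem_nehari_iff hN hp1]
  refine ⟨smul_pair_ne h0 ht, ?_⟩
  rw [Qf_smul, pw_smul hN (by linarith) hp2.le, pw_smul hN hc.le le_rfl, abs_of_pos ht, hroot,
    mul_add, ← mul_assoc, ← mul_assoc]
  have e1 : t ^ 2 * t ^ (p + 1 - 2) = t ^ (p + 1) := by
    rw [← Real.rpow_two, ← Real.rpow_add ht]; congr 1; ring
  have e2 : t ^ 2 * t ^ (crit N - 2) = t ^ crit N := by
    rw [← Real.rpow_two, ← Real.rpow_add ht]; congr 1; ring
  rw [e1, e2]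

/-- a minimizer of the energy on the Nehari manifold: one-sided inequality. -/
lemma denergy_nonneg (hN : 3 ≤ N) {p : ℝ} (hp1 : 1 < p) (hp2 : p + 1 < crit N) {μ ν lam : ℝ}
    (hμ : 0 < μ) (hν : 0 < ν) (hl : |lam| < √(μ * ν)) {u v : H1 N}
    (hmem : (u, v) ∈ nehari N p μ ν lam) (hmin : Kf p u v = mlevel N p μ ν lam) (φ ψ : H1 N) :
    0 ≤ denergy p μ ν lam u v φ ψ := by
  by_contra hcon
  push Not at hcon
  have hc := crit_gt hN
  have hq : 2 < p + 1 := by linarith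
  set q := p + 1 with hqd
  set r := crit N with hr
  have hq0 : 0 < q := by linarith
  have hr0 : 0 < r := by linarith
  have hmem' := (mem_nehari_iff hN hp1 μ ν lam u v).1 hmem
  set X : ℝ → ℝ := fun s => Qf μ ν lam (u + s • φ) (v + s • ψ) with hX
  set Y : ℝ → ℝ := fun s => pw q (u + s • φ) with hY
  set Z : ℝ → ℝ := fun s => pw r (v + s • ψ) with hZ
  set I1 := ∫ x, |fn u x| ^ (q - 2) * fn u x * fn φ x with hI1
  set I2 := ∫ x, |fn v x| ^ (r - 2) * fn v x * fn ψ x with hI2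
  have dX : HasDerivAt X (2 * dQ μ ν lam u v φ ψ) 0 := hasDerivAt_Qf μ ν lam u v φ ψ
  have dY : HasDerivAt Y (q * I1) 0 := hasDerivAt_pw hN hq hp2.le u φ
  have dZ : HasDerivAt Z (r * I2) 0 := hasDerivAt_pw hN hc le_rfl v ψ
  have X0 : X 0 = Qf μ ν lam u v := by simp [hX]
  have Y0 : Y 0 = pw q u := by simp [hY]
  have Z0 : Z 0 = pw r v := by simp [hZ]
  have hXYZ : X 0 = Y 0 + Z 0 := by rw [X0, Y0, Z0]; exact hmem'.2
  have hXpos : 0 < X 0 := by rw [X0]; exact Qf_pos hμ hν hl hmem'.1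
  have hYn : 0 ≤ Y 0 := by rw [Y0]; exact pw_nonneg _ _
  have hZn : 0 ≤ Z 0 := by rw [Z0]; exact pw_nonneg _ _
  -- the limit value
  set D := denergy p μ ν lam u v φ ψ with hD
  have hDe : D = 2 * dQ μ ν lam u v φ ψ / 2 - q * I1 / q - r * I2 / r := by
    rw [hD, denergy_eq]
    field_simp
    rfl
  set G : ℝ × (ℝ × ℝ × ℝ) → ℝ := fun z =>
    z.1 ^ 2 * z.2.1 / 2 - z.1 ^ q * z.2.2.1 / q - z.1 ^ r * z.2.2.2 / r with hG
  have hGc : Continuous G := by
    have c1 : Continuous fun z : ℝ × (ℝ × ℝ × ℝ) => z.1 ^ q :=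
      continuous_fst.rpow_const fun _ => Or.inr hq0.le
    have c2 : Continuous fun z : ℝ × (ℝ × ℝ × ℝ) => z.1 ^ r :=
      continuous_fst.rpow_const fun _ => Or.inr hr0.le
    exact ((((continuous_fst.pow 2).mul (continuous_fst.comp continuous_snd)).div_const 2).sub
      ((c1.mul (continuous_fst.comp (continuous_snd.comp continuous_snd))).div_const q)).sub
      ((c2.mul (continuous_snd.comp (continuous_snd.comp continuous_snd))).div_const r)
  have hG0 : G (1, 2 * dQ μ ν lam u v φ ψ, q * I1, r * I2) < 0 := by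
    have : G (1, 2 * dQ μ ν lam u v φ ψ, q * I1, r * I2) = D := by
      rw [hDe]; simp only [hG, Real.one_rpow, one_pow, one_mul]
    rw [this]; exact hcon
  have hev : ∀ᶠ z in 𝓝 ((1 : ℝ), 2 * dQ μ ν lam u v φ ψ, q * I1, r * I2), G z < 0 :=
    (hGc.tendsto _).eventually (gt_mem_nhds hG0)
  rw [nhds_prod_eq, eventually_prod_iff] at hev
  obtain ⟨pa, hpa, pb, hpb, hab⟩ := hev
  obtain ⟨ε, hε, hball⟩ := Metric.eventually_nhds_iff.1 hpa
  set e := min (ε / 2) (1 / 2) with he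
  have he0 : 0 < e := lt_min (by linarith) (by norm_num)
  have he1 : e ≤ 1 / 2 := min_le_right _ _
  have heε : e < ε := (min_le_left _ _).trans_lt (by linarith)
  -- difference quotients
  have sX : Tendsto (fun s : ℝ => s⁻¹ * (X s - X 0)) (𝓝[>] 0) (𝓝 (2 * dQ μ ν lam u v φ ψ)) := by
    have := dX.tendsto_slope_zero_right
    simpa using this
  have sY : Tendsto (fun s : ℝ => s⁻¹ * (Y s - Y 0)) (𝓝[>] 0) (𝓝 (q * I1)) := by
    have := dY.tendsto_slope_zero_right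
    simpa using this
  have sZ : Tendsto (fun s : ℝ => s⁻¹ * (Z s - Z 0)) (𝓝[>] 0) (𝓝 (r * I2)) := by
    have := dZ.tendsto_slope_zero_right
    simpa using this
  have sXYZ := (sX.prodMk_nhds (sY.prodMk_nhds sZ)).eventually hpb
  -- continuity
  have cX : Tendsto X (𝓝[>] 0) (𝓝 (X 0)) := dX.continuousAt.tendsto.mono_left nhdsWithin_le_nhds
  have cY : Tendsto Y (𝓝[>] 0) (𝓝 (Y 0)) := dY.continuousAt.tendsto.mono_left nhdsWithin_le_nhds
  have cZ : Tendsto Z (𝓝[>] 0) (𝓝 (Z 0)) := dZ.continuousAt.tendsto.mono_left nhdsWithin_le_nhds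
  have hlow : ∀ᶠ s in 𝓝[>] (0 : ℝ),
      (1 - e) ^ (q - 2) * Y s + (1 - e) ^ (r - 2) * Z s - X s < 0 := by
    have ht : Tendsto (fun s => (1 - e) ^ (q - 2) * Y s + (1 - e) ^ (r - 2) * Z s - X s)
        (𝓝[>] 0) (𝓝 ((1 - e) ^ (q - 2) * Y 0 + (1 - e) ^ (r - 2) * Z 0 - X 0)) :=
      ((cY.const_mul _).add (cZ.const_mul _)).sub cX
    refine ht.eventually (gt_mem_nhds ?_)
    have g1 : (1 - e) ^ (q - 2) < 1 := Real.rpow_lt_one (by linarith) (by linarith) (by linarith)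
    have g2 : (1 - e) ^ (r - 2) < 1 := Real.rpow_lt_one (by linarith) (by linarith) (by linarith)
    rcases hYn.eq_or_lt with h | h
    · have hZ1 : 0 < Z 0 := by linarith
      rw [← h]; nlinarith
    · nlinarith
  have hhigh : ∀ᶠ s in 𝓝[>] (0 : ℝ),
      0 < (1 + e) ^ (q - 2) * Y s + (1 + e) ^ (r - 2) * Z s - X s := by
    have ht : Tendsto (fun s => (1 + e) ^ (q - 2) * Y s + (1 + e) ^ (r - 2) * Z s - X s)
        (𝓝[>] 0) (𝓝 ((1 + e) ^ (q - 2) * Y 0 + (1 + e) ^ (r - 2) * Z 0 - X 0)) :=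
      ((cY.const_mul _).add (cZ.const_mul _)).sub cX
    refine ht.eventually (lt_mem_nhds ?_)
    have g1 : 1 < (1 + e) ^ (q - 2) := Real.one_lt_rpow (by linarith) (by linarith)
    have g2 : 1 < (1 + e) ^ (r - 2) := Real.one_lt_rpow (by linarith) (by linarith)
    rcases hYn.eq_or_lt with h | h
    · have hZ1 : 0 < Z 0 := by linarith
      rw [← h]; nlinarith
    · nlinarith
  have hXp : ∀ᶠ s in 𝓝[>] (0 : ℝ), 0 < X s := cX.eventually (lt_mem_nhds hXpos)
  have hsp : ∀ᶠ s in 𝓝[>] (0 : ℝ), 0 < s := eventually_mem_nhdsWithin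
  obtain ⟨s, hs1, hs2, hs3, hs4, hs5⟩ :=
    (sXYZ.and (hlow.and (hhigh.and (hXp.and hsp)))).exists
  -- the root
  have hcont := root_fun_cont (q := q) (s := r) (a := Y s) (b := Z s) hq hc
  have hmemI : X s ∈ Set.Icc ((1 - e) ^ (q - 2) * Y s + (1 - e) ^ (r - 2) * Z s)
      ((1 + e) ^ (q - 2) * Y s + (1 + e) ^ (r - 2) * Z s) := ⟨by linarith, by linarith⟩
  obtain ⟨t, ht, hgt⟩ := intermediate_value_Icc (by linarith : 1 - e ≤ 1 + e)
    hcont.continuousOn hmemI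
  have ht0 : 0 < t := by have := ht.1; linarith
  have htε : pa t := by
    apply hball
    rw [Real.dist_eq, abs_lt]
    constructor
    · have := ht.1; linarith
    · have := ht.2; linarith
  have hGneg := hab htε hs1
  have hne : (u + s • φ, v + s • ψ) ≠ 0 := by
    intro h0
    rw [Prod.mk_eq_zero] at h0
    have : X s = 0 := by
      simp only [hX]
      rw [h0.1, h0.2]
      unfold Qf
      simp
    linarith
  have hroot : X s = t ^ (q - 2) * Y s + t ^ (r - 2) * Z s := hgt.symm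
  have hin := mem_nehari_smul hN hp1 hp2 hne ht0 hroot
  have hle := mlevel_le hN hp1 hin
  rw [← energy_of_nehari hN hp1 hin, Fr_energy hN hp1 hp2 μ ν lam _ _ ht0.le] at hle
  have hle' : mlevel N p μ ν lam ≤ Fr q r (X s) (Y s) (Z s) t := hle
  have hK : Fr q r (X 0) (Y 0) (Z 0) t ≤ mlevel N p μ ν lam := by
    rw [← hmin]
    have f1 : Fr q r (X 0) (Y 0) (Z 0) t ≤ Fr q r (X 0) (Y 0) (Z 0) 1 :=
      Fr_le_root hq hc hYn hZn one_pos (by rw [hXYZ]; simp) ht0.le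
    have f2 : Fr q r (X 0) (Y 0) (Z 0) 1 = Kf p u v := by
      rw [Fr_root one_pos (by rw [hXYZ]; simp), Y0, Z0]
      unfold Kf
      simp
      ring
    rwa [f2] at f1
  have hdiff : Fr q r (X s) (Y s) (Z s) t - Fr q r (X 0) (Y 0) (Z 0) t
      = s * G (t, s⁻¹ * (X s - X 0), s⁻¹ * (Y s - Y 0), s⁻¹ * (Z s - Z 0)) := by
    unfold Fr
    simp only [hG]
    field_simp
    ring
  have hneg := mul_neg_of_pos_of_neg hs5 hGneg
  rw [← hdiff] at hneg
  linarith

/-- a minimizer of the energy on the Nehari manifold is a solution. -/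
theorem isSolution_of_min (hN : 3 ≤ N) {p : ℝ} (hp1 : 1 < p) (hp2 : p + 1 < crit N) {μ ν lam : ℝ}
    (hμ : 0 < μ) (hν : 0 < ν) (hl : |lam| < √(μ * ν)) {u v : H1 N}
    (hmem : (u, v) ∈ nehari N p μ ν lam) (hmin : Kf p u v = mlevel N p μ ν lam) :
    IsSolution p μ ν lam u v := by
  intro φ ψ
  have h1 := denergy_nonneg hN hp1 hp2 hμ hν hl hmem hmin φ ψ
  have h2 := denergy_nonneg hN hp1 hp2 hμ hν hl hmem hmin (-φ) (-ψ)
  rw [denergy_neg] at h2
  linarith

end Pool.Agent.GroundState
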