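import Mathlib

/-!
Sobolev space `H¹(ℝ^N)` and the energy functional of the linearly coupled system
`-Δu + μu = |u|^{p-1}u + λv`, `-Δv + νv = |v|^{2*-2}v + λu` (problem MP_e9346b_an).
-/

set_option autoImplicit false

open MeasureTheory Filter Topology
open scoped ENNReal NNReal ContDiff Gradient InnerProductSpace

noncomputable section

namespace Pool.Agent.GroundState

/-- Euclidean space `ℝ^N`. -/
abbrev E (N : ℕ) : Type := EuclideanSpace ℝ (Fin N)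

/-- The Hilbert space `L²(ℝ^N) × L²(ℝ^N; ℝ^N)` of pairs `(u, G)`. -/
abbrev W (N : ℕ) : Type :=
  WithLp 2 (Lp ℝ 2 (volume : Measure (E N)) × Lp (E N) 2 (volume : Measure (E N)))

/-- Test functions: smooth functions with compact support. -/
def IsTest {N : ℕ} (φ : E N → ℝ) : Prop := ContDiff ℝ ∞ φ ∧ HasCompactSupport φ

/-- The element `w = (u, G)` of `W N` is the pair `(φ, ∇φ)`. -/
def IsPairOf {N : ℕ} (w : W N) (φ : E N → ℝ) : Prop :=
  ((w.fst : E N → ℝ) =ᵐ[volume] φ) ∧ ((w.snd : E N → E N) =ᵐ[volume] fun x => ∇ φ x)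

/-- `w` is one of the pairs `(φ, ∇φ)` with `φ` a test function. -/
def IsTestPair {N : ℕ} (w : W N) : Prop := ∃ φ : E N → ℝ, IsTest φ ∧ IsPairOf w φ

lemma IsTestPair.add {N : ℕ} {w w' : W N} (hw : IsTestPair w) (hw' : IsTestPair w') :
    IsTestPair (w + w') := by
  obtain ⟨φ, hφ, h⟩ := hw
  obtain ⟨φ', hφ', h'⟩ := hw'
  refine ⟨fun x => φ x + φ' x, ⟨hφ.1.add hφ'.1, hφ.2.add hφ'.2⟩, ?_, ?_⟩
  · have := Lp.coeFn_add w.fst w'.fst
    filter_upwards [this, h.1, h'.1] with x h1 h2 h3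
    simpa [h2, h3] using h1
  · have := Lp.coeFn_add w.snd w'.snd
    filter_upwards [this, h.2, h'.2] with x h1 h2 h3
    have hd : DifferentiableAt ℝ φ x := (hφ.1.differentiable (by simp)) x
    have hd' : DifferentiableAt ℝ φ' x := (hφ'.1.differentiable (by simp)) x
    have e : ∇ (fun x => φ x + φ' x) x = ∇ φ x + ∇ φ' x := by
      unfold gradient
      rw [show (fun x => φ x + φ' x) = φ + φ' from rfl, fderiv_add hd hd', map_add]
    rw [e, ← h2, ← h3]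
    simpa using h1

lemma IsTestPair.zero {N : ℕ} : IsTestPair (0 : W N) := by
  refine ⟨fun _ => 0, ⟨contDiff_const, HasCompactSupport.zero⟩, ?_, ?_⟩
  · exact Lp.coeFn_zero _ _ _
  · have e : (fun x => ∇ (fun _ : E N => (0 : ℝ)) x) = fun _ => (0 : E N) := by
      funext x
      simp [gradient]
    rw [e]
    exact Lp.coeFn_zero _ _ _

lemma IsTestPair.smul {N : ℕ} (c : ℝ) {w : W N} (hw : IsTestPair w) : IsTestPair (c • w) := by
  obtain ⟨φ, hφ, h⟩ := hw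
  refine ⟨fun x => c * φ x, ⟨contDiff_const.mul hφ.1, hφ.2.mul_left⟩, ?_, ?_⟩
  · have := Lp.coeFn_smul c w.fst
    filter_upwards [this, h.1] with x h1 h2
    simpa [h2] using h1
  · have := Lp.coeFn_smul c w.snd
    filter_upwards [this, h.2] with x h1 h2
    have hd : DifferentiableAt ℝ φ x := (hφ.1.differentiable (by simp)) x
    have e : ∇ (fun x => c * φ x) x = c • ∇ φ x := by
      unfold gradient
      rw [fderiv_const_mul hd c, map_smul]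
    rw [e, ← h2]
    simpa using h1

/-- The subspace of all pairs `(φ, ∇φ)` with `φ` a test function. -/
def testPairs (N : ℕ) : Submodule ℝ (W N) where
  carrier := {w | IsTestPair w}
  add_mem' := IsTestPair.add
  zero_mem' := IsTestPair.zero
  smul_mem' := IsTestPair.smul

/-- The Sobolev space `H¹(ℝ^N)`, the closure of the pairs `(φ, ∇φ)`, `φ ∈ C_c^∞(ℝ^N)`. -/
def H1 (N : ℕ) : Submodule ℝ (W N) := (testPairs N).topologicalClosure

/-- The function `u ∈ L²(ℝ^N)` underlying an element of `H¹(ℝ^N)`. -/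
def fn {N : ℕ} (u : H1 N) : E N → ℝ := ((u : W N).fst : Lp ℝ 2 (volume : Measure (E N)))

/-- The weak gradient `∇u ∈ L²(ℝ^N; ℝ^N)` of an element of `H¹(ℝ^N)`. -/
def gr {N : ℕ} (u : H1 N) : E N → E N := ((u : W N).snd : Lp (E N) 2 (volume : Measure (E N)))

/-- The critical exponent `2* = 2N/(N-2)`. -/
def crit (N : ℕ) : ℝ := 2 * N / (N - 2)

/-- The energy functional `I_{μ,ν,λ}(u,v)`. -/
def energy {N : ℕ} (p μ ν lam : ℝ) (u v : H1 N) : ℝ :=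
  1 / 2 * (∫ x, (‖gr u x‖ ^ 2 + μ * fn u x ^ 2)) + 1 / 2 * (∫ x, (‖gr v x‖ ^ 2 + ν * fn v x ^ 2))
    - 1 / (p + 1) * (∫ x, |fn u x| ^ (p + 1)) - 1 / crit N * (∫ x, |fn v x| ^ crit N)
    - lam * ∫ x, fn u x * fn v x

/-- The derivative `I'_{μ,ν,λ}(u,v)(φ,ψ)`. -/
def denergy {N : ℕ} (p μ ν lam : ℝ) (u v φ ψ : H1 N) : ℝ :=
  (∫ x, (⟪gr u x, gr φ x⟫_ℝ + μ * (fn u x * fn φ x)))
    + (∫ x, (⟪gr v x, gr ψ x⟫_ℝ + ν * (fn v x * fn ψ x)))
    - (∫ x, |fn u x| ^ (p - 1) * fn u x * fn φ x)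
    - (∫ x, |fn v x| ^ (crit N - 2) * fn v x * fn ψ x)
    - lam * ∫ x, (fn u x * fn ψ x + fn v x * fn φ x)

/-- `(u,v)` is a weak solution of the system (a critical point of `I_{μ,ν,λ}`). -/
def IsSolution {N : ℕ} (p μ ν lam : ℝ) (u v : H1 N) : Prop :=
  ∀ φ ψ : H1 N, denergy p μ ν lam u v φ ψ = 0

/-- The Nehari manifold `M_{μ,ν,λ}`. -/
def nehari (N : ℕ) (p μ ν lam : ℝ) : Set (H1 N × H1 N) :=
  {w | w ≠ 0 ∧ denergy p μ ν lam w.1 w.2 w.1 w.2 = 0}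

/-- `m_{μ,ν,λ}`, the infimum of the energy on the Nehari manifold. -/
def mlevel (N : ℕ) (p μ ν lam : ℝ) : ℝ :=
  sInf ((fun w : H1 N × H1 N => energy p μ ν lam w.1 w.2) '' nehari N p μ ν lam)

/-- The sharp Sobolev constant `S`: the largest `s` with
`∫|∇φ|² ≥ s (∫|φ|^{2*})^{2/2*}` for all `φ ∈ C_c^∞(ℝ^N)` (a dense subspace of `D^{1,2}(ℝ^N)`). -/
def sobS (N : ℕ) : ℝ :=
  sSup {s : ℝ | ∀ φ : E N → ℝ, IsTest φ →
    s * (∫ x, |φ x| ^ crit N) ^ (2 / crit N) ≤ ∫ x, ‖∇ φ x‖ ^ 2}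

/-- The sharp constant `C_q` in `∫(|∇u|² + u²) ≥ C_q (∫|u|^q)^{2/q}` on `H¹(ℝ^N)`. -/
def sobC (N : ℕ) (q : ℝ) : ℝ :=
  sSup {s : ℝ | ∀ u : H1 N, s * (∫ x, |fn u x| ^ q) ^ (2 / q) ≤ ∫ x, (‖gr u x‖ ^ 2 + fn u x ^ 2)}

/-- The number `μ₀`. -/
def mu0 (N : ℕ) (p : ℝ) : ℝ :=
  (2 * (p + 1) / (N * (p - 1)) * sobS N ^ ((N : ℝ) / 2)
    * sobC N (p + 1) ^ (-((p + 1) / (p - 1)))) ^ (((p + 1) / (p - 1) - (N : ℝ) / 2)⁻¹)

/-- The threshold coupling `λ_{μ,ν}`. -/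
def lamStar (N : ℕ) (p μ ν : ℝ) : ℝ :=
  sInf {lam : ℝ | lam < √(μ * ν) ∧ ∀ τ : ℝ, lam ≤ τ → τ < √(μ * ν) →
    mlevel N p μ ν τ < 1 / N * sobS N ^ ((N : ℝ) / 2)}

/-- `(u,v)` is a ground state solution: a solution in `M_{μ,ν,λ}` of energy `m_{μ,ν,λ}`. -/
def IsGroundState {N : ℕ} (p μ ν lam : ℝ) (u v : H1 N) : Prop :=
  IsSolution p μ ν lam u v ∧ (u, v) ∈ nehari N p μ ν lam ∧
    energy p μ ν lam u v = mlevel N p μ ν lam

end Pool.Agent.GroundState
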