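import Pool.Agent.helper35.GS.Var

set_option autoImplicit false

open MeasureTheory Filter Topology
open scoped ENNReal NNReal ContDiff Gradient InnerProductSpace

noncomputable section

namespace Pool.Agent.GroundState

variable {N : ℕ}

/-- the critical energy level `S^{N/2}/N`. -/
def cst (N : ℕ) : ℝ := 1 / N * sobS N ^ ((N : ℝ) / 2)

lemma cst_pos (hN : 3 ≤ N) : 0 < cst N := by
  have h3 : (3 : ℝ) ≤ N := by exact_mod_cast hN
  exact mul_pos (by positivity) (Real.rpow_pos_of_pos (sobS_pos hN) _)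

lemma half_sub_crit (hN : 3 ≤ N) : 1 / 2 - 1 / crit N = 1 / N := by
  have h3 : (3 : ℝ) ≤ N := by exact_mod_cast hN
  have : (N : ℝ) - 2 ≠ 0 := by linarith
  unfold crit
  field_simp
  ring

lemma crit_exp (hN : 3 ≤ N) : crit N / (crit N - 2) = (N : ℝ) / 2 := by
  have h3 : (3 : ℝ) ≤ N := by exact_mod_cast hN
  have h4 : (N : ℝ) - 2 ≠ 0 := by linarith
  have h5 : 2 * (N : ℝ) / (N - 2) - 2 = 4 / (N - 2) := by field_simp; ring
  unfold crit
  rw [h5]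
  field_simp
  ring

/-- existence of almost minimizers. -/
lemma exists_near (hN : 3 ≤ N) {p : ℝ} (hp1 : 1 < p) {μ ν lam c : ℝ}
    (hne : (nehari N p μ ν lam).Nonempty) (h : mlevel N p μ ν lam < c) :
    ∃ u v : H1 N, (u, v) ∈ nehari N p μ ν lam ∧ Kf p u v < c := by
  unfold mlevel at h
  obtain ⟨x, ⟨⟨u, v⟩, hw, rfl⟩, hx⟩ := exists_lt_of_csInf_lt (hne.image _) h
  refine ⟨u, v, hw, ?_⟩
  rw [← energy_of_nehari hN hp1 hw]
  exact hx

lemma le_mlevel (hN : 3 ≤ N) {p : ℝ} (hp1 : 1 < p) {μ ν lam c : ℝ}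
    (hne : (nehari N p μ ν lam).Nonempty)
    (h : ∀ u v : H1 N, (u, v) ∈ nehari N p μ ν lam → c ≤ Kf p u v) : c ≤ mlevel N p μ ν lam := by
  unfold mlevel
  apply le_csInf (hne.image _)
  rintro x ⟨⟨u, v⟩, hw, rfl⟩
  show c ≤ energy p μ ν lam u v
  rw [energy_of_nehari hN hp1 hw]
  exact h u v hw

lemma exists_fn (hN : 3 ≤ N) {q : ℝ} (hq : 0 < q) : ∃ w : H1 N, 0 < pw q w := by
  obtain ⟨φ, hφ, h0⟩ := exists_test (N := N)
  obtain ⟨w, hw⟩ := exists_pair hφ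
  exact ⟨w, by rw [pairOf_pw hw]; exact hφ.integral_pos h0 hq⟩

lemma ne_zero_of_pw {q : ℝ} (hq : 0 < q) {u v : H1 N} (h : 0 < pw q u) : (u, v) ≠ 0 := by
  intro h0
  rw [Prod.mk_eq_zero] at h0
  have : pw q u = 0 := pw_eq_zero hq (by rw [h0.1, map_zero])
  linarith

lemma nehari_nonempty (hN : 3 ≤ N) {p : ℝ} (hp1 : 1 < p) (hp2 : p + 1 < crit N) {μ ν lam : ℝ}
    (hμ : 0 < μ) (hν : 0 < ν) (hl : |lam| < √(μ * ν)) : (nehari N p μ ν lam).Nonempty := by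
  obtain ⟨w, hw⟩ := exists_fn hN (q := p + 1) (by linarith)
  obtain ⟨t, _, ht, _⟩ := exists_proj hN hp1 hp2 hμ hν hl (u := w) (v := w)
    (ne_zero_of_pw (by linarith) hw) (add_pos_of_pos_of_nonneg hw (pw_nonneg _ _))
  exact ⟨_, ht⟩

lemma ab_pos_of_nehari (hN : 3 ≤ N) {p : ℝ} (hp1 : 1 < p) {μ ν lam : ℝ}
    (hμ : 0 < μ) (hν : 0 < ν) (hl : |lam| < √(μ * ν)) {u v : H1 N}
    (h : (u, v) ∈ nehari N p μ ν lam) : 0 < pw (p + 1) u + pw (crit N) v := by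
  rw [mem_nehari_iff hN hp1] at h
  rw [← h.2]
  exact Qf_pos hμ hν hl h.1

lemma Kf_smul_le (hN : 3 ≤ N) {p : ℝ} (hp1 : 1 < p) {t : ℝ} (ht : 0 < t) (ht1 : t ≤ 1)
    (u v : H1 N) :
    (1 / 2 - 1 / (p + 1)) * (t ^ (p + 1) * pw (p + 1) u)
        + (1 / 2 - 1 / crit N) * (t ^ crit N * pw (crit N) v) ≤ Kf p u v := by
  have hc := crit_gt hN
  have h1 : t ^ (p + 1) ≤ 1 := Real.rpow_le_one ht.le ht1 (by linarith)
  have h2 : t ^ crit N ≤ 1 := Real.rpow_le_one ht.le ht1 (by linarith)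
  have e1 := mul_le_mul_of_nonneg_right h1 (pw_nonneg (p + 1) u)
  have e2 := mul_le_mul_of_nonneg_right h2 (pw_nonneg (crit N) v)
  rw [one_mul] at e1 e2
  exact add_le_add (mul_le_mul_of_nonneg_left e1 (kp_pos hp1).le)
    (mul_le_mul_of_nonneg_left e2 (ks_pos hN).le)

/-- if `Q ≤ a + b` then the level is at most `K`. -/
lemma mlevel_le_Kf (hN : 3 ≤ N) {p : ℝ} (hp1 : 1 < p) (hp2 : p + 1 < crit N) {μ ν lam : ℝ}
    (hμ : 0 < μ) (hν : 0 < ν) (hl : |lam| < √(μ * ν)) {u v : H1 N} (h0 : (u, v) ≠ 0)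
    (hQ : Qf μ ν lam u v ≤ pw (p + 1) u + pw (crit N) v) : mlevel N p μ ν lam ≤ Kf p u v := by
  have hab : 0 < pw (p + 1) u + pw (crit N) v := (Qf_pos hμ hν hl h0).trans_le hQ
  obtain ⟨t, ht, hmem, hle, _, hK⟩ := exists_proj hN hp1 hp2 hμ hν hl h0 hab
  refine (mlevel_le hN hp1 hmem).trans ?_
  rw [hK]
  exact Kf_smul_le hN hp1 ht (hle hQ) u v

/-- `m` is nonincreasing in the coupling. -/
lemma mlevel_anti (hN : 3 ≤ N) {p : ℝ} (hp1 : 1 < p) (hp2 : p + 1 < crit N) {μ ν l1 l2 : ℝ}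
    (hμ : 0 < μ) (hν : 0 < ν) (h1 : 0 ≤ l1) (h12 : l1 ≤ l2) (h2 : l2 < √(μ * ν)) :
    mlevel N p μ ν l2 ≤ mlevel N p μ ν l1 := by
  have hc := crit_gt hN
  have a1 : |l1| < √(μ * ν) := by rw [abs_of_nonneg h1]; linarith
  have a2 : |l2| < √(μ * ν) := by rw [abs_of_nonneg (h1.trans h12)]; linarith
  apply le_mlevel hN hp1 (nehari_nonempty hN hp1 hp2 hμ hν a1)
  intro u v huv
  have huv' := (mem_nehari_iff hN hp1 μ ν l1 u v).1 huv
  rcases le_total 0 ⟪fstL u, fstL v⟫_ℝ with h | h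
  · apply mlevel_le_Kf hN hp1 hp2 hμ hν a2 huv'.1
    rw [← huv'.2]
    unfold Qf
    have := mul_le_mul_of_nonneg_right h12 h
    linarith
  · have h0 : (u, -v) ≠ 0 := by
      rw [pair_ne_zero_iff, norm_neg, ← pair_ne_zero_iff]; exact huv'.1
    have hK : Kf p u (-v) = Kf p u v := by
      unfold Kf
      rw [pw_neg hN hc.le le_rfl]
    rw [← hK]
    apply mlevel_le_Kf hN hp1 hp2 hμ hν a2 h0
    rw [pw_neg hN hc.le le_rfl, ← huv'.2]
    unfold Qf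
    rw [map_neg, map_neg, norm_neg, norm_neg, inner_neg_right]
    have := mul_le_mul_of_nonneg_right h12 (neg_nonneg.2 h)
    have h3 : l1 * ⟪fstL u, fstL v⟫_ℝ ≤ 0 := mul_nonpos_of_nonneg_of_nonpos h1 h
    linarith

/-- one-component computation. -/
lemma single {q Q a k : ℝ} (hq : 2 < q) (hk : 0 < k) (ha : 0 < a) (h : k * a ^ (2 / q) ≤ Q) :
    ∃ t, 0 < t ∧ (1 / 2 - 1 / q) * k ^ (q / (q - 2)) ≤ t ^ 2 * Q / 2 - t ^ q * a / q ∧
      ∀ τ, 0 ≤ τ → τ ≤ t → 0 ≤ τ ^ 2 * Q / 2 - τ ^ q * a / q := by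
  have hq0 : 0 < q := by linarith
  have hq2 : 0 < q - 2 := by linarith
  have hkq : 0 < 1 / 2 - 1 / q := by
    rw [sub_pos]; exact one_div_lt_one_div_of_lt (by norm_num) hq
  have haq : 0 < a ^ (2 / q) := Real.rpow_pos_of_pos ha _
  have hQ : 0 < Q := (mul_pos hk haq).trans_le h
  set t := (Q / a) ^ (1 / (q - 2)) with ht
  have ht0 : 0 < t := Real.rpow_pos_of_pos (by positivity) _
  have e1 : t ^ (q - 2) = Q / a := by
    rw [ht, ← Real.rpow_mul (by positivity), one_div_mul_cancel hq2.ne', Real.rpow_one]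
  have e2 : ∀ τ : ℝ, 0 ≤ τ → τ ^ q = τ ^ 2 * τ ^ (q - 2) := by
    intro τ hτ
    rcases hτ.eq_or_lt with h0 | h0
    · rw [← h0, Real.zero_rpow hq0.ne']; ring
    · rw [← Real.rpow_two, ← Real.rpow_add h0]; congr 1; ring
  refine ⟨t, ht0, ?_, fun τ hτ hτt => ?_⟩
  · have e3 : t ^ 2 * Q / 2 - t ^ q * a / q = (1 / 2 - 1 / q) * (t ^ 2 * Q) := by
      rw [e2 t ht0.le, e1]; field_simp
    rw [e3]
    apply mul_le_mul_of_nonneg_left _ hkq.le
    have e4 : t ^ 2 * Q = (Q / a ^ (2 / q)) ^ (q / (q - 2)) := by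
      rw [ht, ← Real.rpow_two, ← Real.rpow_mul (by positivity), Real.div_rpow hQ.le ha.le,
        Real.div_rpow hQ.le haq.le, ← Real.rpow_mul ha.le]
      have : Q ^ (1 / (q - 2) * 2) / a ^ (1 / (q - 2) * 2) * Q
          = (Q ^ (1 / (q - 2) * 2) * Q ^ (1 : ℝ)) / a ^ (1 / (q - 2) * 2) := by
        rw [Real.rpow_one]; ring
      rw [this, ← Real.rpow_add hQ]
      congr 2
      · field_simp; ring
      · field_simp
    rw [e4]
    apply Real.rpow_le_rpow hk.le _ (by positivity)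
    rwa [le_div_iff₀ haq]
  · rw [e2 τ hτ]
    have h1 : τ ^ (q - 2) ≤ Q / a := by
      rw [← e1]; exact Real.rpow_le_rpow hτ hτt hq2.le
    rw [le_div_iff₀ ha] at h1
    have h2 : τ ^ 2 * Q / 2 - τ ^ 2 * τ ^ (q - 2) * a / q
        = τ ^ 2 * (Q / 2 - τ ^ (q - 2) * a / q) := by ring
    rw [h2]
    apply mul_nonneg (sq_nonneg _)
    have h3 : τ ^ (q - 2) * a / q ≤ Q / q := div_le_div_of_nonneg_right h1 hq0.le
    have h4 : Q / q ≤ Q / 2 := div_le_div_of_nonneg_left hQ.le (by norm_num) hq.le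
    linarith

lemma exp_pos (hN : 3 ≤ N) {p : ℝ} (hp1 : 1 < p) (hp2 : p + 1 < crit N) :
    0 < (p + 1) / (p - 1) - (N : ℝ) / 2 := by
  have h3 : (3 : ℝ) ≤ N := by exact_mod_cast hN
  unfold crit at hp2
  rw [lt_div_iff₀ (by linarith)] at hp2
  rw [sub_pos, div_lt_div_iff₀ (by norm_num) (by linarith)]
  nlinarith

lemma mu0_pos (hN : 3 ≤ N) {p : ℝ} (hp1 : 1 < p) (hp2 : p + 1 < crit N) : 0 < mu0 N p := by
  have h3 : (3 : ℝ) ≤ N := by exact_mod_cast hN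
  unfold mu0
  apply Real.rpow_pos_of_pos
  have h1 := sobS_pos hN
  have h2 := sobC_pos hN (q := p + 1) (by linarith) hp2.le
  have h4 : 0 < (N : ℝ) * (p - 1) := mul_pos (by linarith) (by linarith)
  have : 0 < 2 * (p + 1) / (N * (p - 1)) := div_pos (by linarith) h4
  have := Real.rpow_pos_of_pos h1 ((N : ℝ) / 2)
  have := Real.rpow_pos_of_pos h2 (-((p + 1) / (p - 1)))
  positivity

lemma mu0_level (hN : 3 ≤ N) {p : ℝ} (hp1 : 1 < p) (hp2 : p + 1 < crit N) :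
    (1 / 2 - 1 / (p + 1)) * (mu0 N p ^ (1 - (N : ℝ) / 2 + N / (p + 1)) * sobC N (p + 1))
      ^ ((p + 1) / (p + 1 - 2)) = cst N := by
  have h3 : (3 : ℝ) ≤ N := by exact_mod_cast hN
  have hm := mu0_pos hN hp1 hp2
  have hC := sobC_pos hN (q := p + 1) (by linarith) hp2.le
  have he := exp_pos hN hp1 hp2
  have hS := sobS_pos hN
  have hp0 : p - 1 ≠ 0 := by linarith
  have hp3 : p + 1 ≠ 0 := by linarith
  have hN0 : (N : ℝ) ≠ 0 := by linarith
  have h4 : 0 < (N : ℝ) * (p - 1) := mul_pos (by linarith) (by linarith)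
  rw [Real.mul_rpow (Real.rpow_nonneg hm.le _) hC.le, ← Real.rpow_mul hm.le]
  have e1 : (1 - (N : ℝ) / 2 + N / (p + 1)) * ((p + 1) / (p + 1 - 2))
      = (p + 1) / (p - 1) - (N : ℝ) / 2 := by
    rw [show p + 1 - 2 = p - 1 by ring]
    field_simp
    ring
  have e2 : mu0 N p ^ ((p + 1) / (p - 1) - (N : ℝ) / 2)
      = 2 * (p + 1) / (N * (p - 1)) * sobS N ^ ((N : ℝ) / 2)
        * sobC N (p + 1) ^ (-((p + 1) / (p - 1))) := by
    unfold mu0
    rw [← Real.rpow_mul, inv_mul_cancel₀ he.ne', Real.rpow_one]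
    have : 0 < 2 * (p + 1) / (N * (p - 1)) := div_pos (by linarith) h4
    have := Real.rpow_pos_of_pos hS ((N : ℝ) / 2)
    have := Real.rpow_pos_of_pos hC (-((p + 1) / (p - 1)))
    positivity
  rw [e1, e2, show p + 1 - 2 = p - 1 by ring, Real.rpow_neg hC.le]
  have e3 : sobC N (p + 1) ^ ((p + 1) / (p - 1)) ≠ 0 := (Real.rpow_pos_of_pos hC _).ne'
  unfold cst
  field_simp
  ring

/-- for couplings up to `√((μ-μ₀)ν)` the level is at least `S^{N/2}/N`. -/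
lemma mlevel_ge (hN : 3 ≤ N) {p : ℝ} (hp1 : 1 < p) (hp2 : p + 1 < crit N) {μ ν lam : ℝ}
    (hμ : mu0 N p < μ) (hν : 0 < ν) (h0 : 0 ≤ lam) (h1 : lam ≤ √((μ - mu0 N p) * ν)) :
    cst N ≤ mlevel N p μ ν lam := by
  have hc := crit_gt hN
  have hm := mu0_pos hN hp1 hp2
  have hμ0 : 0 < μ := hm.trans hμ
  have hl : |lam| < √(μ * ν) := by
    rw [abs_of_nonneg h0]
    refine h1.trans_lt (Real.sqrt_lt_sqrt (mul_nonneg (by linarith) hν.le) ?_)
    exact mul_lt_mul_of_pos_right (by linarith) hν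
  apply le_mlevel hN hp1 (nehari_nonempty hN hp1 hp2 hμ0 hν hl)
  intro u v huv
  have hab := ab_pos_of_nehari hN hp1 hμ0 hν hl huv
  have huv' := (mem_nehari_iff hN hp1 μ ν lam u v).1 huv
  set a := pw (p + 1) u with ha
  set b := pw (crit N) v with hb
  have ha0 : 0 ≤ a := pw_nonneg _ _
  have hb0 : 0 ≤ b := pw_nonneg _ _
  set Q1 := ‖sndL u‖ ^ 2 + mu0 N p * ‖fstL u‖ ^ 2 with hQ1
  set Q2 := ‖sndL v‖ ^ 2 with hQ2
  have hQ10 : 0 ≤ Q1 := by positivity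
  have hQ20 : 0 ≤ Q2 := by positivity
  have hQ : Q1 + Q2 ≤ Qf μ ν lam u v := by
    unfold Qf
    have i1 : ⟪fstL u, fstL v⟫_ℝ ≤ ‖fstL u‖ * ‖fstL v‖ := real_inner_le_norm _ _
    have i2 := mul_le_mul_of_nonneg_left i1 h0
    have i3 : lam * (‖fstL u‖ * ‖fstL v‖) ≤ √((μ - mu0 N p) * ν) * (‖fstL u‖ * ‖fstL v‖) :=
      mul_le_mul_of_nonneg_right h1 (by positivity)
    have i4 := two_mul_le_add_sq (√(μ - mu0 N p) * ‖fstL u‖) (√ν * ‖fstL v‖)
    rw [mul_pow, mul_pow, Real.sq_sqrt (by linarith), Real.sq_sqrt hν.le] at i4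
    rw [Real.sqrt_mul (by linarith)] at i3
    have i5 : 2 * (√(μ - mu0 N p) * ‖fstL u‖) * (√ν * ‖fstL v‖)
        = 2 * (√(μ - mu0 N p) * √ν * (‖fstL u‖ * ‖fstL v‖)) := by ring
    rw [i5] at i4
    rw [hQ1, hQ2]
    nlinarith
  -- energy at any τ
  have key : ∀ τ : ℝ, 0 ≤ τ → (τ ^ 2 * Q1 / 2 - τ ^ (p + 1) * a / (p + 1))
      + (τ ^ 2 * Q2 / 2 - τ ^ crit N * b / crit N) ≤ Kf p u v := by
    intro τ hτ
    have f1 : Fr (p + 1) (crit N) (Qf μ ν lam u v) a b τ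
        ≤ Fr (p + 1) (crit N) (Qf μ ν lam u v) a b 1 :=
      Fr_le_root (by linarith) hc ha0 hb0 one_pos (by rw [huv'.2]; simp) hτ
    have f2 : Fr (p + 1) (crit N) (Qf μ ν lam u v) a b 1 = Kf p u v := by
      rw [Fr_root one_pos (by rw [huv'.2]; simp)]
      unfold Kf
      simp
      ring
    rw [f2] at f1
    refine le_trans ?_ f1
    unfold Fr
    have := mul_le_mul_of_nonneg_left hQ (sq_nonneg τ)
    linarith
  have s1 : 0 < a → ∃ t, 0 < t ∧ cst N ≤ t ^ 2 * Q1 / 2 - t ^ (p + 1) * a / (p + 1) ∧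
      ∀ τ, 0 ≤ τ → τ ≤ t → 0 ≤ τ ^ 2 * Q1 / 2 - τ ^ (p + 1) * a / (p + 1) := by
    intro ha1
    have hk : 0 < mu0 N p ^ (1 - (N : ℝ) / 2 + N / (p + 1)) * sobC N (p + 1) :=
      mul_pos (Real.rpow_pos_of_pos hm _) (sobC_pos hN (by linarith) hp2.le)
    have hle := sobC_scaled hN (q := p + 1) (by linarith) hp2.le hm u
    rw [← mul_assoc] at hle
    have := single (q := p + 1) (by linarith) hk ha1 hle
    rwa [mu0_level hN hp1 hp2] at this
  have s2 : 0 < b → ∃ t, 0 < t ∧ cst N ≤ t ^ 2 * Q2 / 2 - t ^ crit N * b / crit N ∧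
      ∀ τ, 0 ≤ τ → τ ≤ t → 0 ≤ τ ^ 2 * Q2 / 2 - τ ^ crit N * b / crit N := by
    intro hb1
    have := single hc (sobS_pos hN) hb1 (sobS_ineq hN v)
    rwa [half_sub_crit hN, crit_exp hN] at this
  rcases ha0.eq_or_lt with ha1 | ha1
  · obtain ⟨t, ht, ht2, _⟩ := s2 (by linarith)
    refine le_trans ?_ (key t ht.le)
    have : 0 ≤ t ^ 2 * Q1 / 2 - t ^ (p + 1) * a / (p + 1) := by
      rw [← ha1]; simp; positivity
    linarith
  · rcases hb0.eq_or_lt with hb1 | hb1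
    · obtain ⟨t, ht, ht2, _⟩ := s1 ha1
      refine le_trans ?_ (key t ht.le)
      have : 0 ≤ t ^ 2 * Q2 / 2 - t ^ crit N * b / crit N := by
        rw [← hb1]; simp; positivity
      linarith
    · obtain ⟨t1, ht1, h11, h12⟩ := s1 ha1
      obtain ⟨t2, ht2, h21, h22⟩ := s2 hb1
      rcases le_total t1 t2 with h | h
      · have := h22 t1 ht1.le h
        exact le_trans (by linarith) (key t1 ht1.le)
      · have := h12 t2 ht2.le h
        exact le_trans (by linarith) (key t2 ht2.le)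

end Pool.Agent.GroundState
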