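import Pool.Agent.helper35.GS.Crit

set_option autoImplicit false

open MeasureTheory Filter Topology
open scoped ENNReal NNReal ContDiff Gradient InnerProductSpace

noncomputable section

namespace Pool.Agent.GroundState

variable {N : ℕ}

lemma WT.fst {ws : ℕ → H1 N} {w : H1 N} (h : WT ws w)
    (z : Lp ℝ 2 (volume : Measure (E N))) :
    Tendsto (fun n => ⟪fstL (ws n), z⟫_ℝ) atTop (𝓝 ⟪fstL w, z⟫_ℝ) := by
  have := h (ContinuousLinearMap.adjoint fstL z)
  simpa only [ContinuousLinearMap.adjoint_inner_right] using this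

lemma WT.snd {ws : ℕ → H1 N} {w : H1 N} (h : WT ws w)
    (z : Lp (E N) 2 (volume : Measure (E N))) :
    Tendsto (fun n => ⟪sndL (ws n), z⟫_ℝ) atTop (𝓝 ⟪sndL w, z⟫_ℝ) := by
  have := h (ContinuousLinearMap.adjoint sndL z)
  simpa only [ContinuousLinearMap.adjoint_inner_right] using this

/-- splitting of the quadratic form along weakly convergent sequences. -/
lemma Qf_split {us vs : ℕ → H1 N} {u v : H1 N} (hu : WT us u) (hv : WT vs v) (μ ν lam : ℝ) :
    Tendsto (fun n => Qf μ ν lam (us n) (vs n) - Qf μ ν lam (us n - u) (vs n - v)) atTop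
      (𝓝 (Qf μ ν lam u v)) := by
  have t1 := ((hu.snd (sndL u)).const_mul 2).sub_const (‖sndL u‖ ^ 2)
  have t2 := (((hu.fst (fstL u)).const_mul 2).sub_const (‖fstL u‖ ^ 2)).const_mul μ
  have t3 := ((hv.snd (sndL v)).const_mul 2).sub_const (‖sndL v‖ ^ 2)
  have t4 := (((hv.fst (fstL v)).const_mul 2).sub_const (‖fstL v‖ ^ 2)).const_mul ν
  have t5 := (((hu.fst (fstL v)).add (hv.fst (fstL u))).sub_const ⟪fstL u, fstL v⟫_ℝ).const_mul
    (2 * lam)
  have t := ((t1.add t2).add (t3.add t4)).sub t5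
  have e : 2 * ⟪sndL u, sndL u⟫_ℝ - ‖sndL u‖ ^ 2 + μ * (2 * ⟪fstL u, fstL u⟫_ℝ - ‖fstL u‖ ^ 2)
      + (2 * ⟪sndL v, sndL v⟫_ℝ - ‖sndL v‖ ^ 2 + ν * (2 * ⟪fstL v, fstL v⟫_ℝ - ‖fstL v‖ ^ 2))
      - 2 * lam * (⟪fstL u, fstL v⟫_ℝ + ⟪fstL v, fstL u⟫_ℝ - ⟪fstL u, fstL v⟫_ℝ)
      = Qf μ ν lam u v := by
    unfold Qf
    rw [real_inner_self_eq_norm_sq, real_inner_self_eq_norm_sq, real_inner_self_eq_norm_sq,
      real_inner_self_eq_norm_sq, real_inner_comm (fstL u) (fstL v)]
    ring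
  rw [e] at t
  refine t.congr fun n => ?_
  unfold Qf
  simp only [map_sub]
  rw [norm_sub_sq_real, norm_sub_sq_real, norm_sub_sq_real, norm_sub_sq_real, inner_sub_left,
    inner_sub_right, inner_sub_right, real_inner_comm (fstL (vs n)) (fstL u)]
  ring

/-- compactness: a bounded non-vanishing minimizing sequence yields a minimizer. -/
theorem exists_minimizer (hN : 3 ≤ N) {p : ℝ} (hp1 : 1 < p) (hp2 : p + 1 < crit N) {μ ν lam : ℝ}
    (hμ : 0 < μ) (hν : 0 < ν) (hl : |lam| < √(μ * ν)) {us vs : ℕ → H1 N} {M ε δ : ℝ}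
    (hε : 0 < ε) (hδ : 0 < δ) (hu : ∀ n, ‖us n‖ ≤ M) (hv : ∀ n, ‖vs n‖ ≤ M)
    (hQ : Tendsto (fun n => Qf μ ν lam (us n) (vs n) - pw (p + 1) (us n) - pw (crit N) (vs n))
      atTop (𝓝 0))
    {e : ℕ → ℝ} (he : Tendsto e atTop (𝓝 0))
    (hK : ∀ n, Kf p (us n) (vs n) ≤ mlevel N p μ ν lam + e n)
    (hav : ∀ n, δ ≤ |av ε (fn (us n)) 0|) :
    ∃ U V : H1 N, (U, V) ∈ nehari N p μ ν lam ∧ Kf p U V = mlevel N p μ ν lam := by
  have hc := crit_gt hN
  have hq : 2 < p + 1 := by linarith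
  -- subsequences
  obtain ⟨u, n1, hn1, wu⟩ := weak_compact hu
  obtain ⟨v, n2, hn2, wv⟩ := weak_compact (ws := fun k => vs (n1 k)) (fun k => hv _)
  have wu2 : WT (fun k => us (n1 (n2 k))) u := wu.subseq hn2
  obtain ⟨n3, hn3, au⟩ := exists_ae_subseq_weak wu2 (M := M) (fun k => hu _)
  have wv3 : WT (fun k => vs (n1 (n2 (n3 k)))) v := wv.subseq hn3
  obtain ⟨n4, hn4, av4⟩ := exists_ae_subseq_weak wv3 (M := M) (fun k => hv _)
  set m : ℕ → ℕ := fun k => n1 (n2 (n3 (n4 k))) with hm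
  have hmono : StrictMono m := hn1.comp (hn2.comp (hn3.comp hn4))
  have wU : WT (fun k => us (m k)) u := (wu2.subseq hn3).subseq hn4
  have wV : WT (fun k => vs (m k)) v := wv3.subseq hn4
  have aU : ∀ᵐ x, Tendsto (fun k => fn (us (m k)) x) atTop (𝓝 (fn u x)) := by
    filter_upwards [au] with x hx
    exact hx.comp hn4.tendsto_atTop
  have aV : ∀ᵐ x, Tendsto (fun k => fn (vs (m k)) x) atTop (𝓝 (fn v x)) := av4
  -- nontriviality
  have hu0 : fstL u ≠ 0 := by
    intro h0
    have h1 := (wU.tendsto_av hε 0).abs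
    have h2 : av ε (fn u) 0 = 0 := by
      rw [av_congr ((fst_eq_zero_iff u).1 h0)]
      simp [av]
    rw [h2, abs_zero] at h1
    have h3 : δ ≤ 0 := ge_of_tendsto h1 (Eventually.of_forall fun k => hav _)
    linarith
  have hA : 0 < pw (p + 1) u := pw_pos hN hq.le hp2.le hu0
  have hne : (u, v) ≠ 0 := ne_zero_of_pw (q := p + 1) (by linarith) hA
  -- splittings
  have sQ := Qf_split wU wV μ ν lam
  have sA := bl_pw hN hq.le hp2.le (fun k => hu (m k)) aU
  have sB := bl_pw hN hc.le le_rfl (fun k => hv (m k)) aV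
  have hQm := hQ.comp hmono.tendsto_atTop
  have hem := he.comp hmono.tendsto_atTop
  have hB0 : 0 ≤ pw (crit N) v := pw_nonneg _ _
  rcases le_total (Qf μ ν lam u v) (pw (p + 1) u + pw (crit N) v) with hcase | hcase
  · -- the weak limit gives the minimizer
    obtain ⟨t, ht, hmem, hle, _, hKt⟩ := exists_proj hN hp1 hp2 hμ hν hl hne
      (add_pos_of_pos_of_nonneg hA hB0)
    refine ⟨t • u, t • v, hmem, le_antisymm ?_ (mlevel_le hN hp1 hmem)⟩
    rw [hKt]
    refine (Kf_smul_le hN hp1 ht (hle hcase) u v).trans ?_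
    -- Kf u v ≤ mlevel
    have hlim : Tendsto (fun k => (1 / 2 - 1 / (p + 1)) * (pw (p + 1) (us (m k))
          - pw (p + 1) (us (m k) - u)) + (1 / 2 - 1 / crit N) * (pw (crit N) (vs (m k))
          - pw (crit N) (vs (m k) - v))) atTop (𝓝 (Kf p u v)) :=
      (sA.const_mul _).add (sB.const_mul _)
    have hlim2 : Tendsto (fun k => mlevel N p μ ν lam + e (m k)) atTop
        (𝓝 (mlevel N p μ ν lam)) := by
      simpa using hem.const_add (mlevel N p μ ν lam)
    refine le_of_tendsto_of_tendsto hlim hlim2 (Eventually.of_forall fun k => ?_)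
    refine le_trans ?_ (hK (m k))
    have h1 := mul_nonneg (kp_pos hp1).le (pw_nonneg (p + 1) (us (m k) - u))
    have h2 := mul_nonneg (ks_pos hN).le (pw_nonneg (crit N) (vs (m k) - v))
    unfold Kf
    linarith
  · rcases hcase.eq_or_lt with heq | hlt
    · -- same as before: equality case
      obtain ⟨t, ht, hmem, hle, _, hKt⟩ := exists_proj hN hp1 hp2 hμ hν hl hne
        (add_pos_of_pos_of_nonneg hA hB0)
      refine ⟨t • u, t • v, hmem, le_antisymm ?_ (mlevel_le hN hp1 hmem)⟩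
      rw [hKt]
      refine (Kf_smul_le hN hp1 ht (hle heq.ge) u v).trans ?_
      have hlim : Tendsto (fun k => (1 / 2 - 1 / (p + 1)) * (pw (p + 1) (us (m k))
            - pw (p + 1) (us (m k) - u)) + (1 / 2 - 1 / crit N) * (pw (crit N) (vs (m k))
            - pw (crit N) (vs (m k) - v))) atTop (𝓝 (Kf p u v)) :=
        (sA.const_mul _).add (sB.const_mul _)
      have hlim2 : Tendsto (fun k => mlevel N p μ ν lam + e (m k)) atTop
          (𝓝 (mlevel N p μ ν lam)) := by
        simpa using hem.const_add (mlevel N p μ ν lam)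
      refine le_of_tendsto_of_tendsto hlim hlim2 (Eventually.of_forall fun k => ?_)
      refine le_trans ?_ (hK (m k))
      have h1 := mul_nonneg (kp_pos hp1).le (pw_nonneg (p + 1) (us (m k) - u))
      have h2 := mul_nonneg (ks_pos hN).le (pw_nonneg (crit N) (vs (m k) - v))
      unfold Kf
      linarith
    · -- contradiction: the remainder would have smaller energy
      exfalso
      -- remainder: Q - a - b tends to a negative number
      have hrem : Tendsto (fun k => Qf μ ν lam (us (m k) - u) (vs (m k) - v)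
          - pw (p + 1) (us (m k) - u) - pw (crit N) (vs (m k) - v)) atTop
          (𝓝 (pw (p + 1) u + pw (crit N) v - Qf μ ν lam u v)) := by
        have h := ((hQm.sub sQ).add sA).add sB
        have e1 : 0 - Qf μ ν lam u v + pw (p + 1) u + pw (crit N) v
            = pw (p + 1) u + pw (crit N) v - Qf μ ν lam u v := by ring
        rw [e1] at h
        refine h.congr fun k => ?_
        simp only [Function.comp]
        ring
      have hneg : ∀ᶠ k in atTop, Qf μ ν lam (us (m k) - u) (vs (m k) - v)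
          - pw (p + 1) (us (m k) - u) - pw (crit N) (vs (m k) - v) < 0 :=
        hrem.eventually (gt_mem_nhds (by linarith))
      have hKlim : Tendsto (fun k => mlevel N p μ ν lam + e (m k) - ((1 / 2 - 1 / (p + 1)) *
            (pw (p + 1) (us (m k)) - pw (p + 1) (us (m k) - u)) + (1 / 2 - 1 / crit N) *
            (pw (crit N) (vs (m k)) - pw (crit N) (vs (m k) - v)))) atTop
          (𝓝 (mlevel N p μ ν lam - Kf p u v)) := by
        have h1 : Tendsto (fun k => mlevel N p μ ν lam + e (m k)) atTop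
            (𝓝 (mlevel N p μ ν lam)) := by
          simpa using hem.const_add (mlevel N p μ ν lam)
        exact h1.sub ((sA.const_mul _).add (sB.const_mul _))
      have hKpos : 0 < Kf p u v :=
        add_pos_of_pos_of_nonneg (mul_pos (kp_pos hp1) hA) (mul_nonneg (ks_pos hN).le hB0)
      have hcontra : mlevel N p μ ν lam ≤ mlevel N p μ ν lam - Kf p u v := by
        refine ge_of_tendsto hKlim ?_
        filter_upwards [hneg] with k hk
        have hz : (us (m k) - u, vs (m k) - v) ≠ 0 := by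
          intro h0
          rw [Prod.mk_eq_zero] at h0
          rw [h0.1, h0.2] at hk
          have z1 : Qf μ ν lam (0 : H1 N) 0 = 0 := by unfold Qf; simp
          have z2 : pw (p + 1) (0 : H1 N) = 0 := pw_eq_zero (by linarith) (map_zero _)
          have z3 : pw (crit N) (0 : H1 N) = 0 := pw_eq_zero (by linarith) (map_zero _)
          rw [z1, z2, z3] at hk
          linarith
        have h1 := mlevel_le_Kf hN hp1 hp2 hμ hν hl hz (by linarith)
        have h2 := hK (m k)
        unfold Kf at h1 h2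
        linarith
      linarith

/-- existence of a minimizer at the threshold coupling. -/
theorem exists_min_lamStar (hN : 3 ≤ N) {p : ℝ} (hp1 : 1 < p) (hp2 : p + 1 < crit N) {μ ν : ℝ}
    (hμ : mu0 N p < μ) (hν : 0 < ν) :
    ∃ U V : H1 N, (U, V) ∈ nehari N p μ ν (lamStar N p μ ν) ∧
      Kf p U V = mlevel N p μ ν (lamStar N p μ ν) := by
  have hm := mu0_pos hN hp1 hp2
  have hμ0 : 0 < μ := hm.trans hμ
  have hc := crit_gt hN
  have hq : 2 < p + 1 := by linarith
  set L := lamStar N p μ ν with hL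
  set R := √(μ * ν) with hR
  have hL0 : 0 < L := lamStar_pos hN hp1 hp2 hμ hν
  have hLR : L < R := lamStar_lt hN hp1 hp2 hμ hν
  have hR0 : 0 < R := hL0.trans hLR
  set θ := (L + R) / (2 * R) with hθ
  have hθ1 : θ < 1 := by
    rw [hθ, div_lt_one (by linarith)]; linarith
  have hθR : θ * R = (L + R) / 2 := by
    rw [hθ]; field_simp
  have habsL : |L| < √(μ * ν) := by rw [abs_of_pos hL0]; exact hLR
  -- the approximating couplings
  have hex : ∀ n : ℕ, ∃ l, L ≤ l ∧ l < L + min (1 / ((n : ℝ) + 1)) ((R - L) / 2) ∧ l < R ∧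
      mlevel N p μ ν l < cst N := by
    intro n
    exact exists_above hN hp1 hp2 hμ hν (lt_min (by positivity) (by linarith))
  choose l hl1 hl2 hl3 hl4 using hex
  have hlθ : ∀ n, |l n| ≤ θ * √(μ * ν) := by
    intro n
    rw [abs_of_pos (hL0.trans_le (hl1 n)), ← hR, hθR]
    have := hl2 n
    have h2 : min (1 / ((n : ℝ) + 1)) ((R - L) / 2) ≤ (R - L) / 2 := min_le_right _ _
    linarith
  have hlR : ∀ n, |l n| < √(μ * ν) := by
    intro n
    rw [abs_of_pos (hL0.trans_le (hl1 n))]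
    exact hl3 n
  have hlL : ∀ n, l n - L ≤ 1 / ((n : ℝ) + 1) := by
    intro n
    have := hl2 n
    have h2 : min (1 / ((n : ℝ) + 1)) ((R - L) / 2) ≤ 1 / ((n : ℝ) + 1) := min_le_left _ _
    linarith
  -- almost minimizers
  have hex2 : ∀ n : ℕ, ∃ u v : H1 N, (u, v) ∈ nehari N p μ ν (l n) ∧
      Kf p u v < min (cst N) (mlevel N p μ ν L + 1 / ((n : ℝ) + 1)) := by
    intro n
    apply exists_near hN hp1 (nehari_nonempty hN hp1 hp2 hμ0 hν (hlR n))
    apply lt_min (hl4 n)
    have h1 := mlevel_anti hN hp1 hp2 hμ0 hν hL0.le (hl1 n) (hl3 n)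
    have h2 : (0 : ℝ) < 1 / ((n : ℝ) + 1) := by positivity
    linarith
  choose us vs hmem hKn using hex2
  have hK1 : ∀ n, Kf p (us n) (vs n) < cst N := fun n => (hKn n).trans_le (min_le_left _ _)
  have hK2 : ∀ n, Kf p (us n) (vs n) ≤ mlevel N p μ ν L + 1 / ((n : ℝ) + 1) := fun n =>
    ((hKn n).trans_le (min_le_right _ _)).le
  -- bounds
  obtain ⟨a0, ha0, hpl⟩ := pw_lower hN hp1 hp2 hμ0 hν hθ1
  have hlow : ∀ n, a0 ≤ pw (p + 1) (us n) := fun n => hpl (l n) (hlθ n) _ _ (hmem n) (hK1 n)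
  have hkap := kap0_pos hμ0 hν hθ1
  set C := cst N / (1 / 2 - 1 / (p + 1)) + cst N / (1 / 2 - 1 / crit N) with hC
  have hkp := kp_pos hp1
  have hks := ks_pos hN
  have hab : ∀ n, pw (p + 1) (us n) + pw (crit N) (vs n) ≤ C := by
    intro n
    have h0 := hK1 n
    unfold Kf at h0
    have h1 := mul_nonneg hkp.le (pw_nonneg (p + 1) (us n))
    have h2 := mul_nonneg hks.le (pw_nonneg (crit N) (vs n))
    have h3 : pw (p + 1) (us n) ≤ cst N / (1 / 2 - 1 / (p + 1)) := by
      rw [le_div_iff₀ hkp]; linarith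
    have h4 : pw (crit N) (vs n) ≤ cst N / (1 / 2 - 1 / crit N) := by
      rw [le_div_iff₀ hks]; linarith
    rw [hC]; linarith
  have hQn : ∀ n, Qf μ ν (l n) (us n) (vs n) = pw (p + 1) (us n) + pw (crit N) (vs n) :=
    fun n => ((mem_nehari_iff hN hp1 μ ν (l n) _ _).1 (hmem n)).2
  have hbd : ∀ n, ‖us n‖ ^ 2 + ‖vs n‖ ^ 2 ≤ C / kap0 μ ν θ := by
    intro n
    rw [le_div_iff₀ hkap]
    have := Qf_coercive hμ0 hν hθ1 (hlθ n) (us n) (vs n)
    rw [hQn n] at this
    have h2 := hab n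
    linarith
  set M := √(C / kap0 μ ν θ) with hM
  have hbu : ∀ n, ‖us n‖ ≤ M := by
    intro n
    apply Real.le_sqrt_of_sq_le
    have := hbd n
    have := sq_nonneg ‖vs n‖
    linarith
  have hbv : ∀ n, ‖vs n‖ ≤ M := by
    intro n
    apply Real.le_sqrt_of_sq_le
    have := hbd n
    have := sq_nonneg ‖us n‖
    linarith
  -- non-vanishing
  obtain ⟨ε, hε, δ, hδ, hnv⟩ := nonvanishing hN hq hp2 (M := M) ha0
  have hx : ∀ n, ∃ x, δ ≤ |av ε (fn (us n)) x| := fun n => hnv _ (hbu n) (hlow n)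
  choose y hy using hx
  -- translate
  have hQtr : ∀ n, Qf μ ν L (tr (y n) (us n)) (tr (y n) (vs n)) = Qf μ ν L (us n) (vs n) := by
    intro n
    unfold Qf
    rw [norm_snd_tr, norm_fst_tr, norm_snd_tr, norm_fst_tr, inner_fst_tr]
  apply exists_minimizer hN hp1 hp2 hμ0 hν habsL (us := fun n => tr (y n) (us n))
    (vs := fun n => tr (y n) (vs n)) (M := M) hε hδ
    (fun n => by rw [norm_tr]; exact hbu n) (fun n => by rw [norm_tr]; exact hbv n)
    (e := fun n => 1 / ((n : ℝ) + 1)) ?_ tendsto_one_div_add_atTop_nhds_zero_nat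
    (fun n => by
      have := hK2 n
      unfold Kf at this ⊢
      rw [pw_tr, pw_tr]
      exact this)
    (fun n => by rw [av_tr, zero_add]; exact hy n)
  -- the quadratic form
  have e1 : ∀ n, Qf μ ν L (tr (y n) (us n)) (tr (y n) (vs n)) - pw (p + 1) (tr (y n) (us n))
      - pw (crit N) (tr (y n) (vs n)) = 2 * (l n - L) * ⟪fstL (us n), fstL (vs n)⟫_ℝ := by
    intro n
    rw [hQtr n, pw_tr, pw_tr]
    have h1 := hQn n
    unfold Qf at h1 ⊢
    linarith
  simp only [e1]
  apply squeeze_zero_norm (a := fun n : ℕ => 2 * (M * M) * (1 / ((n : ℝ) + 1)))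
  · intro n
    rw [Real.norm_eq_abs, abs_mul, abs_mul, abs_of_pos (by norm_num : (0 : ℝ) < 2),
      abs_of_nonneg (by linarith [hl1 n] : 0 ≤ l n - L)]
    have h1 : |⟪fstL (us n), fstL (vs n)⟫_ℝ| ≤ M * M := by
      refine (abs_real_inner_le_norm _ _).trans ?_
      exact mul_le_mul ((norm_fst_le _).trans (hbu n)) ((norm_fst_le _).trans (hbv n))
        (norm_nonneg _) (Real.sqrt_nonneg _)
    have h2 := hlL n
    have h3 : 0 ≤ l n - L := by linarith [hl1 n]
    have h4 : (l n - L) * |⟪fstL (us n), fstL (vs n)⟫_ℝ| ≤ 1 / ((n : ℝ) + 1) * (M * M) :=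
      mul_le_mul h2 h1 (abs_nonneg _) (by positivity)
    linarith
  · have := (tendsto_one_div_add_atTop_nhds_zero_nat (𝕜 := ℝ)).const_mul (2 * (M * M))
    simpa using this

/-- Existence of a ground state at the threshold coupling. -/
theorem exists_groundState_lamStar (hN : 3 ≤ N) {p : ℝ} (hp1 : 1 < p) (hp2 : p + 1 < crit N)
    {μ ν : ℝ} (hμ : mu0 N p < μ) (hν : 0 < ν) :
    ∃ U V : H1 N, IsGroundState p μ ν (lamStar N p μ ν) U V := by
  have hm := mu0_pos hN hp1 hp2
  obtain ⟨U, V, hmem, hK⟩ := exists_min_lamStar hN hp1 hp2 hμ hν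
  have habsL : |lamStar N p μ ν| < √(μ * ν) := by
    rw [abs_of_pos (lamStar_pos hN hp1 hp2 hμ hν)]
    exact lamStar_lt hN hp1 hp2 hμ hν
  refine ⟨U, V, isSolution_of_min hN hp1 hp2 (hm.trans hμ) hν habsL hmem hK, hmem, ?_⟩
  rw [energy_of_nehari hN hp1 hmem]
  exact hK

end Pool.Agent.GroundState
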