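import Pool.Agent.helper35.GS.Trans

set_option autoImplicit false

open MeasureTheory Filter Topology
open scoped ENNReal NNReal ContDiff Gradient InnerProductSpace

noncomputable section

namespace Pool.Agent.GroundState

variable {N : ℕ}

lemma exists_test : ∃ φ : E N → ℝ, IsTest φ ∧ φ 0 ≠ 0 := by
  let f : ContDiffBump (0 : E N) := ⟨1, 2, one_pos, one_lt_two⟩
  refine ⟨f, ⟨f.contDiff, f.hasCompactSupport⟩, ?_⟩
  have := f.one_of_mem_closedBall (x := 0) (by simp [f])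
  rw [this]; norm_num

lemma IsTest.integrable_rpow {φ : E N → ℝ} (h : IsTest φ) {q : ℝ} (hq : 0 < q) :
    Integrable (fun x => |φ x| ^ q) :=
  integrable_rpow_of_memLp hq (h.memLp _)

lemma IsTest.integrable_sq {φ : E N → ℝ} (h : IsTest φ) : Integrable (fun x => φ x ^ 2) :=
  (h.memLp 2).integrable_sq

lemma IsTest.integrable_grad_sq {φ : E N → ℝ} (h : IsTest φ) :
    Integrable (fun x => ‖∇ φ x‖ ^ 2) :=
  (h.memLp_gradient 2).integrable_norm_pow (by norm_num)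

lemma IsTest.integral_pos {φ : E N → ℝ} (h : IsTest φ) (h0 : φ 0 ≠ 0) {q : ℝ} (hq : 0 < q) :
    0 < ∫ x, |φ x| ^ q := by
  have hc : Continuous fun x => |φ x| ^ q :=
    h.1.continuous.abs.rpow_const fun _ => Or.inr hq.le
  refine hc.integral_pos_of_hasCompactSupport_nonneg_nonzero (x := 0) ?_ ?_ ?_
  · exact h.2.comp_left (g := fun t => |t| ^ q) (by simp [Real.zero_rpow hq.ne'])
  · exact fun x => Real.rpow_nonneg (abs_nonneg _) _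
  · exact (Real.rpow_pos_of_pos (abs_pos.2 h0) _).ne'

lemma pairOf_pw {w : H1 N} {φ : E N → ℝ} (h : IsPairOf (w : W N) φ) (q : ℝ) :
    pw q w = ∫ x, |φ x| ^ q := by
  unfold pw
  refine integral_congr_ae ?_
  filter_upwards [h.1] with x hx
  rw [show fn w x = φ x from hx]

lemma pairOf_fst {w : H1 N} {φ : E N → ℝ} (h : IsPairOf (w : W N) φ) :
    ‖fstL w‖ ^ 2 = ∫ x, φ x ^ 2 := by
  rw [norm_sq_fst]
  refine integral_congr_ae ?_
  filter_upwards [h.1] with x hx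
  rw [show fn w x = φ x from hx]

lemma pairOf_snd {w : H1 N} {φ : E N → ℝ} (h : IsPairOf (w : W N) φ) :
    ‖sndL w‖ ^ 2 = ∫ x, ‖∇ φ x‖ ^ 2 := by
  rw [norm_sq_snd]
  refine integral_congr_ae ?_
  filter_upwards [h.2] with x hx
  rw [show gr w x = ∇ φ x from hx]

/-- the largest constant in a family of inequalities `s * X i ≤ Y i`. -/
lemma sSup_spec {ι : Type*} {X Y : ι → ℝ} (hX : ∀ i, 0 ≤ X i) (hY : ∀ i, 0 ≤ Y i) (i : ι) :
    sSup {s : ℝ | ∀ i, s * X i ≤ Y i} * X i ≤ Y i := by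
  rcases (hX i).eq_or_lt with h | h
  · rw [← h, mul_zero]; exact hY i
  · rw [← le_div_iff₀ h]
    apply csSup_le
    · exact ⟨0, fun j => by rw [zero_mul]; exact hY j⟩
    · intro s hs
      rw [le_div_iff₀ h]
      exact hs i

lemma sSup_pos {ι : Type*} {X Y : ι → ℝ} {i : ι} (hi : 0 < X i) {s : ℝ} (hs : 0 < s)
    (h : ∀ i, s * X i ≤ Y i) : 0 < sSup {s : ℝ | ∀ i, s * X i ≤ Y i} := by
  refine hs.trans_le (le_csSup ⟨Y i / X i, fun t ht => ?_⟩ h)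
  rw [le_div_iff₀ hi]
  exact ht i

lemma sobS_eq : sobS N = sSup {s : ℝ | ∀ φ : {φ : E N → ℝ // IsTest φ},
    s * (∫ x, |φ.1 x| ^ crit N) ^ (2 / crit N) ≤ ∫ x, ‖∇ φ.1 x‖ ^ 2} := by
  unfold sobS
  congr 1
  ext s
  simp

lemma sobS_test (φ : E N → ℝ) (hφ : IsTest φ) :
    sobS N * (∫ x, |φ x| ^ crit N) ^ (2 / crit N) ≤ ∫ x, ‖∇ φ x‖ ^ 2 := by
  rw [sobS_eq]
  exact sSup_spec (ι := {φ : E N → ℝ // IsTest φ})
    (X := fun φ => (∫ x, |φ.1 x| ^ crit N) ^ (2 / crit N)) (Y := fun φ => ∫ x, ‖∇ φ.1 x‖ ^ 2)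
    (fun φ => Real.rpow_nonneg (integral_nonneg fun x => Real.rpow_nonneg (abs_nonneg _) _) _)
    (fun φ => integral_nonneg fun x => sq_nonneg _) ⟨φ, hφ⟩

lemma pw_rpow_eq (hN : 3 ≤ N) {q : ℝ} (h2 : 2 ≤ q) (hs : q ≤ crit N) (w : H1 N) :
    pw q w ^ (2 / q) = nq q w ^ 2 := by
  rw [pw_eq hN h2 hs, ← Real.rpow_mul (nq_nonneg _ _)]
  have : q * (2 / q) = 2 := by
    have : q ≠ 0 := by linarith
    field_simp
  rw [this, Real.rpow_two]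

/-- the sharp Sobolev inequality on `H¹`. -/
lemma sobS_ineq (hN : 3 ≤ N) (w : H1 N) :
    sobS N * pw (crit N) w ^ (2 / crit N) ≤ ‖sndL w‖ ^ 2 := by
  have hc := crit_gt hN
  obtain ⟨φ, ws, hφ, hp, hl⟩ := exists_seq w
  have key : ∀ n, sobS N * nq (crit N) (ws n) ^ 2 ≤ ‖sndL (ws n)‖ ^ 2 := by
    intro n
    rw [← pw_rpow_eq hN hc.le le_rfl, pairOf_snd (hp n), pairOf_pw (hp n)]
    exact sobS_test _ (hφ n)
  rw [pw_rpow_eq hN hc.le le_rfl]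
  have c1 : Tendsto (fun n => sobS N * nq (crit N) (ws n) ^ 2) atTop
      (𝓝 (sobS N * nq (crit N) w ^ 2)) := by
    have hcont : Continuous fun w : H1 N => sobS N * nq (crit N) w ^ 2 :=
      continuous_const.mul ((continuous_nq hN hc.le le_rfl).pow 2)
    exact (hcont.tendsto w).comp hl
  have c2 : Tendsto (fun n => ‖sndL (ws n)‖ ^ 2) atTop (𝓝 (‖sndL w‖ ^ 2)) := by
    have hcont : Continuous fun w : H1 N => ‖sndL w‖ ^ 2 := by fun_prop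
    exact (hcont.tendsto w).comp hl
  exact le_of_tendsto_of_tendsto' c1 c2 key

lemma sobS_pos (hN : 3 ≤ N) : 0 < sobS N := by
  have hc := crit_gt hN
  obtain ⟨φ, hφ, h0⟩ := exists_test (N := N)
  rw [sobS_eq]
  have hs : (0 : ℝ) < ((sobK N : ℝ) ^ 2 + 1)⁻¹ := by positivity
  refine sSup_pos (ι := {φ : E N → ℝ // IsTest φ})
    (X := fun φ => (∫ x, |φ.1 x| ^ crit N) ^ (2 / crit N)) (Y := fun φ => ∫ x, ‖∇ φ.1 x‖ ^ 2)
    (i := ⟨φ, hφ⟩) (Real.rpow_pos_of_pos (hφ.integral_pos h0 (by linarith)) _) hs ?_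
  rintro ⟨ψ, hψ⟩
  obtain ⟨w, hw⟩ := exists_pair hψ
  simp only
  rw [← pairOf_pw hw, ← pairOf_snd hw, pw_rpow_eq hN hc.le le_rfl, inv_mul_le_iff₀ (by positivity)]
  have h1 := nq_crit_le hN w
  have h2 : nq (crit N) w ^ 2 ≤ (sobK N * ‖sndL w‖) ^ 2 :=
    pow_le_pow_left₀ (nq_nonneg _ _) h1 2
  nlinarith [sq_nonneg ‖sndL w‖]

lemma sobC_eq (q : ℝ) : sobC N q = sSup {s : ℝ | ∀ u : H1 N, s * pw q u ^ (2 / q) ≤ ‖u‖ ^ 2} := by
  unfold sobC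
  congr 1
  ext s
  have : ∀ u : H1 N, (∫ x, (‖gr u x‖ ^ 2 + fn u x ^ 2)) = ‖u‖ ^ 2 := by
    intro u
    rw [integral_add (integrable_sq_gr u) (integrable_sq_fn u), norm_sq_H1, norm_sq_fst,
      norm_sq_snd, add_comm]
  simp only [this]
  rfl

lemma sobC_ineq {q : ℝ} (u : H1 N) : sobC N q * pw q u ^ (2 / q) ≤ ‖u‖ ^ 2 := by
  rw [sobC_eq]
  exact sSup_spec (X := fun u : H1 N => pw q u ^ (2 / q)) (Y := fun u => ‖u‖ ^ 2)
    (fun u => Real.rpow_nonneg (pw_nonneg _ _) _) (fun u => sq_nonneg _) u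

lemma sobC_pos (hN : 3 ≤ N) {q : ℝ} (h2 : 2 ≤ q) (hs : q ≤ crit N) : 0 < sobC N q := by
  obtain ⟨φ, hφ, h0⟩ := exists_test (N := N)
  obtain ⟨w, hw⟩ := exists_pair hφ
  rw [sobC_eq]
  have hM := sobM_pos (N := N)
  refine sSup_pos (X := fun u : H1 N => pw q u ^ (2 / q)) (Y := fun u => ‖u‖ ^ 2) (i := w) ?_
    (show 0 < ((sobM N) ^ 2)⁻¹ by positivity) ?_
  · apply Real.rpow_pos_of_pos
    rw [pairOf_pw hw]
    exact hφ.integral_pos h0 (by linarith)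
  · intro u
    rw [pw_rpow_eq hN h2 hs, inv_mul_le_iff₀ (by positivity), ← mul_pow]
    exact pow_le_pow_left₀ (nq_nonneg _ _) (nq_le hN h2 hs u) 2

/-! ### dilations of test functions -/

/-- dilated function. -/
def dil (c : ℝ) (φ : E N → ℝ) : E N → ℝ := fun x => φ (c • x)

lemma IsTest.dil {φ : E N → ℝ} (h : IsTest φ) {c : ℝ} (hc : c ≠ 0) : IsTest (dil c φ) := by
  have h1 : ContDiff ℝ ∞ (fun x : E N => c • x) := contDiff_id.const_smul c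
  refine ⟨h.1.comp h1, ?_⟩
  exact h.2.comp_homeomorph (Homeomorph.smulOfNeZero c hc)

lemma dil_grad {φ : E N → ℝ} (c : ℝ) (x : E N) : ∇ (dil c φ) x = c • ∇ φ (c • x) := by
  unfold gradient dil
  rw [fderiv_comp_smul, map_smul]

lemma dil_int {c : ℝ} (hc : 0 < c) (f : E N → ℝ) : ∫ x, f (c • x) = (c ^ N)⁻¹ * ∫ x, f x := by
  have := Measure.integral_comp_smul_of_nonneg (volume : Measure (E N)) f c (hR := hc.le)
  simpa using this

lemma dil_pw {c : ℝ} (hc : 0 < c) (φ : E N → ℝ) (q : ℝ) :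
    ∫ x, |dil c φ x| ^ q = (c ^ N)⁻¹ * ∫ x, |φ x| ^ q :=
  dil_int hc (fun x => |φ x| ^ q)

lemma dil_sq {c : ℝ} (hc : 0 < c) (φ : E N → ℝ) :
    ∫ x, dil c φ x ^ 2 = (c ^ N)⁻¹ * ∫ x, φ x ^ 2 :=
  dil_int hc (fun x => φ x ^ 2)

lemma dil_grad_sq {c : ℝ} (hc : 0 < c) (φ : E N → ℝ) :
    ∫ x, ‖∇ (dil c φ) x‖ ^ 2 = c ^ 2 * (c ^ N)⁻¹ * ∫ x, ‖∇ φ x‖ ^ 2 := by
  have h1 : ∀ x, ‖∇ (dil c φ) x‖ ^ 2 = c ^ 2 * ‖∇ φ (c • x)‖ ^ 2 := by
    intro x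
    rw [dil_grad, norm_smul, mul_pow, Real.norm_eq_abs, sq_abs]
  simp only [h1]
  rw [integral_const_mul, dil_int hc (fun x => ‖∇ φ x‖ ^ 2), mul_assoc]

/-- the scaled inequality: `∫|∇u|² + m ∫u² ≥ C_q m^{1-N/2+N/q} (∫|u|^q)^{2/q}`. -/
lemma sobC_scaled (hN : 3 ≤ N) {q : ℝ} (h2 : 2 ≤ q) (hs : q ≤ crit N) {m : ℝ} (hm : 0 < m)
    (u : H1 N) :
    m ^ (1 - (N : ℝ) / 2 + N / q) * (sobC N q * pw q u ^ (2 / q))
      ≤ ‖sndL u‖ ^ 2 + m * ‖fstL u‖ ^ 2 := by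
  have hq0 : 0 < q := by linarith
  set c : ℝ := m ^ (-(1 / 2 : ℝ)) with hcdef
  have hc : 0 < c := Real.rpow_pos_of_pos hm _
  have hc2 : c ^ 2 = m⁻¹ := by
    rw [hcdef, ← Real.rpow_natCast, ← Real.rpow_mul hm.le, ← Real.rpow_neg_one]
    norm_num
  have hcN : c ^ N = m ^ (-((N : ℝ) / 2)) := by
    rw [hcdef, ← Real.rpow_natCast, ← Real.rpow_mul hm.le]
    congr 1; ring
  have key : ∀ w : H1 N, ∀ φ : E N → ℝ, IsTest φ → IsPairOf (w : W N) φ →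
      m ^ (1 - (N : ℝ) / 2 + N / q) * (sobC N q * pw q w ^ (2 / q))
        ≤ ‖sndL w‖ ^ 2 + m * ‖fstL w‖ ^ 2 := by
    intro w φ hφ hw
    obtain ⟨w', hw'⟩ := exists_pair (hφ.dil hc.ne')
    have h := sobC_ineq (q := q) w'
    rw [norm_sq_H1, pairOf_pw hw', pairOf_fst hw', pairOf_snd hw', dil_pw hc, dil_sq hc,
      dil_grad_sq hc, ← pairOf_pw hw, ← pairOf_fst hw, ← pairOf_snd hw] at h
    -- multiply by `c^N * m`
    have hcN0 : 0 < c ^ N := by positivity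
    have h' := mul_le_mul_of_nonneg_left h (show 0 ≤ c ^ N * m by positivity)
    have e1 : c ^ N * m * ((c ^ N)⁻¹ * ‖fstL w‖ ^ 2 + c ^ 2 * (c ^ N)⁻¹ * ‖sndL w‖ ^ 2)
        = ‖sndL w‖ ^ 2 + m * ‖fstL w‖ ^ 2 := by
      rw [hc2]; field_simp; ring
    rw [e1] at h'
    refine le_trans (le_of_eq ?_) h'
    rw [Real.mul_rpow (by positivity) (pw_nonneg _ _), hcN, ← Real.rpow_neg hm.le,
      ← Real.rpow_mul hm.le]
    have e2 : m ^ (1 - (N : ℝ) / 2 + N / q)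
        = m ^ (-((N : ℝ) / 2)) * m * m ^ (-(-((N : ℝ) / 2)) * (2 / q)) := by
      nth_rewrite 3 [← Real.rpow_one m]
      rw [← Real.rpow_add hm, ← Real.rpow_add hm]
      congr 1
      field_simp
      ring
    rw [e2]; ring
  obtain ⟨φ, ws, hφ, hp, hl⟩ := exists_seq u
  have c1 : Tendsto (fun n => m ^ (1 - (N : ℝ) / 2 + N / q) * (sobC N q * nq q (ws n) ^ 2)) atTop
      (𝓝 (m ^ (1 - (N : ℝ) / 2 + N / q) * (sobC N q * nq q u ^ 2))) := by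
    have hcont : Continuous fun w : H1 N =>
        m ^ (1 - (N : ℝ) / 2 + N / q) * (sobC N q * nq q w ^ 2) :=
      continuous_const.mul (continuous_const.mul ((continuous_nq hN h2 hs).pow 2))
    exact (hcont.tendsto u).comp hl
  have c2 : Tendsto (fun n => ‖sndL (ws n)‖ ^ 2 + m * ‖fstL (ws n)‖ ^ 2) atTop
      (𝓝 (‖sndL u‖ ^ 2 + m * ‖fstL u‖ ^ 2)) := by
    have hcont : Continuous fun w : H1 N => ‖sndL w‖ ^ 2 + m * ‖fstL w‖ ^ 2 := by fun_prop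
    exact (hcont.tendsto u).comp hl
  rw [pw_rpow_eq hN h2 hs]
  refine le_of_tendsto_of_tendsto' c1 c2 fun n => ?_
  rw [← pw_rpow_eq hN h2 hs]
  exact key _ _ (hφ n) (hp n)

end Pool.Agent.GroundState
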