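import Pool.Agent.helper35.GS.Basic

set_option autoImplicit false

open MeasureTheory Filter Topology
open scoped ENNReal NNReal ContDiff Gradient InnerProductSpace

noncomputable section

namespace Pool.Agent.GroundState

variable {N : ℕ}

lemma crit_gt (hN : 3 ≤ N) : 2 < crit N := by
  have h : (3 : ℝ) ≤ N := by exact_mod_cast hN
  unfold crit
  rw [lt_div_iff₀ (by linarith)]
  linarith

lemma sobolev_test (hN : 3 ≤ N) : ∃ C : ℝ≥0, ∀ φ : E N → ℝ, IsTest φ →
    eLpNorm φ (ENNReal.ofReal (crit N)) volume ≤ C * eLpNorm (fun x => ∇ φ x) 2 volume := by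
  refine ⟨SNormLESNormFDerivOfEqConst ℝ (volume : Measure (E N)) (2 : ℝ≥0), fun φ hφ => ?_⟩
  have h3 : (3 : ℝ) ≤ N := by exact_mod_cast hN
  have hc := crit_gt hN
  have e1 : eLpNorm (fun x => ∇ φ x) 2 volume = eLpNorm (fderiv ℝ φ) 2 volume :=
    eLpNorm_congr_norm_ae (Eventually.of_forall fun x => norm_gradient x)
  rw [e1]
  have hfr : Module.finrank ℝ (E N) = N := by simp
  have h := eLpNorm_le_eLpNorm_fderiv_of_eq (F := ℝ) (volume : Measure (E N))
    (u := φ) (hφ.1.of_le (by simp)) hφ.2 (p := 2) (p' := Real.toNNReal (crit N)) (by norm_num)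
    (by rw [hfr]; omega)
    (by
      rw [Real.coe_toNNReal _ (by linarith), hfr]
      unfold crit
      have : (N : ℝ) ≠ 0 := by linarith
      have : (N : ℝ) - 2 ≠ 0 := by linarith
      push_cast
      field_simp)
  simpa [ENNReal.ofReal] using h

/-- A Sobolev constant. -/
lemma sobolev_H1 (hN : 3 ≤ N) : ∃ C : ℝ≥0, ∀ w : H1 N,
    eLpNorm (fn w) (ENNReal.ofReal (crit N)) volume ≤ C * ENNReal.ofReal ‖sndL w‖ := by
  obtain ⟨C, hC⟩ := sobolev_test hN
  refine ⟨C, fun w => ?_⟩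
  obtain ⟨φ, ws, hφ, hp, hl⟩ := exists_seq w
  obtain ⟨ns, hns, hae⟩ := exists_ae_subseq hl
  have hb : ∀ k, eLpNorm (fn (ws (ns k))) (ENNReal.ofReal (crit N)) volume
      ≤ C * ENNReal.ofReal ‖sndL (ws (ns k))‖ := by
    intro k
    rw [← eLpNorm_gr]
    have e1 : eLpNorm (fn (ws (ns k))) (ENNReal.ofReal (crit N)) volume
        = eLpNorm (φ (ns k)) (ENNReal.ofReal (crit N)) volume :=
      eLpNorm_congr_ae (hp (ns k)).1
    have e2 : eLpNorm (gr (ws (ns k))) 2 volume = eLpNorm (fun x => ∇ (φ (ns k)) x) 2 volume :=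
      eLpNorm_congr_ae (hp (ns k)).2
    rw [e1, e2]
    exact hC _ (hφ _)
  have hlim : Tendsto (fun k => (C : ℝ≥0∞) * ENNReal.ofReal ‖sndL (ws (ns k))‖) atTop
      (𝓝 (C * ENNReal.ofReal ‖sndL w‖)) := by
    apply ENNReal.Tendsto.const_mul _ (Or.inr ENNReal.coe_ne_top)
    apply ENNReal.tendsto_ofReal
    exact ((sndL.continuous.norm.tendsto w).comp hl).comp hns.tendsto_atTop
  refine (Lp.eLpNorm_lim_le_liminf_eLpNorm (fun k => aesm_fn _) (fn w) hae).trans ?_
  rw [← hlim.liminf_eq]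
  exact liminf_le_liminf (Eventually.of_forall hb)

/-- The constant of the Sobolev inequality. -/
def sobK (N : ℕ) : ℝ≥0 := if h : 3 ≤ N then (sobolev_H1 h).choose else 0

lemma sobK_spec (hN : 3 ≤ N) (w : H1 N) :
    eLpNorm (fn w) (ENNReal.ofReal (crit N)) volume ≤ sobK N * ENNReal.ofReal ‖sndL w‖ := by
  unfold sobK
  rw [dif_pos hN]
  exact (sobolev_H1 hN).choose_spec w

lemma memLp_crit (hN : 3 ≤ N) (w : H1 N) : MemLp (fn w) (ENNReal.ofReal (crit N)) volume := by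
  refine ⟨aesm_fn w, (sobK_spec hN w).trans_lt ?_⟩
  exact ENNReal.mul_lt_top ENNReal.coe_lt_top ENNReal.ofReal_lt_top

lemma integrable_rpow_of_memLp {f : E N → ℝ} {q : ℝ} (hq : 0 < q)
    (h : MemLp f (ENNReal.ofReal q) volume) : Integrable (fun x => |f x| ^ q) := by
  have := h.integrable_norm_rpow (by simpa using hq) ENNReal.ofReal_ne_top
  simpa [ENNReal.toReal_ofReal hq.le] using this

lemma memLp_of_integrable_rpow {f : E N → ℝ} {q : ℝ} (hq : 0 < q)
    (hm : AEStronglyMeasurable f volume)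
    (h : Integrable (fun x => |f x| ^ q)) : MemLp f (ENNReal.ofReal q) volume := by
  rw [← integrable_norm_rpow_iff hm (by simpa using hq) ENNReal.ofReal_ne_top]
  simpa [ENNReal.toReal_ofReal hq.le] using h

lemma rpow_le_add {x q s : ℝ} (hx : 0 ≤ x) (h2 : 2 ≤ q) (hs : q ≤ s) :
    x ^ q ≤ x ^ 2 + x ^ s := by
  rcases le_total x 1 with h | h
  · have h1 : x ^ q ≤ x ^ (2 : ℝ) := by
      rcases hx.eq_or_lt with h0 | h0
      · rw [← h0, Real.zero_rpow (by linarith), Real.zero_rpow (by norm_num)]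
      · exact Real.rpow_le_rpow_of_exponent_ge h0 h h2
    have h3 : 0 ≤ x ^ s := Real.rpow_nonneg hx _
    rw [Real.rpow_two] at h1
    linarith
  · have h1 : x ^ q ≤ x ^ s := Real.rpow_le_rpow_of_exponent_le h hs
    nlinarith [sq_nonneg x]

lemma memLp_mid (hN : 3 ≤ N) {q : ℝ} (h2 : 2 ≤ q) (hs : q ≤ crit N) (w : H1 N) :
    MemLp (fn w) (ENNReal.ofReal q) volume := by
  have hc := crit_gt hN
  apply memLp_of_integrable_rpow (by linarith) (aesm_fn w)
  have i2 := integrable_sq_fn w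
  have is := integrable_rpow_of_memLp (by linarith) (memLp_crit hN w)
  refine (i2.add is).mono ?_ (Eventually.of_forall fun x => ?_)
  · exact ((aesm_fn w).norm.aemeasurable.pow_const q).aestronglyMeasurable
  · have h0 : 0 ≤ |fn w x| ^ q := Real.rpow_nonneg (abs_nonneg _) _
    have h1 := rpow_le_add (abs_nonneg (fn w x)) h2 hs
    have h3 : 0 ≤ |fn w x| ^ crit N := Real.rpow_nonneg (abs_nonneg _) _
    rw [sq_abs] at h1
    rw [Real.norm_of_nonneg h0]
    refine h1.trans ?_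
    simp only [Pi.add_apply]
    exact le_abs_self _

/-- `∫ |u|^q`. -/
def pw (q : ℝ) (w : H1 N) : ℝ := ∫ x, |fn w x| ^ q

/-- the `L^q` norm. -/
def nq (q : ℝ) (w : H1 N) : ℝ := (eLpNorm (fn w) (ENNReal.ofReal q) volume).toReal

lemma nq_nonneg (q : ℝ) (w : H1 N) : 0 ≤ nq q w := ENNReal.toReal_nonneg

lemma pw_nonneg (q : ℝ) (w : H1 N) : 0 ≤ pw q w :=
  integral_nonneg fun x => Real.rpow_nonneg (abs_nonneg _) _

lemma pw_eq (hN : 3 ≤ N) {q : ℝ} (h2 : 2 ≤ q) (hs : q ≤ crit N) (w : H1 N) :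
    pw q w = nq q w ^ q := by
  have hq : 0 < q := by linarith
  have h := (memLp_mid hN h2 hs w).eLpNorm_eq_integral_rpow_norm (by simpa using hq)
    ENNReal.ofReal_ne_top
  rw [ENNReal.toReal_ofReal hq.le] at h
  unfold nq
  rw [h, ENNReal.toReal_ofReal (Real.rpow_nonneg (integral_nonneg fun x => Real.rpow_nonneg
    (norm_nonneg _) _) _), ← Real.rpow_mul (integral_nonneg fun x => Real.rpow_nonneg
    (norm_nonneg _) _), inv_mul_cancel₀ hq.ne', Real.rpow_one]
  rfl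

lemma integrable_pw (hN : 3 ≤ N) {q : ℝ} (h2 : 2 ≤ q) (hs : q ≤ crit N) (w : H1 N) :
    Integrable (fun x => |fn w x| ^ q) :=
  integrable_rpow_of_memLp (by linarith) (memLp_mid hN h2 hs w)

lemma nq_add_le (hN : 3 ≤ N) {q : ℝ} (h2 : 2 ≤ q) (hs : q ≤ crit N) (u v : H1 N) :
    nq q (u + v) ≤ nq q u + nq q v := by
  unfold nq
  rw [eLpNorm_congr_ae (fn_add u v), ← ENNReal.toReal_add (memLp_mid hN h2 hs u).2.ne
    (memLp_mid hN h2 hs v).2.ne]
  apply ENNReal.toReal_mono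
  · exact ENNReal.add_ne_top.2 ⟨(memLp_mid hN h2 hs u).2.ne, (memLp_mid hN h2 hs v).2.ne⟩
  · exact eLpNorm_add_le (aesm_fn u) (aesm_fn v) (by
      rw [← ENNReal.ofReal_one]
      exact ENNReal.ofReal_le_ofReal (by linarith))

lemma nq_smul (q c : ℝ) (u : H1 N) : nq q (c • u) = |c| * nq q u := by
  unfold nq
  rw [eLpNorm_congr_ae (fn_smul c u)]
  have : (fun x => c * fn u x) = c • fn u := rfl
  rw [this, eLpNorm_const_smul, ENNReal.toReal_mul]
  simp

lemma nq_neg (q : ℝ) (u : H1 N) : nq q (-u) = nq q u := by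
  have := nq_smul q (-1) u
  simpa using this

lemma nq_crit_le (hN : 3 ≤ N) (w : H1 N) : nq (crit N) w ≤ sobK N * ‖sndL w‖ := by
  unfold nq
  have := ENNReal.toReal_mono (ENNReal.mul_lt_top ENNReal.coe_lt_top ENNReal.ofReal_lt_top).ne
    (sobK_spec hN w)
  rwa [ENNReal.toReal_mul, ENNReal.coe_toReal, ENNReal.toReal_ofReal (norm_nonneg _)] at this

lemma nq_le_of_norm_le_one (hN : 3 ≤ N) {q : ℝ} (h2 : 2 ≤ q) (hs : q ≤ crit N) (w : H1 N)
    (hw : ‖w‖ ≤ 1) : nq q w ≤ 1 + (sobK N : ℝ) ^ crit N := by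
  have hc := crit_gt hN
  have hK : 0 ≤ (sobK N : ℝ) ^ crit N := Real.rpow_nonneg (by positivity) _
  have h1 : pw q w ≤ 1 + (sobK N : ℝ) ^ crit N := by
    have e : pw q w ≤ (∫ x, fn w x ^ 2) + pw (crit N) w := by
      unfold pw
      rw [← integral_add (integrable_sq_fn w) (integrable_pw hN (by linarith) le_rfl w)]
      refine integral_mono (integrable_pw hN h2 hs w) ((integrable_sq_fn w).add
        (integrable_pw hN (by linarith) le_rfl w)) fun x => ?_
      have h1 := rpow_le_add (abs_nonneg (fn w x)) h2 hs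
      rwa [sq_abs] at h1
    have e1 : (∫ x, fn w x ^ 2) ≤ 1 := by
      rw [← norm_sq_fst]
      have := norm_fst_le w
      have h0 : 0 ≤ ‖fstL w‖ := norm_nonneg _
      nlinarith
    have e2 : pw (crit N) w ≤ (sobK N : ℝ) ^ crit N := by
      rw [pw_eq hN (by linarith) le_rfl]
      apply Real.rpow_le_rpow (nq_nonneg _ _) _ (by linarith)
      refine (nq_crit_le hN w).trans ?_
      have := (norm_snd_le w).trans hw
      have hk : (0 : ℝ) ≤ sobK N := by positivity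
      nlinarith
    linarith
  rw [pw_eq hN h2 hs] at h1
  by_contra hcon
  push Not at hcon
  have h3 : (1 : ℝ) ≤ nq q w := by linarith
  have h4 : nq q w ^ (1 : ℝ) ≤ nq q w ^ q := Real.rpow_le_rpow_of_exponent_le h3 (by linarith)
  rw [Real.rpow_one] at h4
  linarith

/-- the constant in `‖u‖_q ≤ K ‖u‖_{H¹}`. -/
def sobM (N : ℕ) : ℝ := 1 + (sobK N : ℝ) ^ crit N

lemma sobM_pos : 0 < sobM N := by
  unfold sobM
  have : 0 ≤ (sobK N : ℝ) ^ crit N := Real.rpow_nonneg (by positivity) _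
  linarith

lemma nq_le (hN : 3 ≤ N) {q : ℝ} (h2 : 2 ≤ q) (hs : q ≤ crit N) (w : H1 N) :
    nq q w ≤ sobM N * ‖w‖ := by
  rcases eq_or_ne w 0 with rfl | hw
  · have : nq q (0 : H1 N) = 0 := by
      have := nq_smul q 0 (0 : H1 N)
      simpa using this
    rw [this]; simp
  · have h0 : 0 < ‖w‖ := norm_pos_iff.2 hw
    have h1 := nq_le_of_norm_le_one hN h2 hs (‖w‖⁻¹ • w) (by
      rw [norm_smul, norm_inv, norm_norm, inv_mul_cancel₀ h0.ne'])
    rw [nq_smul, abs_of_pos (inv_pos.2 h0)] at h1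
    have h2 : nq q w = ‖w‖ * (‖w‖⁻¹ * nq q w) := by field_simp
    rw [h2, mul_comm (sobM N)]
    exact mul_le_mul_of_nonneg_left h1 h0.le

lemma pw_le (hN : 3 ≤ N) {q : ℝ} (h2 : 2 ≤ q) (hs : q ≤ crit N) (w : H1 N) :
    pw q w ≤ sobM N ^ q * ‖w‖ ^ q := by
  rw [pw_eq hN h2 hs, ← Real.mul_rpow sobM_pos.le (norm_nonneg _)]
  exact Real.rpow_le_rpow (nq_nonneg _ _) (nq_le hN h2 hs w) (by linarith)

lemma continuous_nq (hN : 3 ≤ N) {q : ℝ} (h2 : 2 ≤ q) (hs : q ≤ crit N) :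
    Continuous (nq q : H1 N → ℝ) := by
  have hK : (0 : ℝ) ≤ sobM N := sobM_pos.le
  apply LipschitzWith.continuous (K := (sobM N).toNNReal)
  apply LipschitzWith.of_dist_le_mul
  intro u v
  rw [Real.coe_toNNReal _ hK, Real.dist_eq, dist_eq_norm, abs_le]
  have h1 := nq_add_le hN h2 hs (u - v) v
  have h2' := nq_add_le hN h2 hs (v - u) u
  rw [sub_add_cancel] at h1 h2'
  have h3 : nq q (v - u) = nq q (u - v) := by
    rw [← nq_neg, neg_sub]
  have h4 := nq_le hN h2 hs (u - v)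
  constructor <;> linarith

lemma continuous_pw (hN : 3 ≤ N) {q : ℝ} (h2 : 2 ≤ q) (hs : q ≤ crit N) :
    Continuous (pw q : H1 N → ℝ) := by
  have : (pw q : H1 N → ℝ) = fun w => nq q w ^ q := funext fun w => pw_eq hN h2 hs w
  rw [this]
  exact (continuous_nq hN h2 hs).rpow_const fun _ => Or.inr (by linarith)

lemma pw_smul (hN : 3 ≤ N) {q : ℝ} (h2 : 2 ≤ q) (hs : q ≤ crit N) (c : ℝ) (w : H1 N) :
    pw q (c • w) = |c| ^ q * pw q w := by
  rw [pw_eq hN h2 hs, pw_eq hN h2 hs, nq_smul, Real.mul_rpow (abs_nonneg _) (nq_nonneg _ _)]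

lemma pw_neg (hN : 3 ≤ N) {q : ℝ} (h2 : 2 ≤ q) (hs : q ≤ crit N) (w : H1 N) :
    pw q (-w) = pw q w := by
  rw [pw_eq hN h2 hs, pw_eq hN h2 hs, nq_neg]

lemma fst_eq_zero_iff (w : H1 N) : fstL w = 0 ↔ fn w =ᵐ[volume] fun _ => 0 := by
  rw [fn_eq]
  exact Lp.eq_zero_iff_ae_eq_zero

lemma pw_pos (hN : 3 ≤ N) {q : ℝ} (h2 : 2 ≤ q) (hs : q ≤ crit N) {w : H1 N}
    (hw : fstL w ≠ 0) : 0 < pw q w := by
  rcases (pw_nonneg q w).eq_or_lt with h | h
  · exfalso
    apply hw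
    rw [fst_eq_zero_iff]
    have h1 := (integral_eq_zero_iff_of_nonneg (fun x => Real.rpow_nonneg (abs_nonneg (fn w x)) q)
      (integrable_pw hN h2 hs w)).1 h.symm
    filter_upwards [h1] with x hx
    have : |fn w x| ^ q = 0 := hx
    rw [Real.rpow_eq_zero_iff_of_nonneg (abs_nonneg _)] at this
    exact abs_eq_zero.1 this.1
  · exact h

lemma pw_eq_zero {q : ℝ} (hq : 0 < q) {w : H1 N} (hw : fstL w = 0) : pw q w = 0 := by
  unfold pw
  rw [fst_eq_zero_iff] at hw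
  rw [integral_congr_ae (g := fun _ => (0 : ℝ))]
  · simp
  · filter_upwards [hw] with x hx
    rw [hx, abs_zero, Real.zero_rpow hq.ne']

/-- in `H¹` the function determines the gradient: if `u = 0` then `w = 0`. We only need it
under a vanishing gradient, or through the Sobolev inequality. -/
lemma fst_eq_zero_of_snd (hN : 3 ≤ N) {w : H1 N} (h : sndL w = 0) : w = 0 := by
  have hc := crit_gt hN
  have h1 := nq_crit_le hN w
  rw [h, norm_zero, mul_zero] at h1
  have h2 : nq (crit N) w = 0 := le_antisymm h1 (nq_nonneg _ _)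
  have h3 : pw (crit N) w = 0 := by
    rw [pw_eq hN (by linarith) le_rfl, h2, Real.zero_rpow (by linarith)]
  have h4 : fstL w = 0 := by
    by_contra hcon
    exact absurd h3 (pw_pos hN (by linarith) le_rfl hcon).ne'
  have h5 := norm_sq_H1 w
  rw [h, h4] at h5
  simpa using h5

end Pool.Agent.GroundState
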