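import Mathlib

/-!
The objects of problem MP_e9346b_an: the energy functional of the linearly coupled critical system
`-Δu + μu = |u|^{p-1}u + λv`, `-Δv + νv = |v|^{2*-2}v + λu` on `H¹(ℝ^N) × H¹(ℝ^N)`.
-/

set_option autoImplicit false

open MeasureTheory Filter Topology
open scoped ENNReal ContDiff Gradient InnerProductSpace

noncomputable section

namespace Pool.Agent.CoupledSystem

/-- Euclidean space `ℝ^N`. -/
abbrev E (N : ℕ) : Type := EuclideanSpace ℝ (Fin N)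

/-- Test functions: smooth functions with compact support. -/
def IsTest {N : ℕ} (φ : E N → ℝ) : Prop := ContDiff ℝ ∞ φ ∧ HasCompactSupport φ

/-- An element of the Sobolev space `H¹(ℝ^N)`: a function `fn ∈ L²` with weak gradient `gr ∈ L²`,
where `(fn, gr)` is the limit in `L²` of pairs `(φ_n, ∇φ_n)` with test functions `φ_n`. -/
structure H1 (N : ℕ) where
  /-- the function -/
  fn : E N → ℝ
  /-- its weak gradient -/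
  gr : E N → E N
  fn_memLp : MemLp fn 2 volume
  gr_memLp : MemLp gr 2 volume
  approx : ∃ φ : ℕ → E N → ℝ, (∀ n, IsTest (φ n)) ∧
    Tendsto (fun n => ∫ x, (φ n x - fn x) ^ 2) atTop (𝓝 0) ∧
    Tendsto (fun n => ∫ x, ‖∇ (φ n) x - gr x‖ ^ 2) atTop (𝓝 0)

/-- The critical exponent `2* = 2N/(N-2)`. -/
def crit (N : ℕ) : ℝ := 2 * N / (N - 2)

/-- The energy functional `I_{μ,ν,λ}(u,v)`. -/
def energy {N : ℕ} (p μ ν lam : ℝ) (u v : H1 N) : ℝ :=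
  1 / 2 * (∫ x, (‖u.gr x‖ ^ 2 + μ * u.fn x ^ 2)) + 1 / 2 * (∫ x, (‖v.gr x‖ ^ 2 + ν * v.fn x ^ 2))
    - 1 / (p + 1) * (∫ x, |u.fn x| ^ (p + 1)) - 1 / crit N * (∫ x, |v.fn x| ^ crit N)
    - lam * ∫ x, u.fn x * v.fn x

/-- The derivative `I'_{μ,ν,λ}(u,v)(φ,ψ)`. -/
def denergy {N : ℕ} (p μ ν lam : ℝ) (u v φ ψ : H1 N) : ℝ :=
  (∫ x, (⟪u.gr x, φ.gr x⟫_ℝ + μ * (u.fn x * φ.fn x)))
    + (∫ x, (⟪v.gr x, ψ.gr x⟫_ℝ + ν * (v.fn x * ψ.fn x)))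
    - (∫ x, |u.fn x| ^ (p - 1) * u.fn x * φ.fn x)
    - (∫ x, |v.fn x| ^ (crit N - 2) * v.fn x * ψ.fn x)
    - lam * ∫ x, (u.fn x * ψ.fn x + v.fn x * φ.fn x)

/-- `(u,v)` is a weak solution of the system (a critical point of `I_{μ,ν,λ}`). -/
def IsSolution {N : ℕ} (p μ ν lam : ℝ) (u v : H1 N) : Prop :=
  ∀ φ ψ : H1 N, denergy p μ ν lam u v φ ψ = 0

/-- `(u,v)` belongs to the Nehari manifold `M_{μ,ν,λ}`. -/
def InNehari {N : ℕ} (p μ ν lam : ℝ) (u v : H1 N) : Prop :=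
  ¬ (u.fn =ᵐ[volume] 0 ∧ v.fn =ᵐ[volume] 0) ∧ denergy p μ ν lam u v u v = 0

/-- `m_{μ,ν,λ}`, the infimum of the energy on the Nehari manifold. -/
def mlevel (N : ℕ) (p μ ν lam : ℝ) : ℝ :=
  sInf {c : ℝ | ∃ u v : H1 N, InNehari p μ ν lam u v ∧ energy p μ ν lam u v = c}

/-- The sharp Sobolev constant `S`: the largest `s` with
`∫|∇φ|² ≥ s (∫|φ|^{2*})^{2/2*}` for all `φ ∈ C_c^∞(ℝ^N)` (a dense subspace of `D^{1,2}(ℝ^N)`). -/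
def sobS (N : ℕ) : ℝ :=
  sSup {s : ℝ | ∀ φ : E N → ℝ, IsTest φ →
    s * (∫ x, |φ x| ^ crit N) ^ (2 / crit N) ≤ ∫ x, ‖∇ φ x‖ ^ 2}

/-- The sharp constant `C_q` in `∫(|∇u|² + u²) ≥ C_q (∫|u|^q)^{2/q}` on `H¹(ℝ^N)`. -/
def sobC (N : ℕ) (q : ℝ) : ℝ :=
  sSup {s : ℝ | ∀ u : H1 N, s * (∫ x, |u.fn x| ^ q) ^ (2 / q) ≤ ∫ x, (‖u.gr x‖ ^ 2 + u.fn x ^ 2)}

/-- The number `μ₀`. -/
def mu0 (N : ℕ) (p : ℝ) : ℝ :=
  (2 * (p + 1) / (N * (p - 1)) * sobS N ^ ((N : ℝ) / 2)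
    * sobC N (p + 1) ^ (-((p + 1) / (p - 1)))) ^ (((p + 1) / (p - 1) - (N : ℝ) / 2)⁻¹)

/-- The threshold coupling `λ_{μ,ν}`. -/
def lamStar (N : ℕ) (p μ ν : ℝ) : ℝ :=
  sInf {lam : ℝ | lam < √(μ * ν) ∧ ∀ τ : ℝ, lam ≤ τ → τ < √(μ * ν) →
    mlevel N p μ ν τ < 1 / N * sobS N ^ ((N : ℝ) / 2)}

/-- `(u,v)` is a ground state solution: a solution in `M_{μ,ν,λ}` of energy `m_{μ,ν,λ}`. -/
def IsGroundState {N : ℕ} (p μ ν lam : ℝ) (u v : H1 N) : Prop :=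
  IsSolution p μ ν lam u v ∧ InNehari p μ ν lam u v ∧
    energy p μ ν lam u v = mlevel N p μ ν lam

end Pool.Agent.CoupledSystem
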