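import Pool.Agent.helper35.GS.Level

set_option autoImplicit false

open MeasureTheory Filter Topology
open scoped ENNReal NNReal ContDiff Gradient InnerProductSpace

noncomputable section

namespace Pool.Agent.GroundState

variable {N : ℕ}

lemma single_ub {q Q a k τ : ℝ} (hq : 2 < q) (hk : 0 < k) (ha : 0 < a) (h : Q ≤ k * a ^ (2 / q))
    (hτ : 0 ≤ τ) : τ ^ 2 * Q / 2 - τ ^ q * a / q ≤ (1 / 2 - 1 / q) * k ^ (q / (q - 2)) := by
  have hq0 : 0 < q := by linarith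
  have hq2 : 0 < q - 2 := by linarith
  have haq : 0 < a ^ (2 / q) := Real.rpow_pos_of_pos ha _
  set t := (k * a ^ (2 / q) / a) ^ (1 / (q - 2)) with ht
  have ht0 : 0 < t := Real.rpow_pos_of_pos (by positivity) _
  have e1 : t ^ (q - 2) = k * a ^ (2 / q) / a := by
    rw [ht, ← Real.rpow_mul (by positivity), one_div_mul_cancel hq2.ne', Real.rpow_one]
  have h1 := young_elem hq ht0 hτ
  have h2 := mul_le_mul_of_nonneg_right h1 ha.le
  have e2 : (τ ^ 2 * t ^ (q - 2) / 2 - τ ^ q / q) * a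
      = τ ^ 2 * (k * a ^ (2 / q)) / 2 - τ ^ q * a / q := by
    rw [e1]; field_simp
  have e3 : t ^ q * a = k ^ (q / (q - 2)) := by
    rw [ht, ← Real.rpow_mul (by positivity)]
    have e4 : k * a ^ (2 / q) / a = k * a ^ (2 / q - 1) := by
      rw [mul_div_assoc, Real.rpow_sub ha, Real.rpow_one]
    rw [e4, Real.mul_rpow hk.le (Real.rpow_nonneg ha.le _), ← Real.rpow_mul ha.le]
    have e5 : (2 / q - 1) * (1 / (q - 2) * q) = -1 := by
      field_simp
      ring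
    have e6 : 1 / (q - 2) * q = q / (q - 2) := by ring
    rw [e5, e6, mul_assoc, Real.rpow_neg_one, inv_mul_cancel₀ ha.ne', mul_one]
  rw [e2, mul_assoc, e3] at h2
  have h3 := mul_le_mul_of_nonneg_left h (sq_nonneg τ)
  linarith

lemma small_grad (hN : 3 ≤ N) {q : ℝ} (h2 : 2 < q) (hs : q < crit N) {κ : ℝ} (hκ : 0 < κ) :
    ∃ w : H1 N, 0 < pw q w ∧ ‖sndL w‖ ^ 2 ≤ κ * pw q w ^ (2 / q) := by
  have h3 : (3 : ℝ) ≤ N := by exact_mod_cast hN
  have hq0 : 0 < q := by linarith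
  obtain ⟨φ, hφ, h0⟩ := exists_test (N := N)
  set A := ∫ x, ‖∇ φ x‖ ^ 2 with hA
  set B := ∫ x, |φ x| ^ q with hB
  have hB0 : 0 < B := hφ.integral_pos h0 hq0
  have hA0 : 0 ≤ A := integral_nonneg fun x => sq_nonneg _
  set e : ℝ := 2 - N + N * (2 / q) with he
  have he0 : 0 < e := by
    unfold crit at hs
    rw [lt_div_iff₀ (by linarith)] at hs
    rw [he]
    have : (N : ℝ) - 2 < N * (2 / q) := by
      rw [mul_div_assoc', lt_div_iff₀ hq0]
      nlinarith
    linarith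
  have hBq : 0 < B ^ (2 / q) := Real.rpow_pos_of_pos hB0 _
  set c : ℝ := (κ * B ^ (2 / q) / (A + 1)) ^ (1 / e) with hc
  have hc0 : 0 < c := Real.rpow_pos_of_pos (by positivity) _
  have hce : c ^ e = κ * B ^ (2 / q) / (A + 1) := by
    rw [hc, ← Real.rpow_mul (by positivity), one_div_mul_cancel he0.ne', Real.rpow_one]
  obtain ⟨w, hw⟩ := exists_pair (hφ.dil hc0.ne')
  have hcN : 0 < c ^ N := by positivity
  refine ⟨w, ?_, ?_⟩
  · rw [pairOf_pw hw, dil_pw hc0]; positivity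
  · rw [pairOf_snd hw, pairOf_pw hw, dil_pw hc0, dil_grad_sq hc0, ← hA, ← hB,
      Real.mul_rpow (by positivity) hB0.le]
    have e1 : c ^ 2 * (c ^ N)⁻¹ = c ^ e * ((c ^ N)⁻¹) ^ (2 / q) := by
      rw [← Real.rpow_natCast c N, ← Real.rpow_neg hc0.le, ← Real.rpow_mul hc0.le,
        ← Real.rpow_add hc0, ← Real.rpow_two, ← Real.rpow_add hc0]
      congr 1
      rw [he]; ring
    rw [e1, hce]
    have h5 : 0 ≤ ((c ^ N)⁻¹) ^ (2 / q) := Real.rpow_nonneg (by positivity) _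
    have h6 : κ * B ^ (2 / q) / (A + 1) * A ≤ κ * B ^ (2 / q) := by
      rw [div_mul_eq_mul_div, div_le_iff₀ (by positivity)]
      have : 0 < κ * B ^ (2 / q) := by positivity
      nlinarith
    calc κ * B ^ (2 / q) / (A + 1) * ((c ^ N)⁻¹) ^ (2 / q) * A
        = ((c ^ N)⁻¹) ^ (2 / q) * (κ * B ^ (2 / q) / (A + 1) * A) := by ring
      _ ≤ ((c ^ N)⁻¹) ^ (2 / q) * (κ * B ^ (2 / q)) := mul_le_mul_of_nonneg_left h6 h5
      _ = κ * (((c ^ N)⁻¹) ^ (2 / q) * B ^ (2 / q)) := by ring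

/-- near the end of the coupling range the level is below `S^{N/2}/N`. -/
lemma exists_low (hN : 3 ≤ N) {p : ℝ} (hp1 : 1 < p) (hp2 : p + 1 < crit N) {μ ν : ℝ}
    (hμ : 0 < μ) (hν : 0 < ν) : ∃ l0, 0 ≤ l0 ∧ l0 < √(μ * ν) ∧ ∀ τ, l0 ≤ τ → τ < √(μ * ν) →
      mlevel N p μ ν τ < cst N := by
  set q := p + 1 with hq
  have hq2 : 2 < q := by linarith
  have hq0 : 0 < q := by linarith
  have hc := cst_pos hN
  have hkp : 0 < 1 / 2 - 1 / q := kp_pos hp1
  set k := (cst N / (1 / 2 - 1 / q)) ^ ((q - 2) / q) with hk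
  have hk0 : 0 < k := Real.rpow_pos_of_pos (by positivity) _
  have hkk : (1 / 2 - 1 / q) * (k / 2) ^ (q / (q - 2)) < cst N := by
    have h1 : (k / 2) ^ (q / (q - 2)) < k ^ (q / (q - 2)) :=
      Real.rpow_lt_rpow (by positivity) (by linarith) (div_pos hq0 (by linarith))
    have h2 : k ^ (q / (q - 2)) = cst N / (1 / 2 - 1 / q) := by
      rw [hk, ← Real.rpow_mul (by positivity)]
      have : (q - 2) / q * (q / (q - 2)) = 1 := by
        have : q - 2 ≠ 0 := by linarith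
        field_simp
      rw [this, Real.rpow_one]
    rw [h2, lt_div_iff₀ hkp] at h1
    linarith
  obtain ⟨w, hw, hwg⟩ := small_grad hN hq2 hp2 (κ := k / 4 * ν / (μ + ν)) (by positivity)
  set P := pw q w ^ (2 / q) with hP
  have hP0 : 0 < P := Real.rpow_pos_of_pos hw _
  have hs : 0 < √(μ * ν) := Real.sqrt_pos.2 (mul_pos hμ hν)
  set δ := k / 4 * ν * P / (2 * √(μ * ν) * ‖fstL w‖ ^ 2 + 1) with hδ
  have hδ0 : 0 < δ := by rw [hδ]; positivity
  refine ⟨max 0 (√(μ * ν) - δ), le_max_left _ _, max_lt hs (by linarith), fun τ h1 h2 => ?_⟩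
  have hτ0 : 0 ≤ τ := (le_max_left _ _).trans h1
  have hτδ : √(μ * ν) - δ ≤ τ := (le_max_right _ _).trans h1
  have hτl : |τ| < √(μ * ν) := by rwa [abs_of_nonneg hτ0]
  set u := √ν • w with hu
  set v := √μ • w with hv
  have hQ : Qf μ ν τ u v = (μ + ν) * ‖sndL w‖ ^ 2
      + 2 * √(μ * ν) * (√(μ * ν) - τ) * ‖fstL w‖ ^ 2 := by
    unfold Qf
    rw [hu, hv, map_smul, map_smul, map_smul, map_smul, norm_smul, norm_smul, norm_smul,
      norm_smul, real_inner_smul_left, real_inner_smul_right, real_inner_self_eq_norm_sq,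
      Real.norm_of_nonneg (Real.sqrt_nonneg _), Real.norm_of_nonneg (Real.sqrt_nonneg _)]
    have e1 : √μ ^ 2 = μ := Real.sq_sqrt hμ.le
    have e2 : √ν ^ 2 = ν := Real.sq_sqrt hν.le
    have e3 : √(μ * ν) = √μ * √ν := Real.sqrt_mul hμ.le _
    rw [e3]
    have e4 : 2 * (√μ * √ν) * (√μ * √ν - τ) = 2 * (√μ ^ 2 * √ν ^ 2) - 2 * τ * (√μ * √ν) := by
      ring
    rw [e4, mul_pow, mul_pow, mul_pow, mul_pow, e1, e2]
    ring
  have ha : pw q u = √ν ^ q * pw q w := by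
    rw [hu, pw_smul hN hq2.le hp2.le, abs_of_nonneg (Real.sqrt_nonneg _)]
  have hsν : 0 < √ν := Real.sqrt_pos.2 hν
  have ha0 : 0 < pw q u := by rw [ha]; exact mul_pos (Real.rpow_pos_of_pos hsν _) hw
  have ha2 : pw q u ^ (2 / q) = ν * P := by
    rw [ha, Real.mul_rpow (Real.rpow_nonneg hsν.le _) hw.le, ← Real.rpow_mul hsν.le]
    have : q * (2 / q) = 2 := by field_simp
    rw [this, Real.rpow_two, Real.sq_sqrt hν.le]
  have hQk : Qf μ ν τ u v ≤ k / 2 * pw q u ^ (2 / q) := by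
    rw [hQ, ha2]
    have t1 : (μ + ν) * ‖sndL w‖ ^ 2 ≤ k / 4 * ν * P := by
      have := mul_le_mul_of_nonneg_left hwg (show 0 ≤ μ + ν by positivity)
      have e : (μ + ν) * (k / 4 * ν / (μ + ν) * P) = k / 4 * ν * P := by field_simp
      rwa [e] at this
    have t2 : 2 * √(μ * ν) * (√(μ * ν) - τ) * ‖fstL w‖ ^ 2 ≤ k / 4 * ν * P := by
      have t3 : √(μ * ν) - τ ≤ δ := by linarith
      calc 2 * √(μ * ν) * (√(μ * ν) - τ) * ‖fstL w‖ ^ 2
          = (√(μ * ν) - τ) * (2 * √(μ * ν) * ‖fstL w‖ ^ 2) := by ring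
        _ ≤ δ * (2 * √(μ * ν) * ‖fstL w‖ ^ 2) :=
            mul_le_mul_of_nonneg_right t3 (by positivity)
        _ ≤ k / 4 * ν * P := by
            rw [hδ, div_mul_eq_mul_div, div_le_iff₀ (by positivity)]
            have : 0 < k / 4 * ν * P := by positivity
            nlinarith
    linarith
  obtain ⟨t, ht, hmem, _⟩ := exists_proj hN hp1 hp2 hμ hν hτl (u := u) (v := v)
    (ne_zero_of_pw hq0 ha0) (add_pos_of_pos_of_nonneg ha0 (pw_nonneg _ _))
  calc mlevel N p μ ν τ ≤ Kf p (t • u) (t • v) := mlevel_le hN hp1 hmem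
    _ = energy p μ ν τ (t • u) (t • v) := (energy_of_nehari hN hp1 hmem).symm
    _ = Fr q (crit N) (Qf μ ν τ u v) (pw q u) (pw (crit N) v) t :=
        Fr_energy hN hp1 hp2 μ ν τ u v ht.le
    _ ≤ t ^ 2 * Qf μ ν τ u v / 2 - t ^ q * pw q u / q := by
        unfold Fr
        have h5 : 0 ≤ t ^ crit N * pw (crit N) v / crit N := by
          have := crit_gt hN
          have := pw_nonneg (crit N) v
          have := Real.rpow_nonneg ht.le (crit N)
          positivity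
        linarith
    _ ≤ (1 / 2 - 1 / q) * (k / 2) ^ (q / (q - 2)) :=
        single_ub hq2 (by positivity) ha0 hQk ht.le
    _ < cst N := hkk

/-- the set defining the threshold. -/
def LamSet (N : ℕ) (p μ ν : ℝ) : Set ℝ :=
  {lam : ℝ | lam < √(μ * ν) ∧ ∀ τ : ℝ, lam ≤ τ → τ < √(μ * ν) → mlevel N p μ ν τ < cst N}

lemma lamStar_eq (p μ ν : ℝ) : lamStar N p μ ν = sInf (LamSet N p μ ν) := rfl

lemma lamSet_lower (hN : 3 ≤ N) {p : ℝ} (hp1 : 1 < p) (hp2 : p + 1 < crit N) {μ ν : ℝ}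
    (hμ : mu0 N p < μ) (hν : 0 < ν) {l : ℝ} (hl : l ∈ LamSet N p μ ν) :
    √((μ - mu0 N p) * ν) ≤ l := by
  have hm := mu0_pos hN hp1 hp2
  by_contra hcon
  push Not at hcon
  have h1 : √((μ - mu0 N p) * ν) < √(μ * ν) := by
    refine Real.sqrt_lt_sqrt (mul_nonneg (by linarith) hν.le) ?_
    exact mul_lt_mul_of_pos_right (by linarith) hν
  have h2 := hl.2 _ hcon.le h1
  have h3 := mlevel_ge hN hp1 hp2 hμ hν (Real.sqrt_nonneg _) le_rfl
  linarith

lemma lamSet_nonempty (hN : 3 ≤ N) {p : ℝ} (hp1 : 1 < p) (hp2 : p + 1 < crit N) {μ ν : ℝ}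
    (hμ : 0 < μ) (hν : 0 < ν) : (LamSet N p μ ν).Nonempty := by
  obtain ⟨l0, _, h1, h2⟩ := exists_low hN hp1 hp2 hμ hν
  exact ⟨l0, h1, h2⟩

lemma lamStar_ge (hN : 3 ≤ N) {p : ℝ} (hp1 : 1 < p) (hp2 : p + 1 < crit N) {μ ν : ℝ}
    (hμ : mu0 N p < μ) (hν : 0 < ν) : √((μ - mu0 N p) * ν) ≤ lamStar N p μ ν := by
  have hm := mu0_pos hN hp1 hp2
  rw [lamStar_eq]
  exact le_csInf (lamSet_nonempty hN hp1 hp2 (hm.trans hμ) hν)
    fun l hl => lamSet_lower hN hp1 hp2 hμ hν hl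

lemma lamStar_pos (hN : 3 ≤ N) {p : ℝ} (hp1 : 1 < p) (hp2 : p + 1 < crit N) {μ ν : ℝ}
    (hμ : mu0 N p < μ) (hν : 0 < ν) : 0 < lamStar N p μ ν :=
  (Real.sqrt_pos.2 (mul_pos (by linarith) hν)).trans_le (lamStar_ge hN hp1 hp2 hμ hν)

lemma lamStar_lt (hN : 3 ≤ N) {p : ℝ} (hp1 : 1 < p) (hp2 : p + 1 < crit N) {μ ν : ℝ}
    (hμ : mu0 N p < μ) (hν : 0 < ν) : lamStar N p μ ν < √(μ * ν) := by
  have hm := mu0_pos hN hp1 hp2
  obtain ⟨l, hl⟩ := lamSet_nonempty (N := N) hN hp1 hp2 (hm.trans hμ) hν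
  rw [lamStar_eq]
  exact (csInf_le ⟨_, fun l hl => lamSet_lower hN hp1 hp2 hμ hν hl⟩ hl).trans_lt hl.1

/-- couplings slightly above the threshold. -/
lemma exists_above (hN : 3 ≤ N) {p : ℝ} (hp1 : 1 < p) (hp2 : p + 1 < crit N) {μ ν : ℝ}
    (hμ : mu0 N p < μ) (hν : 0 < ν) {η : ℝ} (hη : 0 < η) :
    ∃ l, lamStar N p μ ν ≤ l ∧ l < lamStar N p μ ν + η ∧ l < √(μ * ν) ∧
      mlevel N p μ ν l < cst N := by
  have hm := mu0_pos hN hp1 hp2
  have h1 : sInf (LamSet N p μ ν) < lamStar N p μ ν + η := by rw [← lamStar_eq]; linarith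
  obtain ⟨l, hl, hl2⟩ := exists_lt_of_csInf_lt (lamSet_nonempty hN hp1 hp2 (hm.trans hμ) hν) h1
  refine ⟨l, ?_, hl2, hl.1, hl.2 l le_rfl hl.1⟩
  rw [lamStar_eq]
  exact csInf_le ⟨_, fun l hl => lamSet_lower hN hp1 hp2 hμ hν hl⟩ hl

/-- uniform lower bound for `∫|u|^{p+1}` below the critical level. -/
lemma pw_lower (hN : 3 ≤ N) {p : ℝ} (hp1 : 1 < p) (hp2 : p + 1 < crit N) {μ ν θ : ℝ}
    (hμ : 0 < μ) (hν : 0 < ν) (hθ : θ < 1) : ∃ a0 > 0, ∀ lam : ℝ, |lam| ≤ θ * √(μ * ν) →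
      ∀ u v : H1 N, (u, v) ∈ nehari N p μ ν lam → Kf p u v < cst N → a0 ≤ pw (p + 1) u := by
  have h3 : (3 : ℝ) ≤ N := by exact_mod_cast hN
  have hc := crit_gt hN
  have hκ := kap0_pos hμ hν hθ
  have hM := sobM_pos (N := N)
  have hS := sobS_pos hN
  set κ := kap0 μ ν θ with hκd
  set k := κ / sobM N ^ 2 with hk
  have hk0 : 0 < k := by rw [hk]; positivity
  set e : ℝ := (p + 1) / (p - 1) with he
  refine ⟨k ^ e, Real.rpow_pos_of_pos hk0 _, fun lam hl u v huv hK => ?_⟩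
  have hs : 0 < √(μ * ν) := Real.sqrt_pos.2 (mul_pos hμ hν)
  have huv' := (mem_nehari_iff hN hp1 μ ν lam u v).1 huv
  set a := pw (p + 1) u with ha
  set b := pw (crit N) v with hb
  have ha0 : 0 ≤ a := pw_nonneg _ _
  have hb0 : 0 ≤ b := pw_nonneg _ _
  -- b ≤ S b^{2/s}
  have hbS : b ≤ sobS N * b ^ (2 / crit N) := by
    have h1 : (1 / N : ℝ) * b < 1 / N * sobS N ^ ((N : ℝ) / 2) := by
      have h2 : (1 / 2 - 1 / crit N) * b ≤ Kf p u v := by
        unfold Kf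
        have := mul_nonneg (kp_pos hp1).le ha0
        linarith
      rw [half_sub_crit hN] at h2
      exact h2.trans_lt hK
    have h2 : b < sobS N ^ ((N : ℝ) / 2) := lt_of_mul_lt_mul_left h1 (by positivity)
    rcases hb0.eq_or_lt with hb1 | hb1
    · rw [← hb1]
      have := Real.rpow_nonneg (le_refl (0 : ℝ)) (2 / crit N)
      positivity
    · have h4 : b ^ (2 / (N : ℝ)) ≤ sobS N := by
        calc b ^ (2 / (N : ℝ)) ≤ (sobS N ^ ((N : ℝ) / 2)) ^ (2 / (N : ℝ)) :=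
              Real.rpow_le_rpow hb0 h2.le (by positivity)
          _ = sobS N := by
              rw [← Real.rpow_mul hS.le]
              have : (N : ℝ) / 2 * (2 / N) = 1 := by
                have : (N : ℝ) ≠ 0 := by linarith
                field_simp
              rw [this, Real.rpow_one]
      have h5 : b = b ^ (2 / (N : ℝ)) * b ^ (2 / crit N) := by
        rw [← Real.rpow_add hb1]
        have : 2 / (N : ℝ) + 2 / crit N = 1 := by
          have h6 := half_sub_crit hN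
          have : 2 / (N : ℝ) = 2 * (1 / N) := by ring
          rw [this, ← h6]; ring
        rw [this, Real.rpow_one]
      calc b = b ^ (2 / (N : ℝ)) * b ^ (2 / crit N) := h5
        _ ≤ sobS N * b ^ (2 / crit N) :=
            mul_le_mul_of_nonneg_right h4 (Real.rpow_nonneg hb0 _)
  have hSv := sobS_ineq hN v
  rw [← hb] at hSv
  -- a ≥ κ ‖u‖²
  have hau : κ * ‖u‖ ^ 2 ≤ a := by
    have := Qf_coercive' hμ hν hθ hl u v
    rw [huv'.2] at this
    linarith
  have hnq : nq (p + 1) u ^ 2 ≤ sobM N ^ 2 * ‖u‖ ^ 2 := by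
    rw [← mul_pow]
    exact pow_le_pow_left₀ (nq_nonneg _ _) (nq_le hN (by linarith) hp2.le u) 2
  have hka : k * a ^ (2 / (p + 1)) ≤ a := by
    rw [ha, pw_rpow_eq hN (by linarith) hp2.le, ← ha]
    refine le_trans ?_ hau
    rw [hk, div_mul_eq_mul_div, div_le_iff₀ (by positivity)]
    have := mul_le_mul_of_nonneg_left hnq hκ.le
    nlinarith
  have hapos : 0 < a := by
    rcases ha0.eq_or_lt with h | h
    · exfalso
      -- a = 0 forces v = 0 as well
      have hu0 : ‖u‖ ^ 2 ≤ 0 := by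
        rw [← h] at hau
        by_contra hcon
        push Not at hcon
        have := mul_pos hκ hcon
        linarith
      have hlow := Qf_lower hμ hν hθ hl u v
      rw [huv'.2, ← h, zero_add] at hlow
      have h7 : (1 - θ) * (ν * ‖fstL v‖ ^ 2) ≤ 0 := by
        have g1 : 0 ≤ ‖sndL u‖ ^ 2 := sq_nonneg _
        have g2 : 0 ≤ (1 - θ) * (μ * ‖fstL u‖ ^ 2) := mul_nonneg (by linarith) (by positivity)
        have : (1 - θ) * (μ * ‖fstL u‖ ^ 2 + ν * ‖fstL v‖ ^ 2)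
          = (1 - θ) * (μ * ‖fstL u‖ ^ 2) + (1 - θ) * (ν * ‖fstL v‖ ^ 2) := by ring
        linarith
      have h8 : fstL v = 0 := by
        have g1 : 0 < (1 - θ) * ν := mul_pos (by linarith) hν
        have g2 : ‖fstL v‖ ^ 2 ≤ 0 := by
          by_contra hcon
          push Not at hcon
          have := mul_pos g1 hcon
          linarith
        have g3 : ‖fstL v‖ ^ 2 = 0 := le_antisymm g2 (sq_nonneg _)
        exact norm_eq_zero.1 (pow_eq_zero_iff two_ne_zero |>.1 g3)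
      have h9 : b = 0 := pw_eq_zero (by linarith) h8
      have h10 : Qf μ ν lam u v = 0 := by rw [huv'.2, ← h, h9]; ring
      have hll : |lam| < √(μ * ν) := by
        refine hl.trans_lt ?_
        have := mul_lt_mul_of_pos_right hθ hs
        linarith
      have := Qf_pos hμ hν hll huv'.1
      linarith
    · exact h
  -- conclude
  have h11 : k ≤ a ^ ((p - 1) / (p + 1)) := by
    have e1 : a = a ^ ((p - 1) / (p + 1)) * a ^ (2 / (p + 1)) := by
      rw [← Real.rpow_add hapos]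
      have : (p - 1) / (p + 1) + 2 / (p + 1) = 1 := by
        have : p + 1 ≠ 0 := by linarith
        field_simp
        ring
      rw [this, Real.rpow_one]
    have h12 : 0 < a ^ (2 / (p + 1)) := Real.rpow_pos_of_pos hapos _
    rw [e1] at hka
    nth_rewrite 1 [← e1] at hka
    exact le_of_mul_le_mul_right hka h12
  calc k ^ e ≤ (a ^ ((p - 1) / (p + 1))) ^ e := Real.rpow_le_rpow hk0.le h11 (by
        rw [he]; exact div_nonneg (by linarith) (by linarith))
    _ = a := by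
        rw [← Real.rpow_mul ha0, he]
        have : (p - 1) / (p + 1) * ((p + 1) / (p - 1)) = 1 := by
          have : p + 1 ≠ 0 := by linarith
          have : p - 1 ≠ 0 := by linarith
          field_simp
        rw [this, Real.rpow_one]

end Pool.Agent.GroundState
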