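import Pool.Agent.helper35.GS.Conv

set_option autoImplicit false

open MeasureTheory Filter Topology
open scoped ENNReal NNReal ContDiff Gradient InnerProductSpace

noncomputable section

namespace Pool.Agent.GroundState

variable {N : ℕ}

/-- translation operator on vector-valued `L²`. -/
def shiftG (h : E N) :
    Lp (E N) 2 (volume : Measure (E N)) →ₗᵢ[ℝ] Lp (E N) 2 (volume : Measure (E N)) :=
  Lp.compMeasurePreservingₗᵢ ℝ (fun x => x + h) (measurePreserving_add_right volume h)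

lemma shiftG_coe (h : E N) (u : Lp (E N) 2 (volume : Measure (E N))) :
    (shiftG h u : E N → E N) =ᵐ[volume] fun x => u (x + h) :=
  Lp.coeFn_compMeasurePreserving u (measurePreserving_add_right volume h)

/-- translation on pairs. -/
def shiftW (y : E N) (w : W N) : W N := WithLp.toLp 2 (shiftL y w.fst, shiftG y w.snd)

lemma continuous_shiftW (y : E N) : Continuous (shiftW y) := by
  unfold shiftW
  have h1 := (shiftL y).continuous
  have h2 := (shiftG y).continuous
  have h3 : Continuous fun w : W N => w.fst := (WithLp.fstL 2 ℝ _ _).continuous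
  have h4 : Continuous fun w : W N => w.snd := (WithLp.sndL 2 ℝ _ _).continuous
  exact (WithLp.prod_continuous_toLp 2 _ _).comp ((h1.comp h3).prodMk (h2.comp h4))

lemma IsTest.shift {φ : E N → ℝ} (h : IsTest φ) (y : E N) : IsTest (fun x => φ (x + y)) :=
  ⟨h.1.comp (contDiff_id.add contDiff_const), h.2.comp_homeomorph (Homeomorph.addRight y)⟩

lemma gradient_shift {φ : E N → ℝ} (y x : E N) :
    ∇ (fun x => φ (x + y)) x = ∇ φ (x + y) := by
  unfold gradient
  rw [fderiv_comp_add_right]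

lemma shiftW_mem (y : E N) {w : W N} (hw : w ∈ H1 N) : shiftW y w ∈ H1 N := by
  have h1 : w ∈ closure (testPairs N : Set (W N)) := hw
  have : shiftW y w ∈ closure (testPairs N : Set (W N)) := by
    refine map_mem_closure (continuous_shiftW y) h1 ?_
    rintro v ⟨φ, hφ, h⟩
    refine ⟨fun x => φ (x + y), hφ.shift y, ?_, ?_⟩
    · have h2 : (fun x => (v.fst : E N → ℝ) (x + y)) =ᵐ[volume] fun x => φ (x + y) :=
        (measurePreserving_add_right volume y).quasiMeasurePreserving.ae_eq_comp h.1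
      exact (shiftL_coe y v.fst).trans h2
    · have h2 : (fun x => (v.snd : E N → E N) (x + y)) =ᵐ[volume] fun x => ∇ φ (x + y) :=
        (measurePreserving_add_right volume y).quasiMeasurePreserving.ae_eq_comp h.2
      refine (shiftG_coe y v.snd).trans (h2.trans ?_)
      exact Eventually.of_forall fun x => (gradient_shift y x).symm
  exact this

/-- translate of an `H¹` function. -/
def tr (y : E N) (w : H1 N) : H1 N := ⟨shiftW y w, shiftW_mem y w.2⟩

lemma fn_tr (y : E N) (w : H1 N) : fn (tr y w) =ᵐ[volume] fun x => fn w (x + y) :=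
  shiftL_coe y (fstL w)

lemma gr_tr (y : E N) (w : H1 N) : gr (tr y w) =ᵐ[volume] fun x => gr w (x + y) :=
  shiftG_coe y (sndL w)

lemma fstL_tr (y : E N) (w : H1 N) : fstL (tr y w) = shiftL y (fstL w) := rfl

lemma sndL_tr (y : E N) (w : H1 N) : sndL (tr y w) = shiftG y (sndL w) := rfl

lemma inner_fst_tr (y : E N) (u v : H1 N) :
    ⟪fstL (tr y u), fstL (tr y v)⟫_ℝ = ⟪fstL u, fstL v⟫_ℝ := by
  rw [fstL_tr, fstL_tr, LinearIsometry.inner_map_map]

lemma norm_fst_tr (y : E N) (u : H1 N) : ‖fstL (tr y u)‖ = ‖fstL u‖ := by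
  rw [fstL_tr, LinearIsometry.norm_map]

lemma norm_snd_tr (y : E N) (u : H1 N) : ‖sndL (tr y u)‖ = ‖sndL u‖ := by
  rw [sndL_tr, LinearIsometry.norm_map]

lemma norm_tr (y : E N) (u : H1 N) : ‖tr y u‖ = ‖u‖ := by
  have h := norm_sq_H1 (tr y u)
  rw [norm_fst_tr, norm_snd_tr, ← norm_sq_H1] at h
  exact (pow_left_inj₀ (norm_nonneg _) (norm_nonneg _) two_ne_zero).1 h

lemma pw_tr (q : ℝ) (y : E N) (u : H1 N) : pw q (tr y u) = pw q u := by
  unfold pw
  have h : (fun x => |fn (tr y u) x| ^ q) =ᵐ[volume] fun x => |fn u (x + y)| ^ q := by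
    filter_upwards [fn_tr y u] with x hx
    rw [hx]
  rw [integral_congr_ae h]
  exact integral_add_right_eq_self (fun x => |fn u x| ^ q) y

lemma av_tr (ε : ℝ) (y x : E N) (u : H1 N) : av ε (fn (tr y u)) x = av ε (fn u) (x + y) := by
  rw [av_congr (fn_tr y u)]
  unfold av
  refine integral_congr_ae (Eventually.of_forall fun h => ?_)
  show fn u (x + h + y) = fn u (x + y + h)
  rw [add_right_comm]

/-- elementary interpolation inequality. -/
lemma interp_elem {q s η : ℝ} (h2 : 2 < q) (hs : q < s) (hη : 0 < η) : ∃ C : ℝ, 0 ≤ C ∧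
    ∀ x : ℝ, 0 ≤ x → x ^ q ≤ η * x ^ s + C * x ^ (2 : ℝ) := by
  set X : ℝ := (1 / η) ^ (1 / (s - q)) with hX
  have hX0 : 0 < X := Real.rpow_pos_of_pos (by positivity) _
  refine ⟨X ^ (q - 2), Real.rpow_nonneg hX0.le _, fun x hx => ?_⟩
  have e0 : 0 ≤ x ^ s := Real.rpow_nonneg hx _
  have e1 : 0 ≤ x ^ (2 : ℝ) := Real.rpow_nonneg hx _
  have e2 : 0 ≤ X ^ (q - 2) := Real.rpow_nonneg hX0.le _
  rcases hx.eq_or_lt with h0 | h0
  · rw [← h0, Real.zero_rpow (by linarith), Real.zero_rpow (by linarith), Real.zero_rpow (by norm_num)]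
    simp
  rcases le_total x X with h | h
  · have h3 : x ^ q = x ^ (q - 2) * x ^ (2 : ℝ) := by
      rw [← Real.rpow_add h0]; congr 1; ring
    have h4 : x ^ (q - 2) ≤ X ^ (q - 2) := Real.rpow_le_rpow hx h (by linarith)
    rw [h3]
    have := mul_le_mul_of_nonneg_right h4 e1
    have := mul_nonneg hη.le e0
    linarith
  · have h3 : 1 / η ≤ x ^ (s - q) := by
      have h5 : X ^ (s - q) ≤ x ^ (s - q) := Real.rpow_le_rpow hX0.le h (by linarith)
      rw [hX, ← Real.rpow_mul (by positivity), one_div_mul_cancel (by linarith), Real.rpow_one] at h5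
      exact h5
    have h4 : x ^ s = x ^ (s - q) * x ^ q := by
      rw [← Real.rpow_add h0]; congr 1; ring
    have h6 : 0 ≤ x ^ q := Real.rpow_nonneg hx _
    have h7 : 1 ≤ η * x ^ (s - q) := by
      rw [div_le_iff₀ hη] at h3
      linarith
    have h8 := mul_le_mul_of_nonneg_right h7 h6
    rw [one_mul] at h8
    have : η * x ^ s = η * x ^ (s - q) * x ^ q := by rw [h4]; ring
    rw [this]
    have := mul_nonneg e2 e1
    linarith

lemma enorm_rpow_eq {x : ℝ} {q : ℝ} (hq : 0 ≤ q) : ‖x‖ₑ ^ q = ENNReal.ofReal (|x| ^ q) := by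
  rw [← ofReal_norm, Real.norm_eq_abs, ENNReal.ofReal_rpow_of_nonneg (abs_nonneg _) hq]

lemma lintegral_fn_rpow (hN : 3 ≤ N) {q : ℝ} (h2 : 2 ≤ q) (hs : q ≤ crit N) (w : H1 N) :
    ∫⁻ x, ‖fn w x‖ₑ ^ q = ENNReal.ofReal (pw q w) := by
  unfold pw
  rw [ofReal_integral_eq_lintegral_ofReal (integrable_pw hN h2 hs w)
    (Eventually.of_forall fun x => Real.rpow_nonneg (abs_nonneg _) _)]
  congr 1
  funext x
  exact enorm_rpow_eq (by linarith)

lemma nonvanishing (hN : 3 ≤ N) {q : ℝ} (h2 : 2 < q) (hs : q < crit N) {M a0 : ℝ}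
    (ha0 : 0 < a0) : ∃ ε > 0, ∃ δ > 0, ∀ w : H1 N, ‖w‖ ≤ M → a0 ≤ pw q w →
      ∃ x, δ ≤ |av ε (fn w) x| := by
  set s := crit N with hsdef
  have hs2 : 2 < s := by linarith
  rcases lt_or_ge M 0 with hM | hM
  · refine ⟨1, one_pos, 1, one_pos, fun w hw => ?_⟩
    have := norm_nonneg w
    linarith
  set B : ℝ := 2 ^ s * (2 * (sobM N ^ s * M ^ s)) + 1 with hB
  have hsM : 0 ≤ sobM N ^ s * M ^ s :=
    mul_nonneg (Real.rpow_nonneg sobM_pos.le _) (Real.rpow_nonneg hM _)
  have h2s : (0 : ℝ) ≤ 2 ^ s := Real.rpow_nonneg (by norm_num) _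
  have h2q : (0 : ℝ) < 2 ^ q := Real.rpow_pos_of_pos (by norm_num) _
  have hB0 : 0 < B := by rw [hB]; positivity
  obtain ⟨C, hC0, hC⟩ := interp_elem (s := s) h2 hs (show 0 < a0 / (4 * 2 ^ q * B) by positivity)
  set η := a0 / (4 * 2 ^ q * B) with hη
  -- choose ε
  set ε : ℝ := √(a0 / (4 * 2 ^ q * (C + 1) * (M ^ 2 + 1))) with hε
  have hε0 : 0 < ε := by rw [hε]; positivity
  have hε2 : 2 ^ q * (C * (ε * M) ^ 2) ≤ a0 / 4 := by
    have e1 : ε ^ 2 = a0 / (4 * 2 ^ q * (C + 1) * (M ^ 2 + 1)) := by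
      rw [hε, Real.sq_sqrt (by positivity)]
    rw [mul_pow, e1]
    have : 2 ^ q * (C * (a0 / (4 * 2 ^ q * (C + 1) * (M ^ 2 + 1)) * M ^ 2))
        = a0 / 4 * (C / (C + 1) * (M ^ 2 / (M ^ 2 + 1))) := by
      field_simp
    rw [this]
    have u1 : C / (C + 1) ≤ 1 := by rw [div_le_one (by positivity)]; linarith
    have u2 : M ^ 2 / (M ^ 2 + 1) ≤ 1 := by rw [div_le_one (by positivity)]; linarith
    have u3 : 0 ≤ M ^ 2 / (M ^ 2 + 1) := by positivity
    have u4 : 0 ≤ C / (C + 1) := by positivity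
    have : C / (C + 1) * (M ^ 2 / (M ^ 2 + 1)) ≤ 1 := by nlinarith
    nlinarith
  -- choose δ
  set δ : ℝ := (a0 / (4 * 2 ^ q * (M ^ 2 + 1))) ^ (1 / (q - 2)) with hδ
  have hδ0 : 0 < δ := Real.rpow_pos_of_pos (by positivity) _
  have hδ2 : 2 ^ q * (δ ^ (q - 2) * M ^ 2) ≤ a0 / 4 := by
    have e1 : δ ^ (q - 2) = a0 / (4 * 2 ^ q * (M ^ 2 + 1)) := by
      rw [hδ, ← Real.rpow_mul (by positivity), one_div_mul_cancel (by linarith), Real.rpow_one]
    rw [e1]
    have : 2 ^ q * (a0 / (4 * 2 ^ q * (M ^ 2 + 1)) * M ^ 2) = a0 / 4 * (M ^ 2 / (M ^ 2 + 1)) := by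
      field_simp
    rw [this]
    have u2 : M ^ 2 / (M ^ 2 + 1) ≤ 1 := by rw [div_le_one (by positivity)]; linarith
    nlinarith
  refine ⟨ε, hε0, δ, hδ0, fun w hw ha => ?_⟩
  by_contra hcon
  push Not at hcon
  have hMs := norm_nonneg w
  set f := fn w with hf
  have hfm : StronglyMeasurable f := sm_fn w
  have hR : Measurable fun x => ‖av ε f x - f x‖ₑ ^ q :=
    ((av_measurable hfm).sub hfm).enorm.pow_const _
  -- (1)
  have s1 : ENNReal.ofReal (pw q w) ≤ ENNReal.ofReal (2 ^ q) * ((∫⁻ x, ‖av ε f x‖ₑ ^ q)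
      + ∫⁻ x, ‖av ε f x - f x‖ₑ ^ q) := by
    rw [← lintegral_fn_rpow hN (by linarith) hs.le, ← lintegral_add_right _ hR,
      ← lintegral_const_mul' _ _ ENNReal.ofReal_ne_top]
    refine lintegral_mono fun x => ?_
    rw [enorm_rpow_eq (by linarith), enorm_rpow_eq (by linarith), enorm_rpow_eq (by linarith),
      ← ENNReal.ofReal_add (Real.rpow_nonneg (abs_nonneg _) _) (Real.rpow_nonneg (abs_nonneg _) _),
      ← ENNReal.ofReal_mul h2q.le]
    apply ENNReal.ofReal_le_ofReal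
    have := abs_sub_rpow_le (q := q) (by linarith) (av ε f x) (av ε f x - f x)
    rwa [sub_sub_cancel] at this
  -- (2)
  have s2 : ∫⁻ x, ‖av ε f x - f x‖ₑ ^ q ≤ ENNReal.ofReal (η * B + C * (ε * M) ^ 2) := by
    have hη0 : 0 ≤ η := by rw [hη]; positivity
    have p1 : ∫⁻ x, ‖av ε f x - f x‖ₑ ^ q ≤ ENNReal.ofReal η * (∫⁻ x, ‖av ε f x - f x‖ₑ ^ s)
        + ENNReal.ofReal C * ∫⁻ x, ‖av ε f x - f x‖ₑ ^ (2 : ℝ) := by
      have hR2 : Measurable fun x => ENNReal.ofReal C * ‖av ε f x - f x‖ₑ ^ (2 : ℝ) :=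
        (((av_measurable hfm).sub hfm).enorm.pow_const _).const_mul _
      rw [← lintegral_const_mul' _ _ ENNReal.ofReal_ne_top,
        ← lintegral_const_mul' _ _ ENNReal.ofReal_ne_top, ← lintegral_add_right _ hR2]
      refine lintegral_mono fun x => ?_
      rw [enorm_rpow_eq (by linarith), enorm_rpow_eq (by linarith), enorm_rpow_eq (by norm_num),
        ← ENNReal.ofReal_mul hη0, ← ENNReal.ofReal_mul hC0,
        ← ENNReal.ofReal_add (mul_nonneg hη0 (Real.rpow_nonneg (abs_nonneg _) _))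
          (mul_nonneg hC0 (Real.rpow_nonneg (abs_nonneg _) _))]
      exact ENNReal.ofReal_le_ofReal (hC _ (abs_nonneg _))
    have p2 : ∫⁻ x, ‖av ε f x - f x‖ₑ ^ s ≤ ENNReal.ofReal B := by
      have hA : Measurable fun x => ‖av ε f x‖ₑ ^ s := (av_measurable hfm).enorm.pow_const _
      calc ∫⁻ x, ‖av ε f x - f x‖ₑ ^ s
          ≤ ENNReal.ofReal (2 ^ s) * ((∫⁻ x, ‖av ε f x‖ₑ ^ s) + ∫⁻ x, ‖f x‖ₑ ^ s) := by
            rw [← lintegral_add_left hA, ← lintegral_const_mul' _ _ ENNReal.ofReal_ne_top]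
            refine lintegral_mono fun x => ?_
            rw [enorm_rpow_eq (by linarith), enorm_rpow_eq (by linarith),
              enorm_rpow_eq (by linarith),
              ← ENNReal.ofReal_add (Real.rpow_nonneg (abs_nonneg _) _)
                (Real.rpow_nonneg (abs_nonneg _) _), ← ENNReal.ofReal_mul h2s]
            exact ENNReal.ofReal_le_ofReal (abs_sub_rpow_le (by linarith) _ _)
        _ ≤ ENNReal.ofReal (2 ^ s) * (ENNReal.ofReal (pw s w) + ENNReal.ofReal (pw s w)) := by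
            have h1 := lintegral_av_le hε0 hfm (s := s) (by linarith)
            have h2' := lintegral_fn_rpow hN (by linarith) (le_refl s) w
            rw [← hf] at h2'
            rw [h2'] at h1 ⊢
            gcongr
        _ = ENNReal.ofReal (2 ^ s * (2 * pw s w)) := by
            rw [← ENNReal.ofReal_add (pw_nonneg _ _) (pw_nonneg _ _), ← ENNReal.ofReal_mul h2s]
            congr 1; ring
        _ ≤ ENNReal.ofReal B := by
            apply ENNReal.ofReal_le_ofReal
            have h3 : pw s w ≤ sobM N ^ s * M ^ s := by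
              refine (pw_le hN (by linarith) (le_refl s) w).trans ?_
              exact mul_le_mul_of_nonneg_left (Real.rpow_le_rpow hMs hw (by linarith))
                (Real.rpow_nonneg sobM_pos.le _)
            rw [hB]
            have := mul_le_mul_of_nonneg_left h3 h2s
            nlinarith
    have p3 : ∫⁻ x, ‖av ε f x - f x‖ₑ ^ (2 : ℝ) ≤ ENNReal.ofReal ((ε * M) ^ 2) := by
      refine (lintegral_av_sub_le hε0 w).trans (ENNReal.ofReal_le_ofReal ?_)
      apply pow_le_pow_left₀ (by positivity)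
      exact mul_le_mul_of_nonneg_left ((norm_snd_le w).trans hw) hε0.le
    refine p1.trans ?_
    calc _ ≤ ENNReal.ofReal η * ENNReal.ofReal B + ENNReal.ofReal C * ENNReal.ofReal ((ε * M) ^ 2) := by
          gcongr
      _ = ENNReal.ofReal (η * B + C * (ε * M) ^ 2) := by
          rw [← ENNReal.ofReal_mul hη0, ← ENNReal.ofReal_mul hC0, ← ENNReal.ofReal_add
            (by positivity) (by positivity)]
  -- (3)
  have s3 : ∫⁻ x, ‖av ε f x‖ₑ ^ q ≤ ENNReal.ofReal (δ ^ (q - 2) * M ^ 2) := by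
    calc ∫⁻ x, ‖av ε f x‖ₑ ^ q
        ≤ ∫⁻ x, ENNReal.ofReal (δ ^ (q - 2)) * ‖av ε f x‖ₑ ^ (2 : ℝ) := by
          refine lintegral_mono fun x => ?_
          rw [enorm_rpow_eq (by linarith), enorm_rpow_eq (by norm_num),
            ← ENNReal.ofReal_mul (Real.rpow_nonneg hδ0.le _)]
          apply ENNReal.ofReal_le_ofReal
          rcases (abs_nonneg (av ε f x)).eq_or_lt with h0 | h0
          · rw [← h0, Real.zero_rpow (by linarith), Real.zero_rpow (by norm_num)]; simp
          · have : |av ε f x| ^ q = |av ε f x| ^ (q - 2) * |av ε f x| ^ (2 : ℝ) := by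
              rw [← Real.rpow_add h0]; congr 1; ring
            rw [this]
            apply mul_le_mul_of_nonneg_right _ (Real.rpow_nonneg (abs_nonneg _) _)
            exact Real.rpow_le_rpow (abs_nonneg _) (hcon x).le (by linarith)
      _ = ENNReal.ofReal (δ ^ (q - 2)) * ∫⁻ x, ‖av ε f x‖ₑ ^ (2 : ℝ) :=
          lintegral_const_mul' _ _ ENNReal.ofReal_ne_top
      _ ≤ ENNReal.ofReal (δ ^ (q - 2)) * ENNReal.ofReal (M ^ 2) := by
          have h1 := lintegral_av_le hε0 hfm (s := 2) one_le_two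
          have h3 := lintegral_fn_sq w
          rw [← hf] at h3
          rw [h3] at h1
          have h4 : ENNReal.ofReal (‖fstL w‖ ^ 2) ≤ ENNReal.ofReal (M ^ 2) :=
            ENNReal.ofReal_le_ofReal (pow_le_pow_left₀ (norm_nonneg _)
              ((norm_fst_le w).trans hw) 2)
          gcongr
          exact h1.trans h4
      _ = ENNReal.ofReal (δ ^ (q - 2) * M ^ 2) := by
          rw [← ENNReal.ofReal_mul (Real.rpow_nonneg hδ0.le _)]
  have s4 : pw q w ≤ 2 ^ q * (δ ^ (q - 2) * M ^ 2 + (η * B + C * (ε * M) ^ 2)) := by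
    have hη0 : 0 ≤ η := by rw [hη]; positivity
    have hd0 : 0 ≤ δ ^ (q - 2) * M ^ 2 := mul_nonneg (Real.rpow_nonneg hδ0.le _) (sq_nonneg _)
    have h5 : ENNReal.ofReal (pw q w) ≤ ENNReal.ofReal (2 ^ q *
        (δ ^ (q - 2) * M ^ 2 + (η * B + C * (ε * M) ^ 2))) := by
      refine s1.trans ?_
      rw [ENNReal.ofReal_mul h2q.le, ENNReal.ofReal_add hd0 (by positivity)]
      gcongr
    exact (ENNReal.ofReal_le_ofReal_iff (by positivity)).1 h5
  have s5 : 2 ^ q * (η * B) = a0 / 4 := by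
    rw [hη]; field_simp
  have : 2 ^ q * (δ ^ (q - 2) * M ^ 2 + (η * B + C * (ε * M) ^ 2))
      = 2 ^ q * (δ ^ (q - 2) * M ^ 2) + (2 ^ q * (η * B) + 2 ^ q * (C * (ε * M) ^ 2)) := by ring
  rw [this, s5] at s4
  linarith

end Pool.Agent.GroundState
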