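import Pool.Agent.helper35.GS.Main
import Pool.Agent.helper35.GS.Stmt

/-!
The two descriptions of `H¹(ℝ^N)` (pairs of functions, and a subspace of `L² × L²`) agree.
-/

set_option autoImplicit false

open MeasureTheory Filter Topology
open scoped ENNReal NNReal ContDiff Gradient InnerProductSpace

noncomputable section

namespace Pool.Agent.GroundState

variable {N : ℕ}

/-- the pair of functions `w` represents the element `w'`. -/
def Rel (w : CoupledSystem.H1 N) (w' : H1 N) : Prop :=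
  fn w' =ᵐ[volume] w.fn ∧ gr w' =ᵐ[volume] w.gr

lemma exists_old (w : CoupledSystem.H1 N) : ∃ w' : H1 N, Rel w w' := by
  obtain ⟨φ, hφ, h1, h2⟩ := w.approx
  have hφ' : ∀ n, IsTest (φ n) := hφ
  choose ws hws using fun n => exists_pair (hφ' n)
  let z : W N := WithLp.toLp 2 (w.fn_memLp.toLp w.fn, w.gr_memLp.toLp w.gr)
  have e1 : (z.fst : E N → ℝ) =ᵐ[volume] w.fn := w.fn_memLp.coeFn_toLp
  have e2 : (z.snd : E N → E N) =ᵐ[volume] w.gr := w.gr_memLp.coeFn_toLp
  have hn : ∀ n, ‖(ws n : W N) - z‖ ^ 2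
      = (∫ x, (φ n x - w.fn x) ^ 2) + ∫ x, ‖∇ (φ n) x - w.gr x‖ ^ 2 := by
    intro n
    rw [WithLp.prod_norm_sq_eq_of_L2]
    congr 1
    · rw [← real_inner_self_eq_norm_sq, L2.inner_def]
      refine integral_congr_ae ?_
      have e3 : (((ws n : W N) - z).fst : E N → ℝ) =ᵐ[volume]
          fun x => ((ws n : W N).fst : E N → ℝ) x - (z.fst : E N → ℝ) x := by
        have := Lp.coeFn_sub (ws n : W N).fst z.fst
        exact this
      filter_upwards [e3, e1, (hws n).1] with x a1 a2 a3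
      rw [a1, a2, a3, real_inner_self_eq_norm_sq, Real.norm_eq_abs, sq_abs]
    · rw [← real_inner_self_eq_norm_sq, L2.inner_def]
      refine integral_congr_ae ?_
      have e3 : (((ws n : W N) - z).snd : E N → E N) =ᵐ[volume]
          fun x => ((ws n : W N).snd : E N → E N) x - (z.snd : E N → E N) x := by
        have := Lp.coeFn_sub (ws n : W N).snd z.snd
        exact this
      filter_upwards [e3, e2, (hws n).2] with x a1 a2 a3
      rw [a1, a2, a3, real_inner_self_eq_norm_sq]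
  have hz : Tendsto (fun n => (ws n : W N)) atTop (𝓝 z) := by
    rw [tendsto_iff_norm_sub_tendsto_zero]
    have h3 : Tendsto (fun n => ‖(ws n : W N) - z‖ ^ 2) atTop (𝓝 0) := by
      simp only [hn]
      simpa using h1.add h2
    have h4 := h3.sqrt
    simpa [Real.sqrt_sq (norm_nonneg _)] using h4
  have hmem : z ∈ H1 N :=
    (testPairs N).isClosed_topologicalClosure.mem_of_tendsto hz
      (Eventually.of_forall fun n => (ws n).2)
  exact ⟨⟨z, hmem⟩, e1, e2⟩

lemma exists_new (w' : H1 N) : ∃ w : CoupledSystem.H1 N, Rel w w' := by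
  obtain ⟨φ, ws, hφ, hp, hl⟩ := exists_seq w'
  have hd : Tendsto (fun n => ‖ws n - w'‖ ^ 2) atTop (𝓝 0) := by
    have := (tendsto_iff_norm_sub_tendsto_zero.1 hl).pow 2
    simpa using this
  have a1 : ∀ n, ∫ x, (φ n x - fn w' x) ^ 2 = ‖fstL (ws n - w')‖ ^ 2 := by
    intro n
    rw [norm_sq_fst]
    refine integral_congr_ae ?_
    filter_upwards [fn_sub (ws n) w', (hp n).1] with x h1 h2
    have h3 : fn (ws n) x = φ n x := h2
    rw [h1, h3]
  have a2 : ∀ n, ∫ x, ‖∇ (φ n) x - gr w' x‖ ^ 2 = ‖sndL (ws n - w')‖ ^ 2 := by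
    intro n
    rw [norm_sq_snd]
    refine integral_congr_ae ?_
    filter_upwards [gr_sub (ws n) w', (hp n).2] with x h1 h2
    have h3 : gr (ws n) x = ∇ (φ n) x := h2
    rw [h1, h3]
  refine ⟨⟨fn w', gr w', memLp_fn w', memLp_gr w', φ, hφ, ?_, ?_⟩, EventuallyEq.rfl,
    EventuallyEq.rfl⟩
  · simp only [a1]
    refine squeeze_zero (fun n => sq_nonneg _) (fun n => ?_) hd
    exact pow_le_pow_left₀ (norm_nonneg _) (norm_fst_le _) 2
  · simp only [a2]
    refine squeeze_zero (fun n => sq_nonneg _) (fun n => ?_) hd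
    exact pow_le_pow_left₀ (norm_nonneg _) (norm_snd_le _) 2

/-! ### uniqueness of the weak gradient -/

lemma integral_parts (w : H1 N) {ψ : E N → ℝ} (hψ : IsTest ψ) (c : E N) :
    ∫ x, fn w x * fderiv ℝ ψ x c = - ∫ x, ⟪gr w x, ψ x • c⟫_ℝ := by
  have m1 : MemLp (fun x => fderiv ℝ ψ x c) 2 volume := by
    have hc : Continuous fun x => fderiv ℝ ψ x c :=
      (hψ.1.continuous_fderiv (by simp)).clm_apply continuous_const
    exact hc.memLp_of_hasCompactSupport (hψ.2.fderiv_apply ℝ c)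
  have m2 : MemLp (fun x => ψ x • c) 2 volume := by
    have hc : Continuous fun x => ψ x • c := hψ.1.continuous.smul continuous_const
    exact hc.memLp_of_hasCompactSupport hψ.2.smul_right
  have r1 : ∀ v : H1 N, ∫ x, fn v x * fderiv ℝ ψ x c = ⟪fstL v, m1.toLp _⟫_ℝ := by
    intro v
    rw [L2.inner_def]
    refine integral_congr_ae ?_
    filter_upwards [m1.coeFn_toLp] with x hx
    rw [hx]
    exact (Real.inner_apply _ _).symm
  have r2 : ∀ v : H1 N, ∫ x, ⟪gr v x, ψ x • c⟫_ℝ = ⟪sndL v, m2.toLp _⟫_ℝ := by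
    intro v
    rw [L2.inner_def]
    refine integral_congr_ae ?_
    filter_upwards [m2.coeFn_toLp] with x hx
    rw [hx]
    rfl
  rw [r1, r2]
  obtain ⟨φ, ws, hφ, hp, hl⟩ := exists_seq w
  have t1 : Tendsto (fun n => ⟪fstL (ws n), m1.toLp _⟫_ℝ) atTop (𝓝 ⟪fstL w, m1.toLp _⟫_ℝ) :=
    ((fstL.continuous.inner continuous_const).tendsto w).comp hl
  have t2 : Tendsto (fun n => - ⟪sndL (ws n), m2.toLp _⟫_ℝ) atTop
      (𝓝 (- ⟪sndL w, m2.toLp _⟫_ℝ)) :=
    (((sndL.continuous.inner continuous_const).neg).tendsto w).comp hl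
  refine tendsto_nhds_unique t1 (t2.congr fun n => ?_)
  rw [← r1, ← r2]
  have i1 : ∫ x, fn (ws n) x * fderiv ℝ ψ x c = ∫ x, φ n x * fderiv ℝ ψ x c := by
    refine integral_congr_ae ?_
    filter_upwards [(hp n).1] with x hx
    have : fn (ws n) x = φ n x := hx
    rw [this]
  have i2 : ∫ x, ⟪gr (ws n) x, ψ x • c⟫_ℝ = ∫ x, fderiv ℝ (φ n) x c * ψ x := by
    refine integral_congr_ae ?_
    filter_upwards [(hp n).2] with x hx
    have : gr (ws n) x = ∇ (φ n) x := hx
    rw [this, real_inner_smul_right]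
    unfold gradient
    rw [InnerProductSpace.toDual_symm_apply]
    ring
  rw [i1, i2]
  have d1 : Differentiable ℝ (φ n) := (hφ n).1.differentiable (by simp)
  have d2 : Differentiable ℝ ψ := hψ.1.differentiable (by simp)
  have c1 : Continuous fun x => fderiv ℝ (φ n) x c :=
    ((hφ n).1.continuous_fderiv (by simp)).clm_apply continuous_const
  have c2 : Continuous fun x => fderiv ℝ ψ x c :=
    (hψ.1.continuous_fderiv (by simp)).clm_apply continuous_const
  symm
  apply integral_mul_fderiv_eq_neg_fderiv_mul_of_integrable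
  · exact (c1.mul hψ.1.continuous).integrable_of_hasCompactSupport hψ.2.mul_left
  · exact ((hφ n).1.continuous.mul c2).integrable_of_hasCompactSupport (hφ n).2.mul_right
  · exact ((hφ n).1.continuous.mul hψ.1.continuous).integrable_of_hasCompactSupport
      (hφ n).2.mul_right
  · exact fun x _ => d1 x
  · exact fun x _ => d2 x

lemma eq_zero_of_fst {w : H1 N} (h : fstL w = 0) : w = 0 := by
  have h0 := (fst_eq_zero_iff w).1 h
  have hL : LocallyIntegrable (gr w) volume := (memLp_gr w).locallyIntegrable (by norm_num)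
  have hg : ∀ᵐ x, gr w x = 0 := by
    refine ae_eq_zero_of_integral_contDiff_smul_eq_zero hL fun ψ hψ1 hψ2 => ?_
    have hψ : IsTest ψ := ⟨hψ1, hψ2⟩
    have hint : Integrable (fun x => ψ x • gr w x) :=
      hL.integrable_smul_left_of_hasCompactSupport hψ1.continuous hψ2
    refine ext_inner_left ℝ fun c => ?_
    rw [inner_zero_right, ← integral_inner hint]
    have h1 := integral_parts w hψ c
    have h2 : ∫ x, fn w x * fderiv ℝ ψ x c = 0 := by
      rw [integral_congr_ae (g := fun _ => (0 : ℝ))]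
      · simp
      · filter_upwards [h0] with x hx
        rw [hx, zero_mul]
    have h3 : ∫ x, ⟪c, ψ x • gr w x⟫_ℝ = ∫ x, ⟪gr w x, ψ x • c⟫_ℝ := by
      congr 1
      funext x
      rw [real_inner_smul_right, real_inner_smul_right, real_inner_comm]
    rw [h3]
    linarith
  have h1 : sndL w = 0 := by
    rw [Lp.eq_zero_iff_ae_eq_zero]
    exact hg
  have h2 := norm_sq_H1 w
  rw [h, h1] at h2
  simpa using h2

lemma rel_zero {w : CoupledSystem.H1 N} {w' : H1 N} (h : Rel w w') :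
    w.fn =ᵐ[volume] 0 ↔ w' = 0 := by
  constructor
  · intro h0
    apply eq_zero_of_fst
    rw [fst_eq_zero_iff]
    exact h.1.trans h0
  · rintro rfl
    have h1 : fn (0 : H1 N) =ᵐ[volume] fun _ => 0 := fn_zero
    exact h.1.symm.trans h1

lemma rel_energy {p μ ν lam : ℝ} {u v : CoupledSystem.H1 N} {u' v' : H1 N} (hu : Rel u u')
    (hv : Rel v v') : CoupledSystem.energy p μ ν lam u v = energy p μ ν lam u' v' := by
  unfold CoupledSystem.energy energy
  have hc : CoupledSystem.crit N = crit N := rfl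
  have e1 : (∫ x, (‖u.gr x‖ ^ 2 + μ * u.fn x ^ 2)) = ∫ x, (‖gr u' x‖ ^ 2 + μ * fn u' x ^ 2) := by
    refine integral_congr_ae ?_
    filter_upwards [hu.1, hu.2] with x a b
    rw [a, b]
  have e2 : (∫ x, (‖v.gr x‖ ^ 2 + ν * v.fn x ^ 2)) = ∫ x, (‖gr v' x‖ ^ 2 + ν * fn v' x ^ 2) := by
    refine integral_congr_ae ?_
    filter_upwards [hv.1, hv.2] with x a b
    rw [a, b]
  have e3 : (∫ x, |u.fn x| ^ (p + 1)) = ∫ x, |fn u' x| ^ (p + 1) := by
    refine integral_congr_ae ?_
    filter_upwards [hu.1] with x a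
    rw [a]
  have e4 : (∫ x, |v.fn x| ^ crit N) = ∫ x, |fn v' x| ^ crit N := by
    refine integral_congr_ae ?_
    filter_upwards [hv.1] with x a
    rw [a]
  have e5 : (∫ x, u.fn x * v.fn x) = ∫ x, fn u' x * fn v' x := by
    refine integral_congr_ae ?_
    filter_upwards [hu.1, hv.1] with x a b
    rw [a, b]
  rw [hc, e1, e2, e3, e4, e5]

lemma rel_denergy {p μ ν lam : ℝ} {u v φ ψ : CoupledSystem.H1 N} {u' v' φ' ψ' : H1 N}
    (hu : Rel u u') (hv : Rel v v') (hφ : Rel φ φ') (hψ : Rel ψ ψ') :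
    CoupledSystem.denergy p μ ν lam u v φ ψ = denergy p μ ν lam u' v' φ' ψ' := by
  unfold CoupledSystem.denergy denergy
  have hc : CoupledSystem.crit N = crit N := rfl
  have e1 : (∫ x, (⟪u.gr x, φ.gr x⟫_ℝ + μ * (u.fn x * φ.fn x)))
      = ∫ x, (⟪gr u' x, gr φ' x⟫_ℝ + μ * (fn u' x * fn φ' x)) := by
    refine integral_congr_ae ?_
    filter_upwards [hu.1, hu.2, hφ.1, hφ.2] with x a b c d
    rw [a, b, c, d]
  have e2 : (∫ x, (⟪v.gr x, ψ.gr x⟫_ℝ + ν * (v.fn x * ψ.fn x)))
      = ∫ x, (⟪gr v' x, gr ψ' x⟫_ℝ + ν * (fn v' x * fn ψ' x)) := by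
    refine integral_congr_ae ?_
    filter_upwards [hv.1, hv.2, hψ.1, hψ.2] with x a b c d
    rw [a, b, c, d]
  have e3 : (∫ x, |u.fn x| ^ (p - 1) * u.fn x * φ.fn x)
      = ∫ x, |fn u' x| ^ (p - 1) * fn u' x * fn φ' x := by
    refine integral_congr_ae ?_
    filter_upwards [hu.1, hφ.1] with x a b
    rw [a, b]
  have e4 : (∫ x, |v.fn x| ^ (crit N - 2) * v.fn x * ψ.fn x)
      = ∫ x, |fn v' x| ^ (crit N - 2) * fn v' x * fn ψ' x := by
    refine integral_congr_ae ?_
    filter_upwards [hv.1, hψ.1] with x a b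
    rw [a, b]
  have e5 : (∫ x, (u.fn x * ψ.fn x + v.fn x * φ.fn x))
      = ∫ x, (fn u' x * fn ψ' x + fn v' x * fn φ' x) := by
    refine integral_congr_ae ?_
    filter_upwards [hu.1, hv.1, hφ.1, hψ.1] with x a b c d
    rw [a, b, c, d]
  rw [hc, e1, e2, e3, e4, e5]

lemma rel_nehari {p μ ν lam : ℝ} {u v : CoupledSystem.H1 N} {u' v' : H1 N} (hu : Rel u u')
    (hv : Rel v v') :
    CoupledSystem.InNehari p μ ν lam u v ↔ (u', v') ∈ nehari N p μ ν lam := by
  unfold CoupledSystem.InNehari nehari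
  simp only [Set.mem_ofPred_eq]
  rw [rel_denergy hu hv hu hv, rel_zero hu, rel_zero hv, ne_eq, Prod.mk_eq_zero]

lemma mlevel_eq (p μ ν lam : ℝ) : CoupledSystem.mlevel N p μ ν lam = mlevel N p μ ν lam := by
  unfold CoupledSystem.mlevel mlevel
  congr 1
  ext c
  constructor
  · rintro ⟨u, v, h, rfl⟩
    obtain ⟨u', hu⟩ := exists_old u
    obtain ⟨v', hv⟩ := exists_old v
    exact ⟨(u', v'), (rel_nehari hu hv).1 h, (rel_energy hu hv).symm⟩
  · rintro ⟨⟨u', v'⟩, h, rfl⟩
    obtain ⟨u, hu⟩ := exists_new u'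
    obtain ⟨v, hv⟩ := exists_new v'
    exact ⟨u, v, (rel_nehari hu hv).2 h, rel_energy hu hv⟩

lemma sobS_new : CoupledSystem.sobS N = sobS N := rfl

lemma sobC_new (q : ℝ) : CoupledSystem.sobC N q = sobC N q := by
  unfold CoupledSystem.sobC sobC
  congr 1
  have key : ∀ (u : CoupledSystem.H1 N) (u' : H1 N), Rel u u' →
      (∫ x, |u.fn x| ^ q) = (∫ x, |fn u' x| ^ q) ∧
      (∫ x, (‖u.gr x‖ ^ 2 + u.fn x ^ 2)) = ∫ x, (‖gr u' x‖ ^ 2 + fn u' x ^ 2) := by
    intro u u' hu
    constructor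
    · refine integral_congr_ae ?_
      filter_upwards [hu.1] with x a
      rw [a]
    · refine integral_congr_ae ?_
      filter_upwards [hu.1, hu.2] with x a b
      rw [a, b]
  ext s
  constructor
  · intro h u'
    obtain ⟨u, hu⟩ := exists_new u'
    obtain ⟨k1, k2⟩ := key u u' hu
    rw [← k1, ← k2]
    exact h u
  · intro h u
    obtain ⟨u', hu⟩ := exists_old u
    obtain ⟨k1, k2⟩ := key u u' hu
    rw [k1, k2]
    exact h u'

lemma mu0_new (p : ℝ) : CoupledSystem.mu0 N p = mu0 N p := by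
  unfold CoupledSystem.mu0 mu0
  rw [sobS_new, sobC_new]

lemma lamStar_new (p μ ν : ℝ) : CoupledSystem.lamStar N p μ ν = lamStar N p μ ν := by
  unfold CoupledSystem.lamStar lamStar
  simp only [mlevel_eq, sobS_new]

/-- Existence of a ground state at the threshold coupling, for functions. -/
theorem final (hN : 3 ≤ N) {p : ℝ} (hp1 : 1 < p) (hp2 : p < CoupledSystem.crit N - 1)
    {μ ν : ℝ} (hμ : CoupledSystem.mu0 N p < μ) (hν : 0 < ν) :
    0 < CoupledSystem.lamStar N p μ ν ∧ CoupledSystem.lamStar N p μ ν < √(μ * ν) ∧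
      ∃ u v : CoupledSystem.H1 N,
        CoupledSystem.IsGroundState p μ ν (CoupledSystem.lamStar N p μ ν) u v := by
  have hc : CoupledSystem.crit N = crit N := rfl
  rw [hc] at hp2
  rw [mu0_new] at hμ
  have hp2' : p + 1 < crit N := by linarith
  rw [lamStar_new]
  refine ⟨lamStar_pos hN hp1 hp2' hμ hν, lamStar_lt hN hp1 hp2' hμ hν, ?_⟩
  obtain ⟨U, V, hsol, hneh, hen⟩ := exists_groundState_lamStar hN hp1 hp2' hμ hν
  obtain ⟨u, hu⟩ := exists_new U
  obtain ⟨v, hv⟩ := exists_new V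
  refine ⟨u, v, fun φ ψ => ?_, (rel_nehari hu hv).2 hneh, ?_⟩
  · obtain ⟨φ', hφ⟩ := exists_old φ
    obtain ⟨ψ', hψ⟩ := exists_old ψ
    rw [rel_denergy hu hv hφ hψ]
    exact hsol φ' ψ'
  · rw [rel_energy hu hv, mlevel_eq]
    exact hen

end Pool.Agent.GroundState
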