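import Pool.Agent.helper35.GS.Sharp

set_option autoImplicit false

open MeasureTheory Filter Topology
open scoped ENNReal NNReal ContDiff Gradient InnerProductSpace

noncomputable section

namespace Pool.Agent.GroundState

variable {N : ℕ}

/-! ### one-variable facts -/

lemma young_elem {q t τ : ℝ} (hq : 2 < q) (ht : 0 < t) (hτ : 0 ≤ τ) :
    τ ^ 2 * t ^ (q - 2) / 2 - τ ^ q / q ≤ (1 / 2 - 1 / q) * t ^ q := by
  have hq0 : 0 < q := by linarith
  have h := Real.geom_mean_le_arith_mean2_weighted (w₁ := 2 / q) (w₂ := 1 - 2 / q)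
    (p₁ := τ ^ q) (p₂ := t ^ q) (by positivity)
    (by rw [sub_nonneg, div_le_one hq0]; exact hq.le) (Real.rpow_nonneg hτ _)
    (Real.rpow_nonneg ht.le _) (by ring)
  rw [← Real.rpow_mul hτ, ← Real.rpow_mul ht.le] at h
  have e1 : q * (2 / q) = 2 := by field_simp
  have e2 : q * (1 - 2 / q) = q - 2 := by field_simp
  rw [e1, e2, Real.rpow_two] at h
  have h2 : τ ^ 2 * t ^ (q - 2) / 2 ≤ (2 / q * τ ^ q + (1 - 2 / q) * t ^ q) / 2 := by linarith
  have e3 : (2 / q * τ ^ q + (1 - 2 / q) * t ^ q) / 2 = τ ^ q / q + (1 / 2 - 1 / q) * t ^ q := by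
    field_simp
  linarith

/-- the fibre map. -/
def Fr (q s Q a b t : ℝ) : ℝ := t ^ 2 * Q / 2 - t ^ q * a / q - t ^ s * b / s

lemma Fr_root {q s Q a b t : ℝ} (ht : 0 < t) (h : Q = t ^ (q - 2) * a + t ^ (s - 2) * b) :
    Fr q s Q a b t = (1 / 2 - 1 / q) * (t ^ q * a) + (1 / 2 - 1 / s) * (t ^ s * b) := by
  have e1 : t ^ 2 * t ^ (q - 2) = t ^ q := by
    rw [← Real.rpow_two, ← Real.rpow_add ht]; congr 1; ring
  have e2 : t ^ 2 * t ^ (s - 2) = t ^ s := by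
    rw [← Real.rpow_two, ← Real.rpow_add ht]; congr 1; ring
  unfold Fr
  have : t ^ 2 * Q = t ^ q * a + t ^ s * b := by
    rw [h, mul_add, ← mul_assoc, ← mul_assoc, e1, e2]
  rw [this]; ring

lemma Fr_le_root {q s Q a b t τ : ℝ} (hq : 2 < q) (hs : 2 < s) (ha : 0 ≤ a) (hb : 0 ≤ b)
    (ht : 0 < t) (h : Q = t ^ (q - 2) * a + t ^ (s - 2) * b) (hτ : 0 ≤ τ) :
    Fr q s Q a b τ ≤ Fr q s Q a b t := by
  rw [Fr_root ht h]
  have h1 := mul_le_mul_of_nonneg_left (young_elem hq ht hτ) ha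
  have h2 := mul_le_mul_of_nonneg_left (young_elem hs ht hτ) hb
  unfold Fr
  rw [h]
  have e : τ ^ 2 * (t ^ (q - 2) * a + t ^ (s - 2) * b) / 2 - τ ^ q * a / q - τ ^ s * b / s
      = a * (τ ^ 2 * t ^ (q - 2) / 2 - τ ^ q / q) + b * (τ ^ 2 * t ^ (s - 2) / 2 - τ ^ s / s) := by
    ring
  rw [e]
  linarith

lemma root_fun_cont {q s a b : ℝ} (hq : 2 < q) (hs : 2 < s) :
    Continuous fun t : ℝ => t ^ (q - 2) * a + t ^ (s - 2) * b := by
  have h1 : Continuous fun t : ℝ => t ^ (q - 2) :=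
    continuous_id.rpow_const fun _ => Or.inr (by linarith)
  have h2 : Continuous fun t : ℝ => t ^ (s - 2) :=
    continuous_id.rpow_const fun _ => Or.inr (by linarith)
  exact (h1.mul continuous_const).add (h2.mul continuous_const)

lemma exists_root {q s Q a b : ℝ} (hq : 2 < q) (hqs : q ≤ s) (hQ : 0 < Q) (ha : 0 ≤ a)
    (hb : 0 ≤ b) (hab : 0 < a + b) :
    ∃ t, 0 < t ∧ Q = t ^ (q - 2) * a + t ^ (s - 2) * b ∧ (Q ≤ a + b → t ≤ 1) := by
  set g : ℝ → ℝ := fun t => t ^ (q - 2) * a + t ^ (s - 2) * b with hg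
  have hgc : Continuous g := root_fun_cont hq (by linarith)
  have hg0 : g 0 = 0 := by
    simp only [hg]
    rw [Real.zero_rpow (by linarith), Real.zero_rpow (by linarith)]; ring
  -- the right end point
  obtain ⟨T, hT0, hT, hT1⟩ : ∃ T, 0 < T ∧ Q ≤ g T ∧ (Q ≤ a + b → T ≤ 1) := by
    rcases le_total Q (a + b) with h | h
    · refine ⟨1, one_pos, ?_, fun _ => le_rfl⟩
      simp only [hg, Real.one_rpow, one_mul]; exact h
    · have h1 : 1 ≤ Q / (a + b) := by rwa [le_div_iff₀ hab, one_mul]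
      set T := (Q / (a + b)) ^ (1 / (q - 2)) with hTd
      have hT1 : 1 ≤ T := Real.one_le_rpow h1 (by
        apply div_nonneg zero_le_one; linarith)
      have e1 : T ^ (q - 2) = Q / (a + b) := by
        rw [hTd, ← Real.rpow_mul (by positivity), one_div_mul_cancel (by linarith), Real.rpow_one]
      have e2 : T ^ (q - 2) ≤ T ^ (s - 2) := Real.rpow_le_rpow_of_exponent_le hT1 (by linarith)
      refine ⟨T, by linarith, ?_, fun h' => ?_⟩
      · have : Q = T ^ (q - 2) * a + T ^ (q - 2) * b := by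
          rw [← mul_add, e1, div_mul_cancel₀ _ hab.ne']
        have h3 := mul_le_mul_of_nonneg_right e2 hb
        show Q ≤ T ^ (q - 2) * a + T ^ (s - 2) * b
        linarith
      · have : Q = a + b := le_antisymm h' h
        rw [hTd, this, div_self hab.ne', Real.one_rpow]
  have hmem : Q ∈ Set.Icc (g 0) (g T) := ⟨by rw [hg0]; exact hQ.le, hT⟩
  obtain ⟨t, ht, hgt⟩ := intermediate_value_Icc hT0.le hgc.continuousOn hmem
  refine ⟨t, ?_, hgt.symm, fun h => ht.2.trans (hT1 h)⟩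
  rcases ht.1.eq_or_lt with h | h
  · rw [← h, hg0] at hgt; linarith
  · exact h

/-! ### the quadratic form -/

/-- the quadratic part of (twice) the energy. -/
def Qf (μ ν lam : ℝ) (u v : H1 N) : ℝ :=
  ‖sndL u‖ ^ 2 + μ * ‖fstL u‖ ^ 2 + (‖sndL v‖ ^ 2 + ν * ‖fstL v‖ ^ 2)
    - 2 * lam * ⟪fstL u, fstL v⟫_ℝ

lemma energy_eq (p μ ν lam : ℝ) (u v : H1 N) :
    energy p μ ν lam u v = Qf μ ν lam u v / 2 - pw (p + 1) u / (p + 1) - pw (crit N) v / crit N := by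
  unfold energy Qf
  rw [integral_add (integrable_sq_gr u) ((integrable_sq_fn u).const_mul μ),
    integral_add (integrable_sq_gr v) ((integrable_sq_fn v).const_mul ν),
    integral_const_mul, integral_const_mul, ← norm_sq_fst, ← norm_sq_snd, ← norm_sq_fst,
    ← norm_sq_snd, inner_fst]
  unfold pw
  ring

lemma Fr_energy (hN : 3 ≤ N) {p : ℝ} (hp1 : 1 < p) (hp2 : p + 1 < crit N) (μ ν lam : ℝ)
    (u v : H1 N) {t : ℝ} (ht : 0 ≤ t) : energy p μ ν lam (t • u) (t • v)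
      = Fr (p + 1) (crit N) (Qf μ ν lam u v) (pw (p + 1) u) (pw (crit N) v) t := by
  have hc := crit_gt hN
  rw [energy_eq, pw_smul hN (by linarith) hp2.le, pw_smul hN hc.le le_rfl, abs_of_nonneg ht]
  unfold Fr Qf
  rw [map_smul, map_smul, map_smul, map_smul, norm_smul, norm_smul, norm_smul, norm_smul,
    real_inner_smul_left, real_inner_smul_right, Real.norm_of_nonneg ht]
  ring

lemma integrable_inner_gr (u v : H1 N) : Integrable fun x => ⟪gr u x, gr v x⟫_ℝ :=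
  (L2.integrable_inner (𝕜 := ℝ) (sndL u) (sndL v))

lemma abs_rpow_mul_self {p x : ℝ} (hp : 0 < p) : |x| ^ (p - 1) * x * x = |x| ^ (p + 1) := by
  rcases eq_or_ne x 0 with rfl | hx
  · rw [abs_zero, Real.zero_rpow (by linarith : p + 1 ≠ 0)]; ring
  · have h : 0 < |x| := abs_pos.2 hx
    have : |x| ^ (p + 1) = |x| ^ (p - 1) * |x| ^ (2 : ℝ) := by
      rw [← Real.rpow_add h]; congr 1; ring
    rw [this, Real.rpow_two, sq_abs]; ring

lemma denergy_self (hN : 3 ≤ N) {p : ℝ} (hp1 : 1 < p) (μ ν lam : ℝ) (u v : H1 N) :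
    denergy p μ ν lam u v u v = Qf μ ν lam u v - pw (p + 1) u - pw (crit N) v := by
  have hc := crit_gt hN
  unfold denergy Qf
  rw [integral_add (integrable_inner_gr u u) ((integrable_fn_mul u u).const_mul μ),
    integral_add (integrable_inner_gr v v) ((integrable_fn_mul v v).const_mul ν),
    integral_const_mul, integral_const_mul, ← inner_fst, ← inner_fst, ← inner_snd, ← inner_snd,
    real_inner_self_eq_norm_sq, real_inner_self_eq_norm_sq, real_inner_self_eq_norm_sq,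
    real_inner_self_eq_norm_sq]
  have e1 : (∫ x, |fn u x| ^ (p - 1) * fn u x * fn u x) = pw (p + 1) u := by
    unfold pw
    congr 1
    funext x
    exact abs_rpow_mul_self (by linarith)
  have e2 : (∫ x, |fn v x| ^ (crit N - 2) * fn v x * fn v x) = pw (crit N) v := by
    unfold pw
    congr 1
    funext x
    have := abs_rpow_mul_self (p := crit N - 1) (x := fn v x) (by linarith)
    rw [show crit N - 1 - 1 = crit N - 2 by ring, show crit N - 1 + 1 = crit N by ring] at this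
    exact this
  have e3 : (∫ x, (fn u x * fn v x + fn v x * fn u x)) = 2 * ⟪fstL u, fstL v⟫_ℝ := by
    rw [inner_fst, ← integral_const_mul]
    congr 1
    funext x
    ring
  rw [e1, e2, e3]
  ring

/-- the energy on the Nehari manifold. -/
def Kf (p : ℝ) (u v : H1 N) : ℝ :=
  (1 / 2 - 1 / (p + 1)) * pw (p + 1) u + (1 / 2 - 1 / crit N) * pw (crit N) v

lemma mem_nehari_iff (hN : 3 ≤ N) {p : ℝ} (hp1 : 1 < p) (μ ν lam : ℝ) (u v : H1 N) :
    (u, v) ∈ nehari N p μ ν lam ↔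
      (u, v) ≠ 0 ∧ Qf μ ν lam u v = pw (p + 1) u + pw (crit N) v := by
  unfold nehari
  simp only [Set.mem_ofPred_eq]
  rw [denergy_self hN hp1]
  constructor
  · rintro ⟨h1, h2⟩; exact ⟨h1, by linarith⟩
  · rintro ⟨h1, h2⟩; exact ⟨h1, by linarith⟩

lemma energy_of_nehari (hN : 3 ≤ N) {p : ℝ} (hp1 : 1 < p) {μ ν lam : ℝ} {u v : H1 N}
    (h : (u, v) ∈ nehari N p μ ν lam) : energy p μ ν lam u v = Kf p u v := by
  rw [mem_nehari_iff hN hp1] at h
  rw [energy_eq, h.2]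
  unfold Kf
  have : p + 1 ≠ 0 := by linarith
  have : crit N ≠ 0 := by have := crit_gt hN; linarith
  field_simp
  ring

lemma kp_pos {p : ℝ} (hp1 : 1 < p) : 0 < 1 / 2 - 1 / (p + 1) := by
  rw [sub_pos]
  exact one_div_lt_one_div_of_lt (by norm_num) (by linarith)

lemma ks_pos (hN : 3 ≤ N) : 0 < 1 / 2 - 1 / crit N := by
  rw [sub_pos]
  exact one_div_lt_one_div_of_lt (by norm_num) (crit_gt hN)

lemma Kf_nonneg (hN : 3 ≤ N) {p : ℝ} (hp1 : 1 < p) (u v : H1 N) : 0 ≤ Kf p u v :=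
  add_nonneg (mul_nonneg (kp_pos hp1).le (pw_nonneg _ _))
    (mul_nonneg (ks_pos hN).le (pw_nonneg _ _))

/-- coercivity constant. -/
def kap0 (μ ν θ : ℝ) : ℝ := min 1 ((1 - θ) * min μ ν)

lemma kap0_pos {μ ν θ : ℝ} (hμ : 0 < μ) (hν : 0 < ν) (hθ : θ < 1) : 0 < kap0 μ ν θ :=
  lt_min one_pos (mul_pos (by linarith) (lt_min hμ hν))

lemma Qf_lower {μ ν lam θ : ℝ} (hμ : 0 < μ) (hν : 0 < ν) (hθ : θ < 1)
    (hl : |lam| ≤ θ * √(μ * ν)) (u v : H1 N) :
    ‖sndL u‖ ^ 2 + ‖sndL v‖ ^ 2 + (1 - θ) * (μ * ‖fstL u‖ ^ 2 + ν * ‖fstL v‖ ^ 2)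
      ≤ Qf μ ν lam u v := by
  unfold Qf
  have h1 : |⟪fstL u, fstL v⟫_ℝ| ≤ ‖fstL u‖ * ‖fstL v‖ := abs_real_inner_le_norm _ _
  have hx := norm_nonneg (fstL u)
  have hy := norm_nonneg (fstL v)
  set x := ‖fstL u‖
  set y := ‖fstL v‖
  have h2 : 2 * lam * ⟪fstL u, fstL v⟫_ℝ ≤ θ * (μ * x ^ 2 + ν * y ^ 2) := by
    have hθ0 : 0 ≤ θ * √(μ * ν) := (abs_nonneg _).trans hl
    have hs : 0 < √(μ * ν) := Real.sqrt_pos.2 (mul_pos hμ hν)
    have hθ1 : 0 ≤ θ := nonneg_of_mul_nonneg_left hθ0 hs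
    calc 2 * lam * ⟪fstL u, fstL v⟫_ℝ ≤ |2 * lam * ⟪fstL u, fstL v⟫_ℝ| := le_abs_self _
      _ = 2 * (|lam| * |⟪fstL u, fstL v⟫_ℝ|) := by
          rw [abs_mul, abs_mul, abs_of_pos (by norm_num : (0 : ℝ) < 2)]; ring
      _ ≤ 2 * ((θ * √(μ * ν)) * (x * y)) := by
          apply mul_le_mul_of_nonneg_left _ (by norm_num)
          exact mul_le_mul hl h1 (abs_nonneg _) hθ0
      _ = θ * (2 * (√μ * x) * (√ν * y)) := by rw [Real.sqrt_mul hμ.le]; ring
      _ ≤ θ * (μ * x ^ 2 + ν * y ^ 2) := by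
          apply mul_le_mul_of_nonneg_left _ hθ1
          have := two_mul_le_add_sq (√μ * x) (√ν * y)
          rw [mul_pow, mul_pow, Real.sq_sqrt hμ.le, Real.sq_sqrt hν.le] at this
          exact this
  linarith

lemma Qf_coercive {μ ν lam θ : ℝ} (hμ : 0 < μ) (hν : 0 < ν) (hθ : θ < 1)
    (hl : |lam| ≤ θ * √(μ * ν)) (u v : H1 N) :
    kap0 μ ν θ * (‖u‖ ^ 2 + ‖v‖ ^ 2) ≤ Qf μ ν lam u v := by
  refine le_trans ?_ (Qf_lower hμ hν hθ hl u v)
  rw [norm_sq_H1, norm_sq_H1]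
  have k1 : kap0 μ ν θ ≤ 1 := min_le_left _ _
  have k2 : kap0 μ ν θ ≤ (1 - θ) * min μ ν := min_le_right _ _
  have k3 : kap0 μ ν θ ≤ (1 - θ) * μ :=
    k2.trans (mul_le_mul_of_nonneg_left (min_le_left _ _) (by linarith))
  have k4 : kap0 μ ν θ ≤ (1 - θ) * ν :=
    k2.trans (mul_le_mul_of_nonneg_left (min_le_right _ _) (by linarith))
  have a1 := mul_le_mul_of_nonneg_right k1 (sq_nonneg ‖sndL u‖)
  have a2 := mul_le_mul_of_nonneg_right k1 (sq_nonneg ‖sndL v‖)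
  have a3 := mul_le_mul_of_nonneg_right k3 (sq_nonneg ‖fstL u‖)
  have a4 := mul_le_mul_of_nonneg_right k4 (sq_nonneg ‖fstL v‖)
  linarith

lemma Qf_coercive' {μ ν lam θ : ℝ} (hμ : 0 < μ) (hν : 0 < ν) (hθ : θ < 1)
    (hl : |lam| ≤ θ * √(μ * ν)) (u v : H1 N) :
    kap0 μ ν θ * ‖u‖ ^ 2 + ‖sndL v‖ ^ 2 ≤ Qf μ ν lam u v := by
  refine le_trans ?_ (Qf_lower hμ hν hθ hl u v)
  rw [norm_sq_H1]
  have k1 : kap0 μ ν θ ≤ 1 := min_le_left _ _
  have k2 : kap0 μ ν θ ≤ (1 - θ) * min μ ν := min_le_right _ _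
  have k3 : kap0 μ ν θ ≤ (1 - θ) * μ :=
    k2.trans (mul_le_mul_of_nonneg_left (min_le_left _ _) (by linarith))
  have a1 := mul_le_mul_of_nonneg_right k1 (sq_nonneg ‖sndL u‖)
  have a3 := mul_le_mul_of_nonneg_right k3 (sq_nonneg ‖fstL u‖)
  have a4 : 0 ≤ (1 - θ) * (ν * ‖fstL v‖ ^ 2) := mul_nonneg (by linarith) (by positivity)
  linarith

lemma exists_theta {μ ν lam : ℝ} (hμ : 0 < μ) (hν : 0 < ν) (hl : |lam| < √(μ * ν)) :
    ∃ θ, θ < 1 ∧ |lam| ≤ θ * √(μ * ν) := by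
  have hs : 0 < √(μ * ν) := Real.sqrt_pos.2 (mul_pos hμ hν)
  refine ⟨|lam| / √(μ * ν), by rwa [div_lt_one hs], ?_⟩
  rw [div_mul_cancel₀ _ hs.ne']

lemma pair_ne_zero_iff (u v : H1 N) : (u, v) ≠ 0 ↔ 0 < ‖u‖ ^ 2 + ‖v‖ ^ 2 := by
  constructor
  · intro h
    rcases eq_or_ne u 0 with hu | hu
    · have hv : v ≠ 0 := by
        rintro rfl; exact h (by rw [hu]; rfl)
      have := norm_pos_iff.2 hv
      positivity
    · have := norm_pos_iff.2 hu
      positivity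
  · rintro h h0
    rw [Prod.mk_eq_zero] at h0
    rw [h0.1, h0.2] at h
    simp at h

lemma Qf_pos {μ ν lam : ℝ} (hμ : 0 < μ) (hν : 0 < ν) (hl : |lam| < √(μ * ν)) {u v : H1 N}
    (h : (u, v) ≠ 0) : 0 < Qf μ ν lam u v := by
  obtain ⟨θ, h1, h2⟩ := exists_theta hμ hν hl
  exact (mul_pos (kap0_pos hμ hν h1) ((pair_ne_zero_iff u v).1 h)).trans_le
    (Qf_coercive hμ hν h1 h2 u v)

lemma mlevel_le (hN : 3 ≤ N) {p : ℝ} (hp1 : 1 < p) {μ ν lam : ℝ} {u v : H1 N}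
    (h : (u, v) ∈ nehari N p μ ν lam) : mlevel N p μ ν lam ≤ Kf p u v := by
  unfold mlevel
  rw [← energy_of_nehari hN hp1 h]
  apply csInf_le
  · refine ⟨0, ?_⟩
    rintro x ⟨⟨u', v'⟩, hw, rfl⟩
    show 0 ≤ energy p μ ν lam u' v'
    rw [energy_of_nehari hN hp1 hw]
    exact Kf_nonneg hN hp1 _ _
  · exact ⟨(u, v), h, rfl⟩

lemma smul_pair_ne {u v : H1 N} (h : (u, v) ≠ 0) {t : ℝ} (ht : 0 < t) : (t • u, t • v) ≠ 0 := by
  rw [pair_ne_zero_iff] at h ⊢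
  rw [norm_smul, norm_smul, mul_pow, mul_pow, ← mul_add]
  have : 0 < ‖t‖ := norm_pos_iff.2 ht.ne'
  positivity

lemma Qf_smul (μ ν lam : ℝ) (u v : H1 N) (t : ℝ) :
    Qf μ ν lam (t • u) (t • v) = t ^ 2 * Qf μ ν lam u v := by
  unfold Qf
  rw [map_smul, map_smul, map_smul, map_smul, norm_smul, norm_smul, norm_smul, norm_smul,
    real_inner_smul_left, real_inner_smul_right, mul_pow, mul_pow, mul_pow, mul_pow,
    Real.norm_eq_abs, sq_abs]
  ring

/-- projection onto the Nehari manifold. -/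
lemma exists_proj (hN : 3 ≤ N) {p : ℝ} (hp1 : 1 < p) (hp2 : p + 1 < crit N) {μ ν lam : ℝ}
    (hμ : 0 < μ) (hν : 0 < ν) (hl : |lam| < √(μ * ν)) {u v : H1 N} (h0 : (u, v) ≠ 0)
    (hab : 0 < pw (p + 1) u + pw (crit N) v) :
    ∃ t, 0 < t ∧ (t • u, t • v) ∈ nehari N p μ ν lam ∧
      (Qf μ ν lam u v ≤ pw (p + 1) u + pw (crit N) v → t ≤ 1) ∧
      Qf μ ν lam u v = t ^ (p + 1 - 2) * pw (p + 1) u + t ^ (crit N - 2) * pw (crit N) v ∧
      Kf p (t • u) (t • v) = (1 / 2 - 1 / (p + 1)) * (t ^ (p + 1) * pw (p + 1) u)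
        + (1 / 2 - 1 / crit N) * (t ^ crit N * pw (crit N) v) := by
  have hc := crit_gt hN
  obtain ⟨t, ht, hroot, hle⟩ := exists_root (q := p + 1) (s := crit N) (by linarith) hp2.le
    (Qf_pos hμ hν hl h0) (pw_nonneg _ _) (pw_nonneg _ _) hab
  have ha : pw (p + 1) (t • u) = t ^ (p + 1) * pw (p + 1) u := by
    rw [pw_smul hN (by linarith) hp2.le, abs_of_pos ht]
  have hb : pw (crit N) (t • v) = t ^ crit N * pw (crit N) v := by
    rw [pw_smul hN hc.le le_rfl, abs_of_pos ht]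
  refine ⟨t, ht, ?_, hle, hroot, ?_⟩
  · rw [mem_nehari_iff hN hp1]
    refine ⟨smul_pair_ne h0 ht, ?_⟩
    rw [Qf_smul, ha, hb, hroot, mul_add, ← mul_assoc, ← mul_assoc]
    have e1 : t ^ 2 * t ^ (p + 1 - 2) = t ^ (p + 1) := by
      rw [← Real.rpow_two, ← Real.rpow_add ht]; congr 1; ring
    have e2 : t ^ 2 * t ^ (crit N - 2) = t ^ crit N := by
      rw [← Real.rpow_two, ← Real.rpow_add ht]; congr 1; ring
    rw [e1, e2]
  · unfold Kf
    rw [ha, hb]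

end Pool.Agent.GroundState
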